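import Pool.Agent.H132R3.EvenTree

set_option autoImplicit false

/-!
# Counting the leaf sets that induce an even tree
-/

namespace Pool.Agent.H132R3

namespace BT

variable {α β : Type} [DecidableEq α] [DecidableEq β]

/-- the leaf sets of size `k` that induce an even tree -/
noncomputable def S (k : ℕ) (t : BT α) : Finset (Finset α) := by
  classical
  exact (t.lv.powersetCard k).filter fun L => ∃ s, t.restrict L = some s ∧ s.even

theorem mem_S {k : ℕ} {t : BT α} {L : Finset α} :
    L ∈ S k t ↔ L ⊆ t.lv ∧ L.card = k ∧ ∃ s, t.restrict L = some s ∧ s.even := by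
  simp only [S, Finset.mem_filter, Finset.mem_powersetCard, and_assoc]

theorem restrict_none {t : BT α} (ht : t.wf) {L : Finset α} (h : Disjoint t.lv L) :
    t.restrict L = none := by
  rcases restrict_spec t L ht with ⟨-, h1⟩ | ⟨s, -, -, h3, -⟩
  · exact h1
  · exfalso
    have := lv_nonempty s
    rw [h3, Finset.disjoint_iff_inter_eq_empty.1 h] at this
    exact Finset.not_nonempty_empty this

theorem restrict_lv {t s : BT α} (ht : t.wf) {L : Finset α} (h : t.restrict L = some s) :
    s.lv = t.lv ∩ L := by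
  rcases restrict_spec t L ht with ⟨-, h1⟩ | ⟨s', h2, -, h3, -⟩
  · rw [h1] at h; exact absurd h (by simp)
  · rw [h2] at h
    injection h with h
    rw [← h, h3]

theorem mem_S_node {l r : BT α} (h : (node l r).wf) {k : ℕ} {L : Finset α} :
    L ∈ S k (node l r) ↔ L ∈ S k l ∨ L ∈ S k r ∨
      ∃ i j, 1 ≤ i ∧ 1 ≤ j ∧ i + j = k ∧ i ≤ j + 1 ∧ j ≤ i + 1 ∧
        ∃ L1 ∈ S i l, ∃ L2 ∈ S j r, L1 ∪ L2 = L := by
  obtain ⟨hd, hl, hr⟩ := h
  have hll : l.lv ∩ r.lv = ∅ := Finset.disjoint_iff_inter_eq_empty.1 hd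
  constructor
  · intro hL
    obtain ⟨hsub, hcard, s, hs, he⟩ := mem_S.1 hL
    have hsub' : L ⊆ l.lv ∪ r.lv := hsub
    have hLU : l.lv ∩ L ∪ r.lv ∩ L = L := by
      rw [← Finset.union_inter_distrib_right]
      exact Finset.inter_eq_right.2 hsub'
    rcases restrict_spec l L hl with ⟨dl, rl⟩ | ⟨a, rl, wa, la, -⟩
    · have hl0 : l.lv ∩ L = ∅ := Finset.disjoint_iff_inter_eq_empty.1 dl
      rw [hl0, Finset.empty_union] at hLU
      rcases restrict_spec r L hr with ⟨dr, rr⟩ | ⟨b, rr, wb, lb, -⟩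
      · simp [restrict, rl, rr] at hs
      · right; left
        refine mem_S.2 ⟨hLU ▸ Finset.inter_subset_left, hcard, s, ?_, he⟩
        simpa [restrict, rl, rr] using hs
    · rcases restrict_spec r L hr with ⟨dr, rr⟩ | ⟨b, rr, wb, lb, -⟩
      · have hr0 : r.lv ∩ L = ∅ := Finset.disjoint_iff_inter_eq_empty.1 dr
        rw [hr0, Finset.union_empty] at hLU
        left
        refine mem_S.2 ⟨hLU ▸ Finset.inter_subset_left, hcard, s, ?_, he⟩
        simpa [restrict, rl, rr] using hs
      · right; right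
        have hs' : node a b = s := by simpa [restrict, rl, rr] using hs
        subst hs'
        obtain ⟨⟨c1, c2⟩, ea, eb⟩ := he
        rw [la, lb] at c1 c2
        refine ⟨(l.lv ∩ L).card, (r.lv ∩ L).card, ?_, ?_, ?_, c1, c2, l.lv ∩ L, ?_, r.lv ∩ L, ?_,
          hLU⟩
        · have := Finset.card_pos.2 (lv_nonempty a)
          rw [la] at this; exact this
        · have := Finset.card_pos.2 (lv_nonempty b)
          rw [lb] at this; exact this
        · rw [← Finset.card_union_of_disjoint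
            (hd.mono Finset.inter_subset_left Finset.inter_subset_left), hLU, hcard]
        · refine mem_S.2 ⟨Finset.inter_subset_left, rfl, a, ?_, ea⟩
          rw [← rl]
          exact restrict_congr l (by rw [← Finset.inter_assoc, Finset.inter_self])
        · refine mem_S.2 ⟨Finset.inter_subset_left, rfl, b, ?_, eb⟩
          rw [← rr]
          exact restrict_congr r (by rw [← Finset.inter_assoc, Finset.inter_self])
  · rintro (hL | hL | ⟨i, j, hi, hj, hij, h1, h2, L1, hL1, L2, hL2, rfl⟩)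
    · obtain ⟨hsub, hcard, s, hs, he⟩ := mem_S.1 hL
      have hdr : Disjoint r.lv L := (hd.mono_left hsub).symm
      have rr := restrict_none hr hdr
      exact mem_S.2 ⟨hsub.trans Finset.subset_union_left, hcard, s, by simp [restrict, hs, rr], he⟩
    · obtain ⟨hsub, hcard, s, hs, he⟩ := mem_S.1 hL
      have hdl : Disjoint l.lv L := hd.mono_right hsub
      have rl := restrict_none hl hdl
      exact mem_S.2 ⟨hsub.trans Finset.subset_union_right, hcard, s, by simp [restrict, hs, rl], he⟩
    · obtain ⟨hsub1, hcard1, a, ha, ea⟩ := mem_S.1 hL1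
      obtain ⟨hsub2, hcard2, b, hb, eb⟩ := mem_S.1 hL2
      have d12 : Disjoint L1 L2 := hd.mono hsub1 hsub2
      have z1 : l.lv ∩ L2 = ∅ := Finset.disjoint_iff_inter_eq_empty.1 (hd.mono_right hsub2)
      have z2 : r.lv ∩ L1 = ∅ := Finset.disjoint_iff_inter_eq_empty.1 (hd.mono_left hsub1).symm
      have ra : l.restrict (L1 ∪ L2) = some a := by
        rw [← ha]
        exact restrict_congr l (by rw [Finset.inter_union_distrib_left, z1, Finset.union_empty])
      have rb : r.restrict (L1 ∪ L2) = some b := by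
        rw [← hb]
        exact restrict_congr r (by rw [Finset.inter_union_distrib_left, z2, Finset.empty_union])
      have la : a.lv = L1 := by
        rw [restrict_lv hl ha]; exact Finset.inter_eq_right.2 hsub1
      have lb : b.lv = L2 := by
        rw [restrict_lv hr hb]; exact Finset.inter_eq_right.2 hsub2
      refine mem_S.2 ⟨Finset.union_subset_union hsub1 hsub2, ?_, node a b,
        by simp [restrict, ra, rb], ⟨?_, ?_⟩, ea, eb⟩
      · rw [Finset.card_union_of_disjoint d12, hcard1, hcard2, hij]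
      · rw [la, lb, hcard1, hcard2]; exact h1
      · rw [la, lb, hcard1, hcard2]; exact h2

/-- pairs -/
noncomputable def Pr (l r : BT α) (i j : ℕ) : Finset (Finset α) :=
  (S i l ×ˢ S j r).image fun p => p.1 ∪ p.2

theorem mem_Pr {l r : BT α} {i j : ℕ} {L : Finset α} :
    L ∈ Pr l r i j ↔ ∃ L1 ∈ S i l, ∃ L2 ∈ S j r, L1 ∪ L2 = L := by
  unfold Pr
  rw [Finset.mem_image]
  constructor
  · rintro ⟨⟨L1, L2⟩, hp, h⟩
    obtain ⟨h1, h2⟩ := Finset.mem_product.1 hp
    exact ⟨L1, h1, L2, h2, h⟩
  · rintro ⟨L1, h1, L2, h2, h⟩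
    exact ⟨(L1, L2), Finset.mem_product.2 ⟨h1, h2⟩, h⟩

theorem inter_left_of_mem {l r : BT α} (hd : Disjoint l.lv r.lv) {i j : ℕ} {L1 L2 : Finset α}
    (h1 : L1 ∈ S i l) (h2 : L2 ∈ S j r) : l.lv ∩ (L1 ∪ L2) = L1 ∧ r.lv ∩ (L1 ∪ L2) = L2 := by
  have hsub1 := (mem_S.1 h1).1
  have hsub2 := (mem_S.1 h2).1
  have z1 : l.lv ∩ L2 = ∅ := Finset.disjoint_iff_inter_eq_empty.1 (hd.mono_right hsub2)
  have z2 : r.lv ∩ L1 = ∅ := Finset.disjoint_iff_inter_eq_empty.1 (hd.mono_left hsub1).symm
  constructor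
  · rw [Finset.inter_union_distrib_left, z1, Finset.union_empty]
    exact Finset.inter_eq_right.2 hsub1
  · rw [Finset.inter_union_distrib_left, z2, Finset.empty_union]
    exact Finset.inter_eq_right.2 hsub2

theorem card_Pr {l r : BT α} (hd : Disjoint l.lv r.lv) (i j : ℕ) :
    (Pr l r i j).card = (S i l).card * (S j r).card := by
  unfold Pr
  rw [Finset.card_image_of_injOn, Finset.card_product]
  rintro ⟨L1, L2⟩ hp ⟨M1, M2⟩ hq h
  obtain ⟨h1, h2⟩ := Finset.mem_product.1 (Finset.mem_coe.1 hp)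
  obtain ⟨h3, h4⟩ := Finset.mem_product.1 (Finset.mem_coe.1 hq)
  have h' : L1 ∪ L2 = M1 ∪ M2 := h
  obtain ⟨a1, a2⟩ := inter_left_of_mem hd h1 h2
  obtain ⟨b1, b2⟩ := inter_left_of_mem hd h3 h4
  simp only at a1 a2 b1 b2
  rw [h'] at a1 a2
  rw [Prod.mk.injEq]
  exact ⟨a1.symm.trans b1, a2.symm.trans b2⟩

theorem disj_SS {l r : BT α} (hd : Disjoint l.lv r.lv) {k : ℕ} (hk : 1 ≤ k) :
    Disjoint (S k l) (S k r) := by
  refine Finset.disjoint_left.2 fun L h1 h2 => ?_
  obtain ⟨hsub1, hcard, -⟩ := mem_S.1 h1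
  obtain ⟨hsub2, -, -⟩ := mem_S.1 h2
  obtain ⟨x, hx⟩ : L.Nonempty := Finset.card_pos.1 (by omega)
  exact Finset.disjoint_left.1 hd (hsub1 hx) (hsub2 hx)

theorem disj_SPl {l r : BT α} (hd : Disjoint l.lv r.lv) {k i j : ℕ} (hj : 1 ≤ j) :
    Disjoint (S k l) (Pr l r i j) := by
  refine Finset.disjoint_left.2 fun L h1 h2 => ?_
  obtain ⟨hsub1, -, -⟩ := mem_S.1 h1
  obtain ⟨L1, hL1, L2, hL2, rfl⟩ := mem_Pr.1 h2
  obtain ⟨x, hx⟩ : L2.Nonempty := Finset.card_pos.1 (by rw [(mem_S.1 hL2).2.1]; omega)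
  exact Finset.disjoint_left.1 hd (hsub1 (Finset.mem_union_right _ hx)) ((mem_S.1 hL2).1 hx)

theorem disj_SPr {l r : BT α} (hd : Disjoint l.lv r.lv) {k i j : ℕ} (hi : 1 ≤ i) :
    Disjoint (S k r) (Pr l r i j) := by
  refine Finset.disjoint_left.2 fun L h1 h2 => ?_
  obtain ⟨hsub1, -, -⟩ := mem_S.1 h1
  obtain ⟨L1, hL1, L2, hL2, rfl⟩ := mem_Pr.1 h2
  obtain ⟨x, hx⟩ : L1.Nonempty := Finset.card_pos.1 (by rw [(mem_S.1 hL1).2.1]; omega)
  exact Finset.disjoint_left.1 hd ((mem_S.1 hL1).1 hx) (hsub1 (Finset.mem_union_left _ hx))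

theorem disj_PP {l r : BT α} (hd : Disjoint l.lv r.lv) {i j i' j' : ℕ} (hii : i ≠ i') :
    Disjoint (Pr l r i j) (Pr l r i' j') := by
  refine Finset.disjoint_left.2 fun L h1 h2 => ?_
  obtain ⟨L1, hL1, L2, hL2, rfl⟩ := mem_Pr.1 h1
  obtain ⟨M1, hM1, M2, hM2, h⟩ := mem_Pr.1 h2
  have a1 := (inter_left_of_mem hd hL1 hL2).1
  have b1 := (inter_left_of_mem hd hM1 hM2).1
  rw [h, a1] at b1
  apply hii
  rw [← (mem_S.1 hL1).2.1, ← (mem_S.1 hM1).2.1, b1]

theorem card_S_one {l r : BT α} (h : (node l r).wf) :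
    (S 1 (node l r)).card = (S 1 l).card + (S 1 r).card := by
  have e : S 1 (node l r) = S 1 l ∪ S 1 r := by
    ext L
    rw [mem_S_node h, Finset.mem_union]
    constructor
    · rintro (h1 | h1 | ⟨i, j, hi, hj, hij, -⟩)
      · exact Or.inl h1
      · exact Or.inr h1
      · omega
    · rintro (h1 | h1)
      · exact Or.inl h1
      · exact Or.inr (Or.inl h1)
  rw [e, Finset.card_union_of_disjoint (disj_SS h.1 le_rfl)]

theorem card_S_even {l r : BT α} (h : (node l r).wf) {s : ℕ} (hs : 1 ≤ s) :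
    (S (2 * s) (node l r)).card =
      (S (2 * s) l).card + (S (2 * s) r).card + (S s l).card * (S s r).card := by
  have e : S (2 * s) (node l r) = (S (2 * s) l ∪ S (2 * s) r) ∪ Pr l r s s := by
    ext L
    rw [mem_S_node h, Finset.mem_union, Finset.mem_union, mem_Pr]
    constructor
    · rintro (h1 | h1 | ⟨i, j, hi, hj, hij, h2, h3, h4⟩)
      · exact Or.inl (Or.inl h1)
      · exact Or.inl (Or.inr h1)
      · have e1 : i = s := by omega
        have e2 : j = s := by omega
        subst e1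
        subst e2
        exact Or.inr h4
    · rintro ((h1 | h1) | h1)
      · exact Or.inl h1
      · exact Or.inr (Or.inl h1)
      · exact Or.inr (Or.inr ⟨s, s, hs, hs, by omega, by omega, by omega, h1⟩)
  rw [e, Finset.card_union_of_disjoint, Finset.card_union_of_disjoint (disj_SS h.1 (by omega)),
    card_Pr h.1]
  exact Finset.disjoint_union_left.2 ⟨disj_SPl h.1 hs, disj_SPr h.1 hs⟩

theorem card_S_odd {l r : BT α} (h : (node l r).wf) {s : ℕ} (hs : 1 ≤ s) :
    (S (2 * s + 1) (node l r)).card =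
      (S (2 * s + 1) l).card + (S (2 * s + 1) r).card +
        ((S (s + 1) l).card * (S s r).card + (S s l).card * (S (s + 1) r).card) := by
  have e : S (2 * s + 1) (node l r) = (S (2 * s + 1) l ∪ S (2 * s + 1) r) ∪
      (Pr l r (s + 1) s ∪ Pr l r s (s + 1)) := by
    ext L
    rw [mem_S_node h, Finset.mem_union, Finset.mem_union, Finset.mem_union, mem_Pr, mem_Pr]
    constructor
    · rintro (h1 | h1 | ⟨i, j, hi, hj, hij, h2, h3, h4⟩)
      · exact Or.inl (Or.inl h1)
      · exact Or.inl (Or.inr h1)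
      · have e1 : (i = s + 1 ∧ j = s) ∨ (i = s ∧ j = s + 1) := by omega
        rcases e1 with ⟨e1, e2⟩ | ⟨e1, e2⟩
        · rw [e1, e2] at h4
          exact Or.inr (Or.inl h4)
        · rw [e1, e2] at h4
          exact Or.inr (Or.inr h4)
    · rintro ((h1 | h1) | h1 | h1)
      · exact Or.inl h1
      · exact Or.inr (Or.inl h1)
      · exact Or.inr (Or.inr ⟨s + 1, s, by omega, hs, by omega, by omega, by omega, h1⟩)
      · exact Or.inr (Or.inr ⟨s, s + 1, hs, by omega, by omega, by omega, by omega, h1⟩)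
  rw [e, Finset.card_union_of_disjoint, Finset.card_union_of_disjoint (disj_SS h.1 (by omega)),
    Finset.card_union_of_disjoint (disj_PP h.1 (by omega)), card_Pr h.1, card_Pr h.1]
  exact Finset.disjoint_union_left.2
    ⟨Finset.disjoint_union_right.2 ⟨disj_SPl h.1 hs, disj_SPl h.1 (by omega)⟩,
      Finset.disjoint_union_right.2 ⟨disj_SPr h.1 (by omega), disj_SPr h.1 hs⟩⟩

theorem card_S_leaf (a : α) {k : ℕ} (hk : 1 ≤ k) :
    (S k (leaf a)).card = f k 1 := by
  rw [f_one_right]
  split_ifs with h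
  · subst h
    have : S 1 (leaf a) = {{a}} := by
      ext L
      rw [mem_S, Finset.mem_singleton]
      constructor
      · rintro ⟨h1, h2, -⟩
        rcases Finset.subset_singleton_iff.1 (show L ⊆ {a} from h1) with h3 | h3
        · subst h3; simp at h2
        · exact h3
      · rintro rfl
        exact ⟨Finset.Subset.refl _, Finset.card_singleton a, leaf a, by simp [restrict], trivial⟩
    rw [this, Finset.card_singleton]
  · rw [Finset.card_eq_zero, Finset.eq_empty_iff_forall_notMem]
    intro L hL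
    obtain ⟨h1, h2, -⟩ := mem_S.1 hL
    have h3 := Finset.card_le_card h1
    have h4 : (leaf a).lv.card = 1 := Finset.card_singleton a
    omega

theorem card_S_le (t : BT α) (ht : t.wf) : ∀ k, 1 ≤ k → (S k t).card ≤ f k t.lv.card := by
  induction t with
  | leaf a =>
    intro k hk
    rw [card_S_leaf a hk]
    exact le_of_eq (by rw [show (leaf a).lv.card = 1 from Finset.card_singleton a])
  | node l r ihl ihr =>
    intro k hk
    have il := ihl ht.2.1
    have ir := ihr ht.2.2
    rw [card_lv_node ht]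
    rcases Nat.even_or_odd' k with ⟨s, rfl | rfl⟩
    · have hs : 1 ≤ s := by omega
      rw [card_S_even ht hs]
      exact le_trans (add_le_add (add_le_add (il _ hk) (ir _ hk))
        (Nat.mul_le_mul (il _ hs) (ir _ hs))) (split_even hs)
    · rcases Nat.eq_zero_or_pos s with rfl | hs
      · rw [show 2 * 0 + 1 = 1 by rfl, card_S_one ht, f_one]
        have h1 := il 1 le_rfl
        have h2 := ir 1 le_rfl
        rw [f_one] at h1 h2
        omega
      · rw [card_S_odd ht hs]
        exact le_trans (add_le_add (add_le_add (il _ hk) (ir _ hk))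
          (add_le_add (Nat.mul_le_mul (il _ (by omega)) (ir _ hs))
            (Nat.mul_le_mul (il _ hs) (ir _ (by omega))))) (split_odd hs)

theorem f_even_rec {s i j : ℕ} (hs : 1 ≤ s) (hi : 1 ≤ i) (hj : 1 ≤ j) (h1 : i ≤ j + 1)
    (h2 : j ≤ i + 1) : f (2 * s) (i + j) = f (2 * s) i + f (2 * s) j + f s i * f s j := by
  rw [f_of_two_le (by omega) (by omega), if_pos (by omega), show 2 * s / 2 = s by omega]
  have : ((i + j + 1) / 2 = i ∧ (i + j) / 2 = j) ∨ ((i + j + 1) / 2 = j ∧ (i + j) / 2 = i) := by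
    omega
  rcases this with ⟨e1, e2⟩ | ⟨e1, e2⟩
  · rw [e1, e2]
  · rw [e1, e2]; ring

theorem f_odd_rec {s i j : ℕ} (hs : 1 ≤ s) (hi : 1 ≤ i) (hj : 1 ≤ j) (h1 : i ≤ j + 1)
    (h2 : j ≤ i + 1) : f (2 * s + 1) (i + j) =
      f (2 * s + 1) i + f (2 * s + 1) j + (f (s + 1) i * f s j + f s i * f (s + 1) j) := by
  rw [f_of_two_le (by omega) (by omega), if_neg (by omega), show (2 * s + 1) / 2 = s by omega]
  have : ((i + j + 1) / 2 = i ∧ (i + j) / 2 = j) ∨ ((i + j + 1) / 2 = j ∧ (i + j) / 2 = i) := by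
    omega
  rcases this with ⟨e1, e2⟩ | ⟨e1, e2⟩
  · rw [e1, e2]
  · rw [e1, e2]; ring

theorem card_S_eq (t : BT α) (ht : t.wf) (he : t.even) :
    ∀ k, 1 ≤ k → (S k t).card = f k t.lv.card := by
  induction t with
  | leaf a =>
    intro k hk
    rw [card_S_leaf a hk]
    exact (by rw [show (leaf a).lv.card = 1 from Finset.card_singleton a])
  | node l r ihl ihr =>
    intro k hk
    obtain ⟨⟨b1, b2⟩, el, er⟩ := he
    have il := ihl ht.2.1 el
    have ir := ihr ht.2.2 er
    have pl := Finset.card_pos.2 (lv_nonempty l)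
    have pr := Finset.card_pos.2 (lv_nonempty r)
    rw [card_lv_node ht]
    rcases Nat.even_or_odd' k with ⟨s, rfl | rfl⟩
    · have hs : 1 ≤ s := by omega
      rw [card_S_even ht hs, il _ hk, ir _ hk, il _ hs, ir _ hs, f_even_rec hs pl pr b1 b2]
    · rcases Nat.eq_zero_or_pos s with rfl | hs
      · rw [show 2 * 0 + 1 = 1 by rfl, card_S_one ht, f_one, il 1 le_rfl, ir 1 le_rfl, f_one, f_one]
      · rw [card_S_odd ht hs, il _ hk, ir _ hk, il _ hs, ir _ hs, il (s + 1) (by omega),
          ir (s + 1) (by omega), f_odd_rec hs pl pr b1 b2]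

/-- The copies of an even tree `F`, in the language of clusters. -/
theorem copies_eq {α β : Type} [DecidableEq α] [DecidableEq β] [Fintype α]
    {F : Finset (Finset α)} {tF : BT α} (wF : tF.wf)
    (eF : tF.even) (lF : tF.lv = Finset.univ) (fF : ∀ B, B ∈ tF.fam ↔ B ∈ F) (hF : EvenFam F)
    {T : Finset (Finset β)} {t : BT β} (wt : t.wf) (fT : ∀ B, B ∈ t.fam ↔ B ∈ T)
    (hlv : ∀ x : β, x ∈ t.lv) (hk : 1 ≤ Fintype.card α) :
    {L : Finset β | ∃ f : α → β, Function.Injective f ∧ Finset.univ.image f = L ∧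
      ∀ B : Finset α, B ∈ F ↔ (B.Nonempty ∧ ∃ A ∈ T, B.image f = A ∩ L)} =
    (S (Fintype.card α) t : Set (Finset β)) := by
  ext L
  rw [Finset.mem_coe, mem_S]
  constructor
  · rintro ⟨f, hinj, himg, hB⟩
    have hcard : L.card = Fintype.card α := by
      rw [← himg, Finset.card_image_of_injective _ hinj, Finset.card_univ]
    refine ⟨fun x _ => hlv x, hcard, ?_⟩
    rcases restrict_spec t L wt with ⟨hd, -⟩ | ⟨s, hs, ws, ls, fs⟩
    · exfalso
      have : L = ∅ := by
        rw [Finset.eq_empty_iff_forall_notMem]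
        intro x hx
        exact Finset.disjoint_left.1 hd (hlv x) hx
      rw [this, Finset.card_empty] at hcard
      omega
    · have lsL : s.lv = L := by
        rw [ls]; exact Finset.inter_eq_right.2 fun x _ => hlv x
      refine ⟨s, hs, even_of_evenFam ws ?_⟩
      -- members of `s.fam` are images of members of `F`
      have hpre : ∀ A ∈ s.fam, ∃ A' ∈ F, A'.image f = A := by
        intro A hA
        have hAL : A ⊆ L := lsL ▸ (of_mem_fam hA).2
        refine ⟨Finset.univ.filter fun x => f x ∈ A, ?_, ?_⟩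
        · rw [hB]
          have himA : (Finset.univ.filter fun x => f x ∈ A).image f = A := by
            ext y
            simp only [Finset.mem_image, Finset.mem_filter, Finset.mem_univ, true_and]
            constructor
            · rintro ⟨x, hx, rfl⟩; exact hx
            · intro hy
              have : y ∈ Finset.univ.image f := himg ▸ hAL hy
              obtain ⟨x, -, rfl⟩ := Finset.mem_image.1 this
              exact ⟨x, hy, rfl⟩
          obtain ⟨h1, A0, hA0, h2⟩ := (fs A).1 hA
          constructor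
          · rw [← himA] at h1
            exact Finset.image_nonempty.1 h1
          · exact ⟨A0, (fT A0).1 hA0, himA.trans h2⟩
        · ext y
          simp only [Finset.mem_image, Finset.mem_filter, Finset.mem_univ, true_and]
          constructor
          · rintro ⟨x, hx, rfl⟩; exact hx
          · intro hy
            have : y ∈ Finset.univ.image f := himg ▸ hAL hy
            obtain ⟨x, -, rfl⟩ := Finset.mem_image.1 this
            exact ⟨x, hy, rfl⟩
      have hpost : ∀ A' ∈ F, A'.image f ∈ s.fam := by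
        intro A' hA'
        obtain ⟨h1, A0, hA0, h2⟩ := (hB A').1 hA'
        exact (fs _).2 ⟨h1.image f, A0, (fT A0).2 hA0, h2⟩
      intro A hA B hB' hBA hmax
      obtain ⟨A', hA', rfl⟩ := hpre A hA
      obtain ⟨B', hB'', rfl⟩ := hpre B hB'
      rw [Finset.card_image_of_injective _ hinj, Finset.card_image_of_injective _ hinj]
      have hsub : ∀ P R : Finset α, P.image f ⊆ R.image f ↔ P ⊆ R := fun P R =>
        Finset.image_subset_image_iff hinj
      refine hF A' hA' B' hB'' ⟨(hsub _ _).1 hBA.1, fun h => hBA.2 ((hsub _ _).2 h)⟩ ?_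
      intro D hD h1 h2
      rcases hmax (D.image f) (hpost D hD) ((hsub _ _).2 h1) ((hsub _ _).2 h2) with h3 | h3
      · exact Or.inl (Finset.image_injective hinj h3)
      · exact Or.inr (Finset.image_injective hinj h3)
  · rintro ⟨hsub, hcard, s, hs, he⟩
    rcases restrict_spec t L wt with ⟨-, hs'⟩ | ⟨s', hs', ws, ls, fs⟩
    · rw [hs'] at hs; exact absurd hs (by simp)
    · rw [hs'] at hs
      injection hs with hs
      subst hs
      have lsL : s'.lv = L := by
        rw [ls]; exact Finset.inter_eq_right.2 fun x _ => hlv x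
      obtain ⟨f, h1, h2, h3⟩ := iso_of_even tF s' wF ws eF he
        (by rw [lF, lsL, hcard, Finset.card_univ])
      refine ⟨f, ?_, ?_, ?_⟩
      · intro x y hxy
        exact h1 (by rw [lF]; simp) (by rw [lF]; simp) hxy
      · rw [← lF, h2, lsL]
      · intro B
        rw [← fF, h3 B (by rw [lF]; exact Finset.subset_univ _), fs]
        constructor
        · rintro ⟨h4, A, hA, h5⟩
          exact ⟨Finset.image_nonempty.1 h4, A, (fT A).1 hA, h5⟩
        · rintro ⟨h4, A, hA, h5⟩
          exact ⟨h4.image f, A, (fT A).2 hA, h5⟩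

end BT

end Pool.Agent.H132R3
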