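import Pool.Agent.H132R3.EvenNum

set_option autoImplicit false

/-!
# The quotients `f_{k+1}(n) / f_k(n)` are nondecreasing in `n`
-/

namespace Pool.Agent.H132R3

theorem fin_check_g : ∀ k ∈ Finset.Icc 3 7, ∀ n ∈ Finset.range 31,
    k * n * (g 6 k (n + 1) * g 6 (k + 1) n) + 2 * (g 6 k n * g 6 (k + 1) (n + 1)) ≤
      k * n * (g 6 k n * g 6 (k + 1) (n + 1)) := by
  decide +kernel

theorem fin_check (k n : ℕ) (hk : 3 ≤ k) (hk' : k ≤ 7) (hn : n ≤ 30) :
    (k : ℝ) * n * (F k (n + 1) * F (k + 1) n) + 2 * (F k n * F (k + 1) (n + 1)) ≤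
      k * n * (F k n * F (k + 1) (n + 1)) := by
  have h := fin_check_g k (Finset.mem_Icc.2 ⟨hk, hk'⟩) n (Finset.mem_range.2 (by omega))
  have e1 : ∀ j i, i ≤ 31 → g 6 j i = f j i := fun j i hi =>
    (f_eq_g (t := 5) (by norm_num; omega)).symm
  rw [e1 _ _ (by omega), e1 _ _ (by omega), e1 _ _ (by omega), e1 _ _ (by omega)] at h
  unfold F
  exact_mod_cast h

/-- `Q k n = f_k(n) / f_k(n+1)` -/
noncomputable def Q (k n : ℕ) : ℝ := F k n / F k (n + 1)

theorem Q_nonneg (k n : ℕ) : 0 ≤ Q k n := div_nonneg (F_nonneg _ _) (F_nonneg _ _)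

theorem Q_le_one (k n : ℕ) : Q k n ≤ 1 :=
  div_le_one_of_le₀ (F_mono_succ n k) (F_nonneg _ _)

theorem Q_lower {k n : ℕ} (hk : 1 ≤ k) (h : k ≤ n + 1) : 1 - (k : ℝ) / (n + 1) ≤ Q k n := by
  have hp := F_pos hk h
  have hn : (0 : ℝ) < (n : ℝ) + 1 := by positivity
  unfold Q
  rw [le_div_iff₀ hp]
  have := bound_U n k hk
  have h2 : (1 - (k : ℝ) / (n + 1)) = ((n : ℝ) + 1 - k) / (n + 1) := by field_simp
  rw [h2, div_mul_eq_mul_div, div_le_iff₀ hn]
  linarith

theorem Q_upper {k n : ℕ} (hk : 2 ≤ k) (h : k ≤ n + 1) :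
    Q k n ≤ 1 - ((2 * k + 2) / 3 : ℝ) / (n + 1) := by
  have hp := F_pos (by omega : 1 ≤ k) h
  have hn : (0 : ℝ) < (n : ℝ) + 1 := by positivity
  unfold Q
  rw [div_le_iff₀ hp]
  have := bound_L n k hk
  have h2 : (1 - ((2 * k + 2) / 3 : ℝ) / (n + 1)) = ((n : ℝ) + 1 - (2 * k + 2) / 3) / (n + 1) := by
    field_simp
  rw [h2, div_mul_eq_mul_div, le_div_iff₀ hn]
  linarith

theorem Q_mul {k n : ℕ} (hk : 1 ≤ k) (h : k ≤ n + 1) : Q k n * F k (n + 1) = F k n := by
  unfold Q
  exact div_mul_cancel₀ _ (F_pos hk h).ne'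

theorem up_le {k m : ℕ} (h : k ≤ 2 * m + 2) : up k ≤ m + 1 := by unfold up; omega
theorem dn_le {k m : ℕ} (h : k ≤ 2 * m + 2) : dn k ≤ m + 1 := by unfold dn; omega

/-- error of the even step -/
noncomputable def ee (k m : ℕ) : ℝ :=
  if m + 1 < k then 0 else (k - 2) / (3 * 2 ^ k) / (m + 1)

/-- error of the odd step -/
noncomputable def eo (k m : ℕ) : ℝ :=
  if m + 1 < k then 0 else
    if m + 1 < 2 * k then (2 * k - 2) / (3 * 2 ^ (k - 1)) / (m + 1)
    else (k - 2) / (3 * 2 ^ (k - 1)) / (m + 1)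

theorem even_close {k m : ℕ} (hk : 4 ≤ k) (h : k ≤ 2 * m + 2) :
    |Q k (2 * m + 1) - (Q (up k) m + Q (dn k) m) / 2| ≤ ee k m := by
  have hk2 : 2 ≤ k := by omega
  have hup : 2 ≤ up k := by unfold up; omega
  have hdn : 2 ≤ dn k := by unfold dn; omega
  have hupm := up_le h
  have hdnm := dn_le h
  have hud : ((up k : ℕ) : ℝ) + (dn k : ℕ) = k := by exact_mod_cast up_add_dn k
  have hN : 0 < F k (2 * (m + 1)) := F_pos (by omega) (by omega)
  have hqu := Q_mul (by omega : 1 ≤ up k) hupm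
  have hqv := Q_mul (by omega : 1 ≤ dn k) hdnm
  set qu := Q (up k) m with hqu'
  set qv := Q (dn k) m with hqv'
  have e1 : F k (2 * m + 1) - (qu + qv) / 2 * F k (2 * (m + 1)) =
      F k (m + 1) + F k m - (qu + qv) * F k (m + 1) := by
    rw [F_odd hk2, F_even hk2, ← hqu, ← hqv]
    ring
  have e2 : Q k (2 * m + 1) - (qu + qv) / 2 =
      (F k (m + 1) + F k m - (qu + qv) * F k (m + 1)) / F k (2 * (m + 1)) := by
    rw [← e1, sub_div, mul_div_cancel_right₀ _ hN.ne']
    rfl
  rw [e2]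
  unfold ee
  split_ifs with hm
  · rw [F_eq_zero hm, F_eq_zero (show m < k by omega)]
    simp
  · have hmk : k ≤ m + 1 := by omega
    have hp : (0 : ℝ) < (m : ℝ) + 1 := by positivity
    have hkr : (4 : ℝ) ≤ k := by exact_mod_cast hk
    have hY := F_pos (by omega : 1 ≤ k) hmk
    have L0 := bound_L m k hk2
    have U0 := bound_U m k (by omega)
    have Lu := Q_upper hup hupm
    have Lv := Q_upper hdn hdnm
    have Uu := Q_lower (by omega : 1 ≤ up k) hupm
    have Uv := Q_lower (by omega : 1 ≤ dn k) hdnm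
    rw [← hqu'] at Lu Uu
    rw [← hqv'] at Lv Uv
    have hC := C2_even (by omega : 1 ≤ k) (m + 1)
    -- absolute value of the numerator
    have s1 : (m + 1 : ℝ) * (qu + qv) ≤ 2 * (m + 1) - (2 * k + 4) / 3 := by
      have : qu + qv ≤ 2 - ((2 * k + 4) / 3) / (m + 1) := by
        have : ((2 * (up k : ℕ) + 2) / 3 : ℝ) / (m + 1) + ((2 * (dn k : ℕ) + 2) / 3 : ℝ) / (m + 1)
            = ((2 * k + 4) / 3) / (m + 1) := by
          rw [← hud]; ring
        linarith
      have h3 := mul_le_mul_of_nonneg_left this hp.le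
      have h4 : (m + 1 : ℝ) * (2 - ((2 * k + 4) / 3) / (m + 1)) = 2 * (m + 1) - (2 * k + 4) / 3 := by
        field_simp
      linarith
    have s2 : 2 * (m + 1) - (k : ℝ) ≤ (m + 1 : ℝ) * (qu + qv) := by
      have : 2 - (k : ℝ) / (m + 1) ≤ qu + qv := by
        have : ((up k : ℕ) : ℝ) / (m + 1) + ((dn k : ℕ) : ℝ) / (m + 1) = (k : ℝ) / (m + 1) := by
          rw [← hud]; ring
        linarith
      have h3 := mul_le_mul_of_nonneg_left this hp.le
      have h4 : (m + 1 : ℝ) * (2 - (k : ℝ) / (m + 1)) = 2 * (m + 1) - k := by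
        field_simp
      linarith
    have hnum : |F k (m + 1) + F k m - (qu + qv) * F k (m + 1)| ≤
        (k - 2) / 3 * F k (m + 1) / (m + 1) := by
      rw [le_div_iff₀ hp, ← abs_of_pos hp, ← abs_mul, abs_le]
      have t1 := mul_le_mul_of_nonneg_right s1 hY.le
      have t2 := mul_le_mul_of_nonneg_right s2 hY.le
      constructor
      · nlinarith
      · nlinarith
    rw [abs_div, abs_of_pos hN]
    have hpow : (0 : ℝ) < 2 ^ k := by positivity
    calc |F k (m + 1) + F k m - (qu + qv) * F k (m + 1)| / F k (2 * (m + 1))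
        ≤ ((k - 2) / 3 * F k (m + 1) / (m + 1)) / (2 ^ k * F k (m + 1)) := by
          refine div_le_div₀ ?_ hnum (by positivity) hC
          have : (0 : ℝ) ≤ k - 2 := by linarith
          positivity
      _ = (k - 2) / (3 * 2 ^ k) / (m + 1) := by
          field_simp

theorem odd_close {k m : ℕ} (hk : 4 ≤ k) (h : k ≤ 2 * m + 1) :
    |Q k (2 * m) - 2 * (Q (up k) m * Q (dn k) m) / (Q (up k) m + Q (dn k) m)| ≤ eo k m := by
  have hk2 : 2 ≤ k := by omega
  have hup : 2 ≤ up k := by unfold up; omega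
  have hdn : 2 ≤ dn k := by unfold dn; omega
  have hupm : up k ≤ m + 1 := by unfold up; omega
  have hdnm : dn k ≤ m + 1 := by unfold dn; omega
  have hdnm' : dn k ≤ m := by unfold dn; omega
  have hud : ((up k : ℕ) : ℝ) + (dn k : ℕ) = k := by exact_mod_cast up_add_dn k
  have hN : 0 < F k (2 * m + 1) := F_pos (by omega) (by omega)
  have hqu := Q_mul (by omega : 1 ≤ up k) hupm
  have hqv := Q_mul (by omega : 1 ≤ dn k) hdnm
  have hqv0 : 0 < Q (dn k) m :=
    div_pos (F_pos (by omega) hdnm') (F_pos (by omega) hdnm)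
  have hqu0 : 0 ≤ Q (up k) m := Q_nonneg _ _
  have hqu1 : Q (up k) m ≤ 1 := Q_le_one _ _
  have hqv1 : Q (dn k) m ≤ 1 := Q_le_one _ _
  set qu := Q (up k) m with hqu'
  set qv := Q (dn k) m with hqv'
  have hs : 0 < qu + qv := by linarith
  set H := 2 * (qu * qv) / (qu + qv) with hH
  have hHs : H * (qu + qv) = 2 * (qu * qv) := by rw [hH]; field_simp
  have e1 : F k (2 * m) - H * F k (2 * m + 1) =
      2 * F k m - H * (F k (m + 1) + F k m) := by
    rw [F_odd hk2, F_even hk2]
    rw [← hqu, ← hqv]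
    have : H * (om k * (F (up k) (m + 1) * (qv * F (dn k) (m + 1)) +
        F (dn k) (m + 1) * (qu * F (up k) (m + 1)))) =
        om k * (F (up k) (m + 1) * F (dn k) (m + 1)) * (H * (qu + qv)) := by ring
    rw [mul_add H, this, hHs]
    ring
  have e2 : Q k (2 * m) - H = (2 * F k m - H * (F k (m + 1) + F k m)) / F k (2 * m + 1) := by
    rw [← e1, sub_div, mul_div_cancel_right₀ _ hN.ne']
    rfl
  rw [e2]
  unfold eo
  by_cases hm : m + 1 < k
  · rw [if_pos hm, F_eq_zero hm, F_eq_zero (show m < k by omega)]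
    simp
  rw [if_neg hm]
  have hmk : k ≤ m + 1 := by omega
  have hp : (0 : ℝ) < (m : ℝ) + 1 := by positivity
  have hkr : (4 : ℝ) ≤ k := by exact_mod_cast hk
  have hmkr : (k : ℝ) ≤ m + 1 := by exact_mod_cast hmk
  have hY := F_pos (by omega : 1 ≤ k) hmk
  have hX := F_nonneg k m
  have L0 := bound_L m k hk2
  have U0 := bound_U m k (by omega)
  have Lu := Q_upper hup hupm
  have Lv := Q_upper hdn hdnm
  have Uu := Q_lower (by omega : 1 ≤ up k) hupm
  have Uv := Q_lower (by omega : 1 ≤ dn k) hdnm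
  rw [← hqu'] at Lu Uu
  rw [← hqv'] at Lv Uv
  have hC := C2_odd (by omega : 1 ≤ k) m
  set P : ℝ := (m : ℝ) + 1 with hP
  -- upper bound for `H`
  have hH1 : P * H ≤ P - (k + 2) / 3 := by
    have h1 : H ≤ (qu + qv) / 2 := by
      rw [hH, div_le_iff₀ hs]
      nlinarith [sq_nonneg (qu - qv)]
    have : qu + qv ≤ 2 - ((2 * k + 4) / 3) / P := by
      have : ((2 * (up k : ℕ) + 2) / 3 : ℝ) / P + ((2 * (dn k : ℕ) + 2) / 3 : ℝ) / P
          = ((2 * k + 4) / 3) / P := by
        rw [← hud]; ring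
      linarith
    have h3 := mul_le_mul_of_nonneg_left this hp.le
    have h4 : P * (2 - ((2 * k + 4) / 3) / P) = 2 * P - (2 * k + 4) / 3 := by
      field_simp
    have h5 := mul_le_mul_of_nonneg_left h1 hp.le
    linarith
  have hH0 : 0 ≤ H := by rw [hH]; positivity
  have hHlt : H ≤ 1 := by
    rw [hH, div_le_one hs]
    nlinarith
  -- lower bound for `H`
  have hupr : ((up k : ℕ) : ℝ) ≤ (k + 1) / 2 := by
    have : 2 * up k ≤ k + 1 := by unfold up; omega
    have : 2 * ((up k : ℕ) : ℝ) ≤ k + 1 := by exact_mod_cast this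
    linarith
  have hdnr : ((dn k : ℕ) : ℝ) ≤ k / 2 := by
    have : 2 * dn k ≤ k := by unfold dn; omega
    have : 2 * ((dn k : ℕ) : ℝ) ≤ k := by exact_mod_cast this
    linarith
  have h2P : 0 < 2 * P - k := by linarith
  have hH2 : 2 * ((P - (up k : ℕ)) * (P - (dn k : ℕ))) ≤ H * (P * (2 * P - k)) := by
    have a1 : 0 < P - (up k : ℕ) := by linarith
    have a2 : 0 < P - (dn k : ℕ) := by linarith
    have b1 : P - (up k : ℕ) ≤ P * qu := by
      have := mul_le_mul_of_nonneg_left Uu hp.le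
      have h4 : P * (1 - ((up k : ℕ) : ℝ) / P) = P - (up k : ℕ) := by field_simp
      linarith
    have b2 : P - (dn k : ℕ) ≤ P * qv := by
      have := mul_le_mul_of_nonneg_left Uv hp.le
      have h4 : P * (1 - ((dn k : ℕ) : ℝ) / P) = P - (dn k : ℕ) := by field_simp
      linarith
    -- `H (x + y) = 2 x y` with `x ≥ a`, `y ≥ b`
    have h2k : 2 * P - k = (P - (up k : ℕ)) + (P - (dn k : ℕ)) := by rw [← hud]; ring
    rw [h2k]
    have hqu0' : 0 < qu := by
      have : 0 < P * qu := lt_of_lt_of_le a1 b1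
      exact (pos_iff_pos_of_mul_pos this).1 hp
    -- multiply by `(qu + qv)`
    have key : (2 * ((P - (up k : ℕ)) * (P - (dn k : ℕ)))) * (qu + qv) ≤
        (2 * (qu * qv)) * (P * ((P - (up k : ℕ)) + (P - (dn k : ℕ)))) := by
      have c1 := mul_le_mul_of_nonneg_left b1 (mul_nonneg a2.le hqv0.le)
      have c2 := mul_le_mul_of_nonneg_left b2 (mul_nonneg a1.le hqu0)
      nlinarith
    rw [← hHs] at key
    have key2 : (qu + qv) * (2 * ((P - (up k : ℕ)) * (P - (dn k : ℕ)))) ≤
        (qu + qv) * (H * (P * ((P - (up k : ℕ)) + (P - (dn k : ℕ))))) := by linarith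
    exact le_of_mul_le_mul_left key2 hs
  have huv : 2 * (((up k : ℕ) : ℝ) * (dn k : ℕ)) ≥ (k ^ 2 - 1) / 2 := by
    have : (((up k : ℕ) : ℝ) - (dn k : ℕ)) ^ 2 ≤ 1 := by
      have h1 : up k = dn k ∨ up k = dn k + 1 := by unfold up dn; omega
      rcases h1 with h1 | h1 <;> rw [h1] <;> push_cast <;> norm_num
    nlinarith
  -- a uniform statement: `|numerator| ≤ κ (Y + X) / P`
  obtain ⟨κ, hκ, hκ0, hnum⟩ : ∃ κ : ℝ, (if m + 1 < 2 * k then
      ((2 : ℝ) * k - 2) / (3 * 2 ^ (k - 1)) / P else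
      ((k : ℝ) - 2) / (3 * 2 ^ (k - 1)) / P) = κ / 2 ^ (k - 1) / P ∧ 0 ≤ κ ∧
      |2 * F k m - H * (F k (m + 1) + F k m)| ≤ κ * (F k (m + 1) + F k m) / P := by
    -- upper bound of the numerator, valid in both cases
    have hub : P * (2 * F k m - H * (F k (m + 1) + F k m)) ≤
        (k - 2) / 3 * (F k (m + 1) + F k m) := by
      -- `2 X ≤ (Y + X) (1 - c / (2P))`
      have d1 : P * (2 * F k m) ≤ (P - (k + 1) / 3) * (F k (m + 1) + F k m) := by
        have hle : F k m ≤ F k (m + 1) := F_mono_succ m k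
        nlinarith
      -- `H ≥ 1 - (k/(2P) + 1/(2P(2P-k)))`
      have d2 : P - k / 2 - 1 / (2 * (2 * P - k)) ≤ P * H := by
        have : (P - k / 2 - 1 / (2 * (2 * P - k))) * (2 * P - k) ≤ P * H * (2 * P - k) := by
          have : (P - k / 2 - 1 / (2 * (2 * P - k))) * (2 * P - k) =
              (P - k / 2) * (2 * P - k) - 1 / 2 := by
            have hne : 2 * P - (k : ℝ) ≠ 0 := h2P.ne'
            rw [sub_mul]
            congr 1
            rw [one_div, mul_inv, mul_assoc, inv_mul_cancel₀ hne]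
            norm_num
          rw [this]
          nlinarith
        exact le_of_mul_le_mul_right this h2P
      have d3 : 1 / (2 * (2 * P - k)) ≤ 1 / (2 * 4) := by
        apply one_div_le_one_div_of_le (by norm_num)
        linarith
      have hYX : 0 ≤ F k (m + 1) + F k m := by linarith
      have d4 := mul_le_mul_of_nonneg_right (show P - k / 2 - 1 / (2 * 4) ≤ P * H by linarith) hYX
      nlinarith
    have hlow : ∀ κ : ℝ, (k : ℝ) * P ≤ (κ + (k + 2) / 3) * (2 * P - k) →
        -(κ * (F k (m + 1) + F k m)) ≤ P * (2 * F k m - H * (F k (m + 1) + F k m)) := by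
      intro κ hκ
      have hYX : 0 ≤ F k (m + 1) + F k m := by linarith
      have d4 := mul_le_mul_of_nonneg_right hH1 hYX
      -- `2 X (2P - k) ≥ (Y + X) (2P - 2k)`
      have d5 : (2 * P - 2 * k) * (F k (m + 1) + F k m) ≤ (2 * P - k) * (2 * F k m) := by
        nlinarith
      have d6 : (2 * P - k) * (-(κ * (F k (m + 1) + F k m))) ≤
          (2 * P - k) * (P * (2 * F k m - H * (F k (m + 1) + F k m))) := by
        have d7 := mul_le_mul_of_nonneg_left d4 h2P.le
        have d8 := mul_le_mul_of_nonneg_left d5 hp.le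
        have d9 := mul_le_mul_of_nonneg_right hκ hYX
        nlinarith
      exact le_of_mul_le_mul_left d6 h2P
    split_ifs with h2k
    · refine ⟨(2 * k - 2) / 3, by field_simp, by linarith, ?_⟩
      rw [le_div_iff₀ hp, ← abs_of_pos hp, ← abs_mul, abs_le]
      have hYX : 0 ≤ F k (m + 1) + F k m := by linarith
      constructor
      · have := hlow ((2 * k - 2) / 3) (by nlinarith)
        linarith
      · have : (k - 2) / 3 * (F k (m + 1) + F k m) ≤ (2 * k - 2) / 3 * (F k (m + 1) + F k m) :=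
          mul_le_mul_of_nonneg_right (by linarith) hYX
        linarith
    · refine ⟨(k - 2) / 3, by field_simp, by linarith, ?_⟩
      have h2k' : 2 * (k : ℝ) ≤ P := by
        have : 2 * k ≤ m + 1 := by omega
        rw [hP]
        exact_mod_cast this
      rw [le_div_iff₀ hp, ← abs_of_pos hp, ← abs_mul, abs_le]
      constructor
      · have := hlow ((k - 2) / 3) (by nlinarith)
        linarith
      · linarith
  rw [hκ, abs_div, abs_of_pos hN]
  have hYX : 0 < F k (m + 1) + F k m := by linarith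
  have hpow : (0 : ℝ) < 2 ^ (k - 1) := by positivity
  calc |2 * F k m - H * (F k (m + 1) + F k m)| / F k (2 * m + 1)
      ≤ (κ * (F k (m + 1) + F k m) / P) / (2 ^ (k - 1) * (F k (m + 1) + F k m)) := by
        refine div_le_div₀ ?_ hnum (by positivity) hC
        positivity
    _ = κ / 2 ^ (k - 1) / P := by
        field_simp

end Pool.Agent.H132R3
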