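import Pool.Agent.H132R3.EvenM

set_option autoImplicit false

/-!
# The quotients `f_{k+1}(n) / f_k(n)` are nondecreasing in `n`: the induction
-/

namespace Pool.Agent.H132R3

theorem Q_two {n : ℕ} (hn : 1 ≤ n) : Q 2 n = ((n : ℝ) - 1) / (n + 1) := by
  unfold Q
  rw [F_two, F_two]
  have h1 : (n : ℝ) ≠ 0 := by
    have : (1 : ℝ) ≤ n := by exact_mod_cast hn
    linarith
  have h2 : (n : ℝ) + 1 ≠ 0 := by positivity
  push_cast
  rw [show (n : ℝ) + 1 - 1 = n by ring]
  field_simp

theorem Q_three {n : ℕ} (hn : 2 ≤ n) : Q 3 n = ((n : ℝ) - 2) / (n + 1) := by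
  unfold Q
  rw [F_three, F_three]
  have hn' : (2 : ℝ) ≤ n := by exact_mod_cast hn
  have h1 : (n : ℝ) ≠ 0 := by linarith
  have h2 : (n : ℝ) + 1 ≠ 0 := by positivity
  have h3 : (n : ℝ) - 1 ≠ 0 := by
    have : (0 : ℝ) < (n : ℝ) - 1 := by linarith
    exact this.ne'
  push_cast
  rw [show (n : ℝ) + 1 - 1 = n by ring, show (n : ℝ) + 1 - 2 = n - 1 by ring]
  field_simp

theorem pow1 {k : ℕ} (hk : 4 ≤ k) : (k : ℝ) * (3 * k - 5) ≤ 7 / 4 * 2 ^ k := by
  induction k, hk using Nat.le_induction with
  | base => norm_num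
  | succ k hk ih =>
    have h4 : (4 : ℝ) ≤ k := by exact_mod_cast hk
    rw [pow_succ]
    push_cast
    nlinarith

theorem pow2 {k : ℕ} (hk : 8 ≤ k) : 4 * (k : ℝ) * (3 * k - 2) ≤ 3 * 2 ^ k := by
  induction k, hk using Nat.le_induction with
  | base => norm_num
  | succ k hk ih =>
    have h4 : (8 : ℝ) ≤ k := by exact_mod_cast hk
    rw [pow_succ]
    push_cast
    nlinarith

theorem pow3 {k : ℕ} (hk : 9 ≤ k) : 18 * (k : ℝ) * (3 * k - 2) ≤ 12 * 2 ^ k := by
  induction k, hk using Nat.le_induction with
  | base => norm_num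
  | succ k hk ih =>
    have h4 : (9 : ℝ) ≤ k := by exact_mod_cast hk
    rw [pow_succ]
    push_cast
    nlinarith

theorem ee_bound {k m : ℕ} (hk : 4 ≤ k) :
    0 ≤ ee k m ∧ ((m : ℝ) + 1) * ee k m ≤ (k - 2) / (3 * 2 ^ k) := by
  have hkr : (4 : ℝ) ≤ k := by exact_mod_cast hk
  have h2 : (0 : ℝ) ≤ k - 2 := by linarith
  have hp : (0 : ℝ) < (m : ℝ) + 1 := by positivity
  unfold ee
  split_ifs with h
  · refine ⟨le_rfl, ?_⟩
    rw [mul_zero]; positivity
  · refine ⟨by positivity, ?_⟩
    rw [mul_div_cancel₀ _ hp.ne']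

theorem eo_bound {k m : ℕ} (hk : 4 ≤ k) :
    0 ≤ eo k m ∧ ((m : ℝ) + 1) * eo k m ≤ (2 * k - 2) / (3 * 2 ^ (k - 1)) := by
  have hkr : (4 : ℝ) ≤ k := by exact_mod_cast hk
  have h2 : (0 : ℝ) ≤ k - 2 := by linarith
  have h2' : (0 : ℝ) ≤ 2 * k - 2 := by linarith
  have hp : (0 : ℝ) < (m : ℝ) + 1 := by positivity
  unfold eo
  split_ifs with h h'
  · refine ⟨le_rfl, ?_⟩
    rw [mul_zero]; positivity
  · refine ⟨by positivity, ?_⟩
    rw [mul_div_cancel₀ _ hp.ne']
  · refine ⟨by positivity, ?_⟩
    rw [mul_div_cancel₀ _ hp.ne']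
    gcongr
    linarith

theorem eo_bound' {k m : ℕ} (hk : 4 ≤ k) (h : 2 * k ≤ m + 1) :
    ((m : ℝ) + 1) * eo k m ≤ (k - 2) / (3 * 2 ^ (k - 1)) := by
  have hp : (0 : ℝ) < (m : ℝ) + 1 := by positivity
  unfold eo
  rw [if_neg (by omega), if_neg (by omega), mul_div_cancel₀ _ hp.ne']

/-- the algebra of the even step -/
theorem step_even {k s m q1 q2 x y xh yh e1 e2 : ℝ} (hk : 2 * s ≤ k) (hs : 0 < s) (hm : 0 < m)
    (hk2 : 2 ≤ k) (hIH : 2 * q1 ≤ s * m * (q1 - q2)) (hq1 : 0 ≤ q1)
    (hx : |x - xh| ≤ e1) (hy : |y - yh| ≤ e2) (hxh : xh ≤ q1) (hxy : xh - yh = (q1 - q2) / 2)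
    (he : k * (m + 1) * (e1 + e2) ≤ q1) (_he1 : 0 ≤ e1) (_he2 : 0 ≤ e2) :
    2 * x ≤ k * (2 * m + 1) * (x - y) := by
  rw [abs_le] at hx hy
  have hqq : 0 ≤ q1 - q2 := by
    by_contra h
    push Not at h
    have : s * m * (q1 - q2) < 0 := mul_neg_of_pos_of_neg (mul_pos hs hm) h
    linarith
  have h1 : (q1 - q2) / 2 - (e1 + e2) ≤ x - y := by linarith [hx.1, hy.2]
  have hkm : 0 ≤ k * (2 * m + 1) := by positivity
  have h2 := mul_le_mul_of_nonneg_left h1 hkm
  have h3 : 4 * q1 ≤ k * (2 * m + 1) * ((q1 - q2) / 2) := by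
    have a1 : 2 * s * (2 * m) ≤ k * (2 * m + 1) := by
      have := mul_le_mul hk (show 2 * m ≤ 2 * m + 1 by linarith) (by positivity) (by linarith)
      linarith
    have := mul_le_mul_of_nonneg_right a1 (show 0 ≤ (q1 - q2) / 2 by linarith)
    nlinarith
  have h4 : 2 * x ≤ 2 * q1 + 2 * e1 := by linarith [hx.2]
  have h5 : 2 * e1 ≤ k * (e1 + e2) := by nlinarith
  nlinarith

/-- the algebra of the odd step -/
theorem step_odd {k m x y xh yh e1 e2 : ℝ} (hk2 : 2 ≤ k) (hm : 0 < m)
    (hxy : 2 * xh ≤ k * m * (xh - yh))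
    (hx : |x - xh| ≤ e1) (hy : |y - yh| ≤ e2)
    (he : k * (m + 1) * (e1 + e2) ≤ xh) (_he1 : 0 ≤ e1) (_he2 : 0 ≤ e2) :
    2 * x ≤ k * (2 * m) * (x - y) := by
  rw [abs_le] at hx hy
  have h1 : (xh - yh) - (e1 + e2) ≤ x - y := by linarith [hx.1, hy.2]
  have hkm : 0 ≤ k * m := by positivity
  have h2 := mul_le_mul_of_nonneg_left h1 hkm
  have h4 : x ≤ xh + e1 := by linarith [hx.2]
  have h5 : e1 ≤ k * (e1 + e2) := by nlinarith
  nlinarith

/-- `k (n-1) Ψ_k(n) ≥ 2` -/
theorem M_Q (n : ℕ) : ∀ k : ℕ, 2 ≤ k → k ≤ n →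
    2 * Q k n ≤ k * n * (Q k n - Q (k + 1) n) := by
  induction n using Nat.strong_induction_on with
  | _ n ih =>
    intro k hk hkn
    have hkr : (2 : ℝ) ≤ k := by exact_mod_cast hk
    have hknr : (k : ℝ) ≤ n := by exact_mod_cast hkn
    rcases Nat.eq_or_lt_of_le hkn with h1 | h1
    · subst h1
      have : Q (k + 1) k = 0 := by
        unfold Q
        rw [F_eq_zero (Nat.lt_succ_self k), zero_div]
      rw [this, sub_zero]
      have h3 : (2 : ℝ) ≤ k * k := by nlinarith
      exact mul_le_mul_of_nonneg_right h3 (Q_nonneg _ _)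
    by_cases hk2 : k = 2
    · subst hk2
      rw [Q_two (by omega), Q_three (by omega)]
      have hn : (2 : ℝ) ≤ n := by exact_mod_cast hkn
      have hp : (0 : ℝ) < (n : ℝ) + 1 := by positivity
      have key : 2 * (((n : ℝ) - 1) / (n + 1)) ≤
          2 * n * (((n : ℝ) - 1) / (n + 1) - ((n : ℝ) - 2) / (n + 1)) := by
        have e : 2 * (n : ℝ) * (((n : ℝ) - 1) / (n + 1) - ((n : ℝ) - 2) / (n + 1)) =
            (2 * n) / (n + 1) := by
          field_simp
          ring
        rw [e, ← mul_div_assoc]
        gcongr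
        linarith
      rw [Nat.cast_ofNat]
      exact key
    have hk3 : 3 ≤ k := by omega
    by_cases hfin : k ≤ 7 ∧ n ≤ 30
    · have h := fin_check k n hk3 hfin.1 hfin.2
      have p1 := F_pos (by omega : 1 ≤ k) (by omega : k ≤ n + 1)
      have p2 := F_pos (by omega : 1 ≤ k + 1) (by omega : k + 1 ≤ n + 1)
      have q1 := Q_mul (by omega : 1 ≤ k) (by omega : k ≤ n + 1)
      have q2 := Q_mul (by omega : 1 ≤ k + 1) (by omega : k + 1 ≤ n + 1)
      rw [← q1, ← q2] at h
      have hpp := mul_pos p1 p2
      refine le_of_mul_le_mul_right ?_ hpp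
      nlinarith
    have hn31 : k ≤ 7 → 31 ≤ n := by
      intro h
      by_contra h'
      exact hfin ⟨h, by omega⟩
    by_cases hk3' : k = 3
    · subst hk3'
      have hn := hn31 (by norm_num)
      rcases Nat.even_or_odd' n with ⟨m, rfl | rfl⟩
      · -- `n = 2 m`
        have hm : 15 ≤ m := by omega
        have hmr : (15 : ℝ) ≤ m := by exact_mod_cast hm
        have hc := odd_close (k := 4) (m := m) le_rfl (by omega)
        have hu : up 4 = 2 := rfl
        have hd : dn 4 = 2 := rfl
        rw [hu, hd, Q_two (by omega)] at hc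
        have he := eo_bound' (k := 4) (m := m) le_rfl (by omega)
        set q : ℝ := ((m : ℝ) - 1) / (m + 1) with hq
        have hq0 : 0 < q := by rw [hq]; apply div_pos <;> linarith
        have e2 : 2 * (q * q) / (q + q) = q := by field_simp; ring
        rw [e2, abs_le] at hc
        have hp : (0 : ℝ) < (m : ℝ) + 1 := by positivity
        have he' : eo 4 m ≤ 1 / (12 * (m + 1)) := by
          rw [le_div_iff₀ (by positivity)]
          norm_num at he
          linarith
        have h4 : Q 4 (2 * m) ≤ q + 1 / (12 * (m + 1)) := by linarith [hc.2]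
        have h3 : Q 3 (2 * m) = ((2 * m : ℝ) - 2) / (2 * m + 1) := by
          rw [Q_three (by omega)]; push_cast; rfl
        rw [show (3 + 1 : ℕ) = 4 by rfl] at *
        rw [h3]
        push_cast
        have h2m : (0 : ℝ) < 2 * m + 1 := by positivity
        have key : 2 * (((2 * m : ℝ) - 2) / (2 * m + 1)) ≤
            3 * (2 * m) * (((2 * m : ℝ) - 2) / (2 * m + 1) - (q + 1 / (12 * (m + 1)))) := by
          rw [hq]
          rw [← sub_nonneg]
          have : 3 * (2 * (m : ℝ)) * ((2 * ↑m - 2) / (2 * ↑m + 1) -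
              ((↑m - 1) / (↑m + 1) + 1 / (12 * (↑m + 1)))) - 2 * ((2 * ↑m - 2) / (2 * ↑m + 1)) =
              (m * (10 * m - 13) - 8 * (m - 1) * (m + 1)) / (2 * ((m + 1) * (2 * m + 1))) := by
            field_simp
            ring
          rw [this]
          apply div_nonneg _ (by positivity)
          nlinarith
        refine key.trans ?_
        apply mul_le_mul_of_nonneg_left _ (by positivity)
        linarith
      · -- `n = 2 m + 1`
        have hm : 15 ≤ m := by omega
        have hmr : (15 : ℝ) ≤ m := by exact_mod_cast hm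
        have hc := even_close (k := 4) (m := m) le_rfl (by omega)
        have hu : up 4 = 2 := rfl
        have hd : dn 4 = 2 := rfl
        rw [hu, hd, Q_two (by omega)] at hc
        have he := (ee_bound (k := 4) (m := m) le_rfl).2
        set q : ℝ := ((m : ℝ) - 1) / (m + 1) with hq
        rw [abs_le] at hc
        have hp : (0 : ℝ) < (m : ℝ) + 1 := by positivity
        have he' : ee 4 m ≤ 1 / (24 * (m + 1)) := by
          rw [le_div_iff₀ (by positivity)]
          norm_num at he
          linarith
        have h4 : Q 4 (2 * m + 1) ≤ q + 1 / (24 * (m + 1)) := by linarith [hc.2]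
        have h3 : Q 3 (2 * m + 1) = ((2 * m : ℝ) - 1) / (2 * m + 2) := by
          rw [Q_three (by omega)]; push_cast; ring_nf
        rw [show (3 + 1 : ℕ) = 4 by rfl] at *
        rw [h3]
        push_cast
        have key : 2 * (((2 * m : ℝ) - 1) / (2 * m + 2)) ≤
            3 * (2 * m + 1) * (((2 * m : ℝ) - 1) / (2 * m + 2) - (q + 1 / (24 * (m + 1)))) := by
          rw [hq]
          rw [← sub_nonneg]
          have : 3 * (2 * (m : ℝ) + 1) * ((2 * ↑m - 1) / (2 * ↑m + 2) -
              ((↑m - 1) / (↑m + 1) + 1 / (24 * (↑m + 1)))) - 2 * ((2 * ↑m - 1) / (2 * ↑m + 2)) =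
              (33 * (2 * m + 1) - 24 * (2 * m - 1)) / (24 * (m + 1)) := by
            field_simp
            ring
          rw [this]
          apply div_nonneg _ (by positivity)
          nlinarith
        refine key.trans ?_
        apply mul_le_mul_of_nonneg_left _ (by positivity)
        linarith
    have hk4 : 4 ≤ k := by omega
    have hkr4 : (4 : ℝ) ≤ k := by exact_mod_cast hk4
    obtain ⟨s, hs⟩ : ∃ s, k = 2 * s ∨ k = 2 * s + 1 := Nat.even_or_odd' k
    have hs2 : 2 ≤ s := by omega
    have hsr : (2 : ℝ) ≤ s := by exact_mod_cast hs2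
    have hsk : 2 * (s : ℝ) ≤ k := by
      have : 2 * s ≤ k := by omega
      exact_mod_cast this
    have hpow : (0 : ℝ) < 2 ^ k := by positivity
    have hpow' : (2 : ℝ) ^ k = 2 * 2 ^ (k - 1) := by
      rw [← pow_succ']; congr 1; omega
    have hpow'' : (2 : ℝ) ^ (k + 1) = 2 * 2 ^ k := by rw [pow_succ]; ring
    rcases Nat.even_or_odd' n with ⟨m, rfl | rfl⟩
    · -- `n = 2 m`
      have hsm : s ≤ m := by omega
      have hm0 : 1 ≤ m := by omega
      have hmr : (1 : ℝ) ≤ m := by exact_mod_cast hm0
      have hsmr : (s : ℝ) ≤ m := by exact_mod_cast hsm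
      have IH := ih m (by omega) s hs2 hsm
      set q1 := Q s m with hq1
      set q2 := Q (s + 1) m with hq2
      have hq1p : 0 < q1 := div_pos (F_pos (by omega) hsm) (F_pos (by omega) (by omega))
      have hq20 : 0 ≤ q2 := Q_nonneg _ _
      have hqq : q2 ≤ q1 := by
        by_contra h
        push Not at h
        have h5 : (s : ℝ) * m * (q1 - q2) < 0 :=
          mul_neg_of_pos_of_neg (by positivity) (by linarith)
        linarith
      have c1 := odd_close (k := k) (m := m) hk4 (by omega)
      have c2 := odd_close (k := k + 1) (m := m) (by omega) (by omega)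
      obtain ⟨e1n, e1b⟩ := eo_bound (k := k) (m := m) hk4
      obtain ⟨e2n, e2b⟩ := eo_bound (k := k + 1) (m := m) (by omega)
      set e1 := eo k m with he1
      set e2 := eo (k + 1) m with he2
      have hsum : 0 < q1 + q2 := by linarith
      set H := 2 * (q1 * q2) / (q1 + q2) with hH
      have hHs : H * (q1 + q2) = 2 * (q1 * q2) := by rw [hH]; field_simp
      have hH0 : 0 ≤ H := by rw [hH]; positivity
      have hHq2 : q2 ≤ H := by
        rw [hH, le_div_iff₀ hsum]
        nlinarith
      have hqq1 : 2 * (q1 * q1) / (q1 + q1) = q1 := by field_simp; ring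
      have hqq2 : 2 * (q2 * q2) / (q2 + q2) = q2 := by
        rcases eq_or_lt_of_le hq20 with h | h
        · rw [← h]; simp
        · field_simp; ring
      -- error bound
      have herr : ∀ xh : ℝ, 0 ≤ xh → (k ≤ m + 1 → 1 - ((s : ℝ) + (k - 2 * s)) / (m + 1) ≤ xh) →
          (k : ℝ) * (m + 1) * (e1 + e2) ≤ xh := by
        intro xh hx0 hx
        rcases Nat.lt_or_ge (m + 1) k with h5 | h5
        · have z1 : e1 = 0 := by rw [he1]; unfold eo; rw [if_pos h5]
          have z2 : e2 = 0 := by rw [he2]; unfold eo; rw [if_pos (by omega)]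
          rw [z1, z2]; simpa using hx0
        have hx1 := hx h5
        have h5r : (k : ℝ) ≤ m + 1 := by exact_mod_cast h5
        have hm1 : (0 : ℝ) < (m : ℝ) + 1 := by positivity
        rcases Nat.lt_or_ge (m + 1) (2 * (k + 1)) with h6 | h6
        · -- crude bound, `k ≥ 8`
          have hk8 : 8 ≤ k := by
            by_contra h7
            have := hn31 (by omega)
            omega
          have hk8r : (8 : ℝ) ≤ k := by exact_mod_cast hk8
          rw [show k + 1 - 1 = k by omega] at e2b
          have b1 : (k : ℝ) * (m + 1) * (e1 + e2) ≤ 2 * k * (3 * k - 2) / (3 * 2 ^ k) := by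
            have a1 : (2 * (k : ℝ) - 2) / (3 * 2 ^ (k - 1)) = 2 * (2 * k - 2) / (3 * 2 ^ k) := by
              rw [hpow']; field_simp
            rw [a1] at e1b
            have := mul_le_mul_of_nonneg_left (add_le_add e1b e2b) (show (0 : ℝ) ≤ k by linarith)
            have a2 : (k : ℝ) * (2 * (2 * k - 2) / (3 * 2 ^ k) +
                (2 * ((k + 1 : ℕ) : ℝ) - 2) / (3 * 2 ^ k)) =
                2 * k * (3 * k - 2) / (3 * 2 ^ k) := by
              push_cast; ring
            rw [a2] at this
            linarith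
          refine b1.trans (le_trans ?_ hx1)
          rcases hs with hs | hs
          · have hsr' : (k : ℝ) = 2 * s := by exact_mod_cast hs
            have a3 : 2 * (k : ℝ) * (3 * k - 2) / (3 * 2 ^ k) ≤ 1 / 2 := by
              rw [div_le_iff₀ (by positivity)]
              linarith [pow2 hk8]
            have a4 : ((s : ℝ) + (k - 2 * s)) / (m + 1) ≤ 1 / 2 := by
              rw [div_le_iff₀ hm1]; linarith
            linarith
          · have hsr' : (k : ℝ) = 2 * s + 1 := by exact_mod_cast hs
            have hk9 : 9 ≤ k := by omega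
            have hk9r : (9 : ℝ) ≤ k := by exact_mod_cast hk9
            have a3 : 2 * (k : ℝ) * (3 * k - 2) / (3 * 2 ^ k) ≤ 4 / 9 := by
              rw [div_le_iff₀ (by positivity)]
              linarith [pow3 hk9]
            have a4 : ((s : ℝ) + (k - 2 * s)) / (m + 1) ≤ 5 / 9 := by
              rw [div_le_iff₀ hm1]; linarith
            linarith
        · -- refined bound
          have b1 := eo_bound' (k := k) (m := m) hk4 (by omega)
          have b2 := eo_bound' (k := k + 1) (m := m) (by omega) h6
          rw [← he1] at b1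
          rw [← he2, show k + 1 - 1 = k by omega] at b2
          have h6r : 2 * ((k : ℝ) + 1) ≤ m + 1 := by exact_mod_cast h6
          have b3 : (k : ℝ) * (m + 1) * (e1 + e2) ≤ k * (3 * k - 5) / (3 * 2 ^ k) := by
            have a1 : ((k : ℝ) - 2) / (3 * 2 ^ (k - 1)) = 2 * (k - 2) / (3 * 2 ^ k) := by
              rw [hpow']; field_simp
            rw [a1] at b1
            have := mul_le_mul_of_nonneg_left (add_le_add b1 b2) (show (0 : ℝ) ≤ k by linarith)
            have a2 : (k : ℝ) * (2 * (k - 2) / (3 * 2 ^ k) +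
                (((k + 1 : ℕ) : ℝ) - 2) / (3 * 2 ^ k)) =
                k * (3 * k - 5) / (3 * 2 ^ k) := by
              push_cast; ring
            rw [a2] at this
            linarith
          refine b3.trans (le_trans ?_ hx1)
          have a3 : (k : ℝ) * (3 * k - 5) / (3 * 2 ^ k) ≤ 7 / 12 := by
            rw [div_le_iff₀ (by positivity)]
            linarith [pow1 hk4]
          have a4 : ((s : ℝ) + (k - 2 * s)) / (m + 1) ≤ 5 / 12 := by
            rw [div_le_iff₀ hm1]
            rcases hs with hs | hs
            · have hsr' : (k : ℝ) = 2 * s := by exact_mod_cast hs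
              linarith
            · have hsr' : (k : ℝ) = 2 * s + 1 := by exact_mod_cast hs
              linarith
          linarith
      push_cast
      rcases hs with hs | hs
      · have u1 : up k = s := by unfold up; omega
        have d1 : dn k = s := by unfold dn; omega
        have u2 : up (k + 1) = s + 1 := by unfold up; omega
        have d2 : dn (k + 1) = s := by unfold dn; omega
        have hsr' : (k : ℝ) = 2 * s := by exact_mod_cast hs
        rw [u1, d1, ← hq1, hqq1] at c1
        rw [u2, d2, ← hq1, ← hq2, mul_comm q2 q1, add_comm q2 q1, ← hH] at c2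
        refine step_odd (by linarith) (by linarith) ?_ c1 c2
          (herr q1 hq1p.le ?_) e1n e2n
        · -- `2 q1 ≤ k m (q1 - H)`
          have h6 : (q1 - q2) / 2 ≤ q1 - H := by
            have : H ≤ (q1 + q2) / 2 := by
              rw [hH, div_le_iff₀ hsum]
              nlinarith [sq_nonneg (q1 - q2)]
            linarith
          have h7 := mul_le_mul_of_nonneg_left h6 (show (0 : ℝ) ≤ k * m by positivity)
          rw [hsr'] at h7 ⊢
          nlinarith
        · intro h5
          have := Q_lower (k := s) (n := m) (by omega) (by omega)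
          rw [hsr', show (s : ℝ) + (2 * s - 2 * s) = s by ring]
          exact this
      · have u1 : up k = s + 1 := by unfold up; omega
        have d1 : dn k = s := by unfold dn; omega
        have u2 : up (k + 1) = s + 1 := by unfold up; omega
        have d2 : dn (k + 1) = s + 1 := by unfold dn; omega
        have hsr' : (k : ℝ) = 2 * s + 1 := by exact_mod_cast hs
        rw [u1, d1, ← hq1, ← hq2, mul_comm q2 q1, add_comm q2 q1, ← hH] at c1
        rw [u2, d2, ← hq2, hqq2] at c2
        refine step_odd (by linarith) (by linarith) ?_ c1 c2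
          (herr H hH0 ?_) e1n e2n
        · -- `2 H ≤ k m (H - q2)`
          have h6 : (H - q2) * (2 * q1) = H * (q1 - q2) := by
            have : q2 * (2 * q1) = H * (q1 + q2) := by rw [hHs]; ring
            linear_combination -this
          have h7 : (2 * H) * (2 * q1) ≤ (k * m * (H - q2)) * (2 * q1) := by
            have : (k * m * (H - q2)) * (2 * q1) = k * m * (H * (q1 - q2)) := by
              rw [← h6]; ring
            rw [this]
            have h8 := mul_le_mul_of_nonneg_left IH hH0
            have h9 : 0 ≤ m * (H * (q1 - q2)) := by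
              have : 0 ≤ q1 - q2 := by linarith
              positivity
            nlinarith
          exact le_of_mul_le_mul_right h7 (by linarith)
        · intro h5
          refine le_trans ?_ hHq2
          have := Q_lower (k := s + 1) (n := m) (by omega) (by omega)
          rw [hsr', show (s : ℝ) + (2 * s + 1 - 2 * s) = s + 1 by ring]
          push_cast at this
          exact this
    · -- `n = 2 m + 1`
      have hsm : s ≤ m := by omega
      have hm0 : 1 ≤ m := by omega
      have hmr : (1 : ℝ) ≤ m := by exact_mod_cast hm0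
      have IH := ih m (by omega) s hs2 hsm
      set q1 := Q s m with hq1
      set q2 := Q (s + 1) m with hq2
      have hq10 : 0 ≤ q1 := Q_nonneg _ _
      have hqq : q2 ≤ q1 := by
        by_contra h
        push Not at h
        have h5 : (s : ℝ) * m * (q1 - q2) < 0 :=
          mul_neg_of_pos_of_neg (by positivity) (by linarith)
        linarith
      have c1 := even_close (k := k) (m := m) hk4 (by omega)
      have c2 := even_close (k := k + 1) (m := m) (by omega) (by omega)
      obtain ⟨e1n, e1b⟩ := ee_bound (k := k) (m := m) hk4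
      obtain ⟨e2n, e2b⟩ := ee_bound (k := k + 1) (m := m) (by omega)
      set e1 := ee k m with he1
      set e2 := ee (k + 1) m with he2
      have herr : (k : ℝ) * (m + 1) * (e1 + e2) ≤ q1 := by
        rcases Nat.lt_or_ge (m + 1) k with h5 | h5
        · have z1 : e1 = 0 := by rw [he1]; unfold ee; rw [if_pos h5]
          have z2 : e2 = 0 := by rw [he2]; unfold ee; rw [if_pos (by omega)]
          rw [z1, z2]; simpa using hq10
        have h5r : (k : ℝ) ≤ m + 1 := by exact_mod_cast h5
        have hm1 : (0 : ℝ) < (m : ℝ) + 1 := by positivity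
        have b3 : (k : ℝ) * (m + 1) * (e1 + e2) ≤ k * (3 * k - 5) / (6 * 2 ^ k) := by
          have := mul_le_mul_of_nonneg_left (add_le_add e1b e2b) (show (0 : ℝ) ≤ k by linarith)
          have a2 : (k : ℝ) * ((k - 2) / (3 * 2 ^ k) +
              (((k + 1 : ℕ) : ℝ) - 2) / (3 * 2 ^ (k + 1))) =
              k * (3 * k - 5) / (6 * 2 ^ k) := by
            rw [hpow'']; push_cast; field_simp; ring
          rw [a2] at this
          linarith
        have a3 : (k : ℝ) * (3 * k - 5) / (6 * 2 ^ k) ≤ 1 / 2 := by
          rw [div_le_iff₀ (by positivity)]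
          linarith [pow1 hk4]
        have hql := Q_lower (k := s) (n := m) (by omega) (by omega)
        have a4 : (s : ℝ) / (m + 1) ≤ 1 / 2 := by
          rw [div_le_iff₀ hm1]; linarith
        linarith
      push_cast
      rcases hs with hs | hs
      · have u1 : up k = s := by unfold up; omega
        have d1 : dn k = s := by unfold dn; omega
        have u2 : up (k + 1) = s + 1 := by unfold up; omega
        have d2 : dn (k + 1) = s := by unfold dn; omega
        rw [u1, d1, ← hq1] at c1
        rw [u2, d2, ← hq1, ← hq2] at c2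
        refine step_even (s := s) (q1 := q1) (q2 := q2) hsk (by linarith) (by linarith)
          (by linarith) IH hq10 c1 c2 (by linarith) (by ring) herr e1n e2n
      · have u1 : up k = s + 1 := by unfold up; omega
        have d1 : dn k = s := by unfold dn; omega
        have u2 : up (k + 1) = s + 1 := by unfold up; omega
        have d2 : dn (k + 1) = s + 1 := by unfold dn; omega
        rw [u1, d1, ← hq1, ← hq2] at c1
        rw [u2, d2, ← hq2] at c2
        refine step_even (s := s) (q1 := q1) (q2 := q2) hsk (by linarith) (by linarith)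
          (by linarith) IH hq10 c1 c2 (by linarith) (by ring) herr e1n e2n

end Pool.Agent.H132R3
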