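import Mathlib

set_option autoImplicit false

/-!
# The numbers of copies of even trees in even trees: definition and first estimates
-/

namespace Pool.Agent.H132R3

/-- The recursion with fuel. -/
def g : ℕ → ℕ → ℕ → ℕ
  | 0, _, _ => 0
  | t + 1, k, n =>
    if n ≤ 1 then (if n = 1 ∧ k = 1 then 1 else 0)
    else if k ≤ 1 then (if k = 1 then n else 0)
    else g t k ((n + 1) / 2) + g t k (n / 2) +
      (if k % 2 = 0 then g t (k / 2) ((n + 1) / 2) * g t (k / 2) (n / 2)
        else g t (k / 2 + 1) ((n + 1) / 2) * g t (k / 2) (n / 2) +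
          g t (k / 2) ((n + 1) / 2) * g t (k / 2 + 1) (n / 2))

theorem g_stable (t : ℕ) : ∀ k n s, n ≤ 2 ^ t → t ≤ s → g (t + 1) k n = g (s + 1) k n := by
  induction t with
  | zero =>
    intro k n s hn _
    have hn1 : n ≤ 1 := by simpa using hn
    simp only [g, hn1, if_true]
  | succ t ih =>
    intro k n s hn hs
    obtain ⟨s, rfl⟩ : ∃ s', s = s' + 1 := ⟨s - 1, by omega⟩
    have h2 : 2 ^ (t + 1) = 2 * 2 ^ t := by ring
    have a : (n + 1) / 2 ≤ 2 ^ t := by omega
    have b : n / 2 ≤ 2 ^ t := by omega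
    have hst : t ≤ s := by omega
    conv_lhs => unfold g
    conv_rhs => unfold g
    simp only [ih _ _ s a hst, ih _ _ s b hst]

/-- The number of copies of the even tree with `k` leaves in the even tree with `n` leaves. -/
def f (k n : ℕ) : ℕ := g (n + 1) k n

theorem f_eq_g {t k n : ℕ} (h : n ≤ 2 ^ t) : f k n = g (t + 1) k n := by
  rcases le_total t n with h1 | h1
  · exact (g_stable t k n n h h1).symm
  · exact g_stable n k n t Nat.lt_two_pow_self.le h1

theorem f_of_two_le {k n : ℕ} (hk : 2 ≤ k) (hn : 2 ≤ n) :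
    f k n = f k ((n + 1) / 2) + f k (n / 2) +
      (if k % 2 = 0 then f (k / 2) ((n + 1) / 2) * f (k / 2) (n / 2)
        else f (k / 2 + 1) ((n + 1) / 2) * f (k / 2) (n / 2) +
          f (k / 2) ((n + 1) / 2) * f (k / 2 + 1) (n / 2)) := by
  obtain ⟨m, rfl⟩ : ∃ m, n = m + 1 := ⟨n - 1, by omega⟩
  have h0 : ¬ (m + 1 ≤ 1) := by omega
  have hk0 : ¬ (k ≤ 1) := by omega
  have hf : ∀ j i, i ≤ m → f j i = g (m + 1) j i := fun j i hi =>
    f_eq_g (hi.trans Nat.lt_two_pow_self.le)
  rw [hf k _ (show (m + 1 + 1) / 2 ≤ m by omega), hf k _ (show (m + 1) / 2 ≤ m by omega),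
    hf _ _ (show (m + 1 + 1) / 2 ≤ m by omega), hf (k / 2) _ (show (m + 1) / 2 ≤ m by omega),
    hf _ _ (show (m + 1 + 1) / 2 ≤ m by omega), hf (k / 2 + 1) _ (show (m + 1) / 2 ≤ m by omega)]
  conv_lhs => unfold f
  conv_lhs => unfold g
  rw [if_neg h0, if_neg hk0]

theorem f_zero_right (k : ℕ) : f k 0 = 0 := by simp [f, g]

theorem f_one_right (k : ℕ) : f k 1 = if k = 1 then 1 else 0 := by
  simp [f, g]

theorem f_one (n : ℕ) : f 1 n = n := by
  unfold f g
  by_cases h1 : n ≤ 1
  · have h2 : n = 0 ∨ n = 1 := by omega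
    rcases h2 with rfl | rfl <;> simp
  · rw [if_neg h1, if_pos le_rfl, if_pos rfl]

/-- upper half -/
def up (k : ℕ) : ℕ := (k + 1) / 2

/-- lower half -/
def dn (k : ℕ) : ℕ := k / 2

/-- weight of the product term -/
noncomputable def om (k : ℕ) : ℝ := if k % 2 = 0 then 1 / 2 else 1

/-- `f` as a real number -/
noncomputable def F (k n : ℕ) : ℝ := f k n

theorem F_nonneg (k n : ℕ) : 0 ≤ F k n := Nat.cast_nonneg _

theorem om_pos (k : ℕ) : 0 < om k := by
  unfold om; split_ifs <;> norm_num

theorem F_rec {k : ℕ} (hk : 2 ≤ k) (n : ℕ) :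
    F k n = F k ((n + 1) / 2) + F k (n / 2) +
      om k * (F (up k) ((n + 1) / 2) * F (dn k) (n / 2) +
        F (dn k) ((n + 1) / 2) * F (up k) (n / 2)) := by
  rcases Nat.lt_or_ge n 2 with hn | hn
  · have h1 : n = 0 ∨ n = 1 := by omega
    have hk1 : k ≠ 1 := by omega
    rcases h1 with rfl | rfl
    · simp [F, f_zero_right]
    · simp [F, f_zero_right, f_one_right, hk1]
  · simp only [F, om, up, dn]
    rw [f_of_two_le hk hn]
    by_cases h : k % 2 = 0
    · have e : (k + 1) / 2 = k / 2 := by omega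
      rw [if_pos h, if_pos h, e]
      push_cast
      ring
    · have e : (k + 1) / 2 = k / 2 + 1 := by omega
      rw [if_neg h, if_neg h, e]
      push_cast
      ring

theorem F_even {k : ℕ} (hk : 2 ≤ k) (p : ℕ) :
    F k (2 * p) = 2 * F k p + 2 * om k * (F (up k) p * F (dn k) p) := by
  rw [F_rec hk, show (2 * p + 1) / 2 = p by omega, show (2 * p) / 2 = p by omega]
  ring

theorem F_odd {k : ℕ} (hk : 2 ≤ k) (m : ℕ) :
    F k (2 * m + 1) = F k (m + 1) + F k m +
      om k * (F (up k) (m + 1) * F (dn k) m + F (dn k) (m + 1) * F (up k) m) := by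
  rw [F_rec hk, show (2 * m + 1 + 1) / 2 = m + 1 by omega, show (2 * m + 1) / 2 = m by omega]

theorem F_zero (k : ℕ) : F k 0 = 0 := by simp [F, f_zero_right]

theorem F_one (n : ℕ) : F 1 n = n := by simp [F, f_one]

theorem up_add_dn (k : ℕ) : up k + dn k = k := by unfold up dn; omega

theorem F_two (n : ℕ) : F 2 n = n * (n - 1) / 2 := by
  induction n using Nat.strong_induction_on with
  | _ n ih =>
    rcases Nat.lt_or_ge n 2 with hn | hn
    · have h1 : n = 0 ∨ n = 1 := by omega
      rcases h1 with rfl | rfl <;> simp [F, f_zero_right, f_one_right]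
    · have hu : up 2 = 1 := rfl
      have hd : dn 2 = 1 := rfl
      have ho : om 2 = 1 / 2 := by simp [om]
      rw [F_rec le_rfl, ih _ (show (n + 1) / 2 < n by omega), ih _ (show n / 2 < n by omega),
        hu, hd, ho]
      simp only [F_one]
      have h : ((n + 1) / 2) + n / 2 = n := by omega
      have h' : (((n + 1) / 2 : ℕ) : ℝ) + ((n / 2 : ℕ) : ℝ) = n := by exact_mod_cast h
      rw [← h']
      ring

theorem F_three (n : ℕ) : F 3 n = n * (n - 1) * (n - 2) / 6 := by
  induction n using Nat.strong_induction_on with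
  | _ n ih =>
    rcases Nat.lt_or_ge n 2 with hn | hn
    · have h1 : n = 0 ∨ n = 1 := by omega
      rcases h1 with rfl | rfl <;> simp [F, f_zero_right, f_one_right]
    · have hu : up 3 = 2 := rfl
      have hd : dn 3 = 1 := rfl
      have ho : om 3 = 1 := by simp [om]
      rw [F_rec (by norm_num), ih _ (show (n + 1) / 2 < n by omega),
        ih _ (show n / 2 < n by omega), hu, hd, ho]
      simp only [F_one, F_two]
      have h : ((n + 1) / 2) + n / 2 = n := by omega
      have h' : (((n + 1) / 2 : ℕ) : ℝ) + ((n / 2 : ℕ) : ℝ) = n := by exact_mod_cast h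
      rw [← h']
      ring

/-- `f k n = 0` for `n < k` -/
theorem F_eq_zero {k n : ℕ} (h : n < k) : F k n = 0 := by
  induction n using Nat.strong_induction_on generalizing k with
  | _ n ih =>
    rcases Nat.lt_or_ge n 2 with hn | hn
    · have h1 : n = 0 ∨ n = 1 := by omega
      rcases h1 with rfl | rfl
      · exact F_zero k
      · have : k ≠ 1 := by omega
        simp [F, f_one_right, this]
    · rw [F_rec (by omega), ih _ (by omega) (show (n + 1) / 2 < k by omega),
        ih _ (by omega) (show n / 2 < k by omega)]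
      have hd : F (up k) ((n + 1) / 2) * F (dn k) (n / 2) = 0 := by
        rcases Nat.lt_or_ge ((n + 1) / 2) (up k) with h1 | h1
        · rw [ih _ (by omega) h1, zero_mul]
        · rw [ih (n / 2) (by omega) (show n / 2 < dn k by unfold dn; unfold up at h1; omega),
            mul_zero]
      have hd' : F (dn k) ((n + 1) / 2) * F (up k) (n / 2) = 0 := by
        rw [ih (n / 2) (by omega) (show n / 2 < up k by unfold up; omega), mul_zero]
      rw [hd, hd']
      ring

/-- `f k n > 0` for `1 ≤ k ≤ n` -/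
theorem F_pos {k n : ℕ} (hk : 1 ≤ k) (h : k ≤ n) : 0 < F k n := by
  induction n using Nat.strong_induction_on generalizing k with
  | _ n ih =>
    rcases Nat.lt_or_ge k 2 with hk2 | hk2
    · have : k = 1 := by omega
      subst this
      rw [F_one]
      exact_mod_cast h
    · rw [F_rec hk2]
      have h1 : 0 < F (up k) ((n + 1) / 2) :=
        ih _ (by omega) (by unfold up; omega) (by unfold up; omega)
      have h2 : 0 < F (dn k) (n / 2) :=
        ih _ (by omega) (by unfold dn; omega) (by unfold dn; omega)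
      have h3 := F_nonneg k ((n + 1) / 2)
      have h4 := F_nonneg k (n / 2)
      have h5 := mul_nonneg (F_nonneg (dn k) ((n + 1) / 2)) (F_nonneg (up k) (n / 2))
      have h6 := om_pos k
      have h7 := mul_pos h1 h2
      have h8 := mul_pos h6 (add_pos_of_pos_of_nonneg h7 h5)
      linarith

/-- monotonicity in `n` -/
theorem F_mono_succ (n : ℕ) : ∀ k, F k n ≤ F k (n + 1) := by
  induction n using Nat.strong_induction_on with
  | _ n ih =>
    intro k
    rcases Nat.lt_or_ge k 2 with hk2 | hk2
    · have : k = 0 ∨ k = 1 := by omega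
      rcases this with rfl | rfl
      · have h0 : ∀ n, F 0 n = 0 := by
          intro n
          have : f 0 n = 0 := by
            unfold f g
            simp
          simp [F, this]
        rw [h0, h0]
      · rw [F_one, F_one]; push_cast; linarith
    · rcases Nat.even_or_odd' n with ⟨p, rfl | rfl⟩
      · rcases Nat.eq_zero_or_pos p with rfl | hp
        · rw [Nat.mul_zero, F_zero]; exact F_nonneg _ _
        rw [F_even hk2, F_odd hk2]
        have h1 := ih p (by omega) k
        have h2 := mul_le_mul_of_nonneg_right (ih p (by omega) (up k)) (F_nonneg (dn k) p)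
        have h3 := mul_le_mul_of_nonneg_right (ih p (by omega) (dn k)) (F_nonneg (up k) p)
        nlinarith [om_pos k]
      · rw [show 2 * p + 1 + 1 = 2 * (p + 1) by ring, F_even hk2, F_odd hk2]
        have h1 := ih p (by omega) k
        have h2 := mul_le_mul_of_nonneg_left (ih p (by omega) (up k)) (F_nonneg (dn k) (p + 1))
        have h3 := mul_le_mul_of_nonneg_left (ih p (by omega) (dn k)) (F_nonneg (up k) (p + 1))
        nlinarith [om_pos k]

theorem F_mono (k : ℕ) : Monotone (F k) := monotone_nat_of_le_succ fun n => F_mono_succ n k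

/-- the product term -/
noncomputable def B (k x y : ℕ) : ℝ :=
  om k * (F (up k) x * F (dn k) y + F (dn k) x * F (up k) y)

/-- `f_k(n) ≥ 2^{k-1} (f_k(⌈n/2⌉) + f_k(⌊n/2⌋))`. -/
theorem C2 (n : ℕ) : ∀ k, 1 ≤ k →
    2 ^ (k - 1) * (F k ((n + 1) / 2) + F k (n / 2)) ≤ F k n := by
  induction n using Nat.strong_induction_on with
  | _ n ih =>
    intro k hk
    rcases Nat.lt_or_ge k 2 with hk2 | hk2
    · have : k = 1 := by omega
      subst this
      simp only [F_one]
      have h : ((n + 1) / 2) + n / 2 = n := by omega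
      have h' : (((n + 1) / 2 : ℕ) : ℝ) + ((n / 2 : ℕ) : ℝ) = n := by exact_mod_cast h
      rw [h']
      norm_num
    rcases Nat.lt_or_ge n 2 with hn | hn
    · rw [F_eq_zero (show n < k by omega), F_eq_zero (show (n + 1) / 2 < k by omega),
        F_eq_zero (show n / 2 < k by omega)]
      norm_num
    -- the main case
    have hup : 1 ≤ up k := by unfold up; omega
    have hdn : 1 ≤ dn k := by unfold dn; omega
    set c : ℝ := 2 ^ (k - 1) with hc
    have hpow : (2 : ℝ) * (2 ^ (up k - 1) * 2 ^ (dn k - 1)) = c := by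
      rw [hc, ← pow_add, ← pow_succ']
      congr 1
      have := up_add_dn k
      omega
    have hc2 : (2 : ℝ) ≤ c := by
      rw [hc]
      calc (2 : ℝ) = 2 ^ 1 := by norm_num
        _ ≤ 2 ^ (k - 1) := pow_le_pow_right₀ (by norm_num) (by omega)
    -- from the induction hypothesis, a bound for `F k x`
    have key : ∀ x, x < n → (c - 1) * F k x ≤ c * B k ((x + 1) / 2) (x / 2) := by
      intro x hx
      have h1 := ih x hx k hk
      have h2 := F_rec hk2 x
      unfold B
      nlinarith
    have hB : c * (B k (((n + 1) / 2 + 1) / 2) ((n + 1) / 2 / 2) +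
        B k ((n / 2 + 1) / 2) (n / 2 / 2)) ≤ B k ((n + 1) / 2) (n / 2) := by
      -- lower bounds for the factors
      have u1 := ih ((n + 1) / 2) (by omega) (up k) hup
      have u2 := ih (n / 2) (by omega) (up k) hup
      have v1 := ih ((n + 1) / 2) (by omega) (dn k) hdn
      have v2 := ih (n / 2) (by omega) (dn k) hdn
      have pu : (0 : ℝ) < 2 ^ (up k - 1) := by positivity
      have pv : (0 : ℝ) < 2 ^ (dn k - 1) := by positivity
      have hprod1 : 2 ^ (up k - 1) * 2 ^ (dn k - 1) *
          ((F (up k) (((n + 1) / 2 + 1) / 2) + F (up k) ((n + 1) / 2 / 2)) *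
            (F (dn k) ((n / 2 + 1) / 2) + F (dn k) (n / 2 / 2))) ≤
          F (up k) ((n + 1) / 2) * F (dn k) (n / 2) := by
        have := mul_le_mul u1 v2 (mul_nonneg pv.le (add_nonneg (F_nonneg _ _) (F_nonneg _ _)))
          (F_nonneg _ _)
        calc _ = _ := by ring
          _ ≤ _ := this
      have hprod2 : 2 ^ (up k - 1) * 2 ^ (dn k - 1) *
          ((F (dn k) (((n + 1) / 2 + 1) / 2) + F (dn k) ((n + 1) / 2 / 2)) *
            (F (up k) ((n / 2 + 1) / 2) + F (up k) (n / 2 / 2))) ≤
          F (dn k) ((n + 1) / 2) * F (up k) (n / 2) := by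
        have := mul_le_mul v1 u2 (mul_nonneg pu.le (add_nonneg (F_nonneg _ _) (F_nonneg _ _)))
          (F_nonneg _ _)
        calc _ = _ := by ring
          _ ≤ _ := this
      set d : ℝ := 2 ^ (up k - 1) * 2 ^ (dn k - 1) with hd
      have hd0 : 0 < d := by positivity
      have hmain : 2 * ((F (up k) (((n + 1) / 2 + 1) / 2) * F (dn k) ((n + 1) / 2 / 2) +
            F (dn k) (((n + 1) / 2 + 1) / 2) * F (up k) ((n + 1) / 2 / 2)) +
          (F (up k) ((n / 2 + 1) / 2) * F (dn k) (n / 2 / 2) +
            F (dn k) ((n / 2 + 1) / 2) * F (up k) (n / 2 / 2))) ≤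
          (F (up k) (((n + 1) / 2 + 1) / 2) + F (up k) ((n + 1) / 2 / 2)) *
            (F (dn k) ((n / 2 + 1) / 2) + F (dn k) (n / 2 / 2)) +
          (F (dn k) (((n + 1) / 2 + 1) / 2) + F (dn k) ((n + 1) / 2 / 2)) *
            (F (up k) ((n / 2 + 1) / 2) + F (up k) (n / 2 / 2)) := by
        obtain ⟨a, r, hr, rfl⟩ : ∃ a r, r < 4 ∧ n = 4 * a + r :=
          ⟨n / 4, n % 4, Nat.mod_lt _ (by norm_num), by omega⟩
        have hm := F_mono (up k) (Nat.le_succ a)
        have hm' := F_mono (dn k) (Nat.le_succ a)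
        have hmm := mul_nonneg (sub_nonneg.2 hm) (sub_nonneg.2 hm')
        simp only [Nat.succ_eq_add_one] at hmm
        interval_cases r
        · rw [show (4 * a + 0 + 1) / 2 = 2 * a by omega, show (4 * a + 0) / 2 = 2 * a by omega,
            show (2 * a + 1) / 2 = a by omega, show 2 * a / 2 = a by omega]
          linarith
        · rw [show (4 * a + 1 + 1) / 2 = 2 * a + 1 by omega, show (4 * a + 1) / 2 = 2 * a by omega,
            show (2 * a + 1 + 1) / 2 = a + 1 by omega, show (2 * a + 1) / 2 = a by omega,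
            show 2 * a / 2 = a by omega]
          linarith
        · rw [show (4 * a + 2 + 1) / 2 = 2 * a + 1 by omega,
            show (4 * a + 2) / 2 = 2 * a + 1 by omega,
            show (2 * a + 1 + 1) / 2 = a + 1 by omega, show (2 * a + 1) / 2 = a by omega]
          linarith
        · rw [show (4 * a + 3 + 1) / 2 = 2 * a + 2 by omega,
            show (4 * a + 3) / 2 = 2 * a + 1 by omega,
            show (2 * a + 2 + 1) / 2 = a + 1 by omega, show (2 * a + 2) / 2 = a + 1 by omega,
            show (2 * a + 1) / 2 = a by omega]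
          linarith
      have hom := om_pos k
      have h3 := mul_le_mul_of_nonneg_left hmain (mul_pos hom hd0).le
      have h4 := mul_le_mul_of_nonneg_left (add_le_add hprod1 hprod2) hom.le
      unfold B
      rw [← hpow]
      nlinarith
    have k1 := key ((n + 1) / 2) (by omega)
    have k2 := key (n / 2) (by omega)
    rw [F_rec hk2 n]
    have : (c - 1) * (F k ((n + 1) / 2) + F k (n / 2)) ≤ B k ((n + 1) / 2) (n / 2) := by
      nlinarith
    unfold B at this
    linarith

theorem C2_even {k : ℕ} (hk : 1 ≤ k) (m : ℕ) : 2 ^ k * F k m ≤ F k (2 * m) := by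
  have := C2 (2 * m) k hk
  rw [show (2 * m + 1) / 2 = m by omega, show 2 * m / 2 = m by omega] at this
  have h2 : (2 : ℝ) ^ k = 2 ^ (k - 1) * 2 := by
    rw [← pow_succ]; congr 1; omega
  rw [h2]
  linarith

theorem C2_odd {k : ℕ} (hk : 1 ≤ k) (m : ℕ) :
    2 ^ (k - 1) * (F k (m + 1) + F k m) ≤ F k (2 * m + 1) := by
  have := C2 (2 * m + 1) k hk
  rwa [show (2 * m + 1 + 1) / 2 = m + 1 by omega, show (2 * m + 1) / 2 = m by omega] at this

theorem odd_prod_L {P x y c U U' V V' : ℝ} (hS : x + y = c + 2 / 3) (hc : 0 ≤ c)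
    (hP : c + 2 / 3 ≤ 2 * P * (2 / 3)) (hx : x < P) (hy : y < P)
    (hU0 : 0 ≤ U) (hV0 : 0 ≤ V)
    (hU : P * U ≤ (P - x) * U') (hV : P * V ≤ (P - y) * V') :
    (2 * P - 1) * (2 * (U * V)) ≤ (2 * P - 1 - c) * (U' * V + V' * U) := by
  have hx' : 0 < P - x := by linarith
  have hy' : 0 < P - y := by linarith
  have hNc : 0 ≤ 2 * P - 1 - c := by linarith
  have hUV : 0 ≤ U * V := mul_nonneg hU0 hV0
  -- multiply by `(P - x) (P - y)`
  have h1 : (P - y) * (P * (U * V)) ≤ (P - x) * (P - y) * (U' * V) := by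
    have := mul_le_mul_of_nonneg_right hU (mul_nonneg hV0 hy'.le)
    linarith
  have h2 : (P - x) * (P * (U * V)) ≤ (P - x) * (P - y) * (V' * U) := by
    have := mul_le_mul_of_nonneg_right hV (mul_nonneg hU0 hx'.le)
    linarith
  have h3 := mul_le_mul_of_nonneg_left (add_le_add h1 h2) hNc
  have h4 : 2 * (2 * P - 1) * ((P - x) * (P - y)) ≤ (2 * P - 1 - c) * (P * (2 * P - x - y)) := by
    have hsq : 0 ≤ (x - y) ^ 2 := sq_nonneg _
    have hS2 : 0 < 2 * P - x - y := by linarith
    have h5 : (2 * P - 1) * (2 * P - x - y) ≤ 2 * (P * (2 * P - 1 - c)) := by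
      have : x + y = c + 2 / 3 := hS
      nlinarith
    have h6 := mul_le_mul_of_nonneg_right h5 hS2.le
    have h7 : 0 ≤ 2 * P - 1 := by linarith
    nlinarith [mul_nonneg h7 hsq]
  have h5 := mul_le_mul_of_nonneg_right h4 hUV
  have h6 : (P - x) * (P - y) * ((2 * P - 1) * (2 * (U * V))) ≤
      (P - x) * (P - y) * ((2 * P - 1 - c) * (U' * V + V' * U)) := by
    linarith
  exact le_of_mul_le_mul_left h6 (mul_pos hx' hy')

/-- **(L)** `n ψ_k(n) ≥ (2 k + 2) / 3`. -/
theorem bound_L (n : ℕ) : ∀ k : ℕ, 2 ≤ k →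
    ((n : ℝ) + 1) * F k n ≤ ((n : ℝ) + 1 - (2 * k + 2) / 3) * F k (n + 1) := by
  induction n using Nat.strong_induction_on with
  | _ n ih =>
    intro k hk
    rcases Nat.lt_or_ge k 4 with hk4 | hk4
    · have : k = 2 ∨ k = 3 := by omega
      have hn0 : (0 : ℝ) ≤ n := Nat.cast_nonneg n
      rcases this with rfl | rfl
      · rw [F_two, F_two]; push_cast; nlinarith
      · rw [F_three, F_three]
        push_cast
        rcases Nat.eq_zero_or_pos n with rfl | hn
        · norm_num
        have hn1 : (1 : ℝ) ≤ n := by exact_mod_cast hn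
        have : 0 ≤ (n : ℝ) * (n - 1) * (n + 1) := by
          have : 0 ≤ (n : ℝ) - 1 := by linarith
          positivity
        nlinarith
    have hkr : (4 : ℝ) ≤ k := by exact_mod_cast hk4
    have hup : 2 ≤ up k := by unfold up; omega
    have hdn : 2 ≤ dn k := by unfold dn; omega
    have hud : ((up k : ℕ) : ℝ) + (dn k : ℕ) = k := by exact_mod_cast up_add_dn k
    rcases Nat.even_or_odd' n with ⟨m, rfl | rfl⟩
    · -- `n + 1 = 2 m + 1`
      rcases Nat.lt_or_ge (2 * m + 1) k with h1 | h1
      · rw [F_eq_zero h1, F_eq_zero (show 2 * m < k by omega)]; simp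
      rcases Nat.eq_or_lt_of_le h1 with h2 | h2
      · rw [F_eq_zero (show 2 * m < k by omega)]
        have h3 : (k : ℝ) = 2 * m + 1 := by exact_mod_cast h2
        have := F_nonneg k (2 * m + 1)
        have h4 : (0 : ℝ) ≤ (((2 * m : ℕ) : ℝ) + 1 - (2 * k + 2) / 3) := by
          push_cast; rw [← h3]; linarith
        rw [mul_zero]
        exact mul_nonneg h4 this
      have hm1 : 1 ≤ m := by omega
      have hmr : (k : ℝ) + 1 ≤ 2 * m + 1 := by exact_mod_cast h2
      rw [F_odd hk, F_even hk]
      have i0 := ih m (by omega) k hk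
      have iu := ih m (by omega) (up k) hup
      have iv := ih m (by omega) (dn k) hdn
      have hupr : ((up k : ℕ) : ℝ) ≤ (k + 1) / 2 := by
        have : 2 * up k ≤ k + 1 := by unfold up; omega
        have : 2 * ((up k : ℕ) : ℝ) ≤ k + 1 := by exact_mod_cast this
        linarith
      have hdnr : ((dn k : ℕ) : ℝ) ≤ k / 2 := by
        have : 2 * dn k ≤ k := by unfold dn; omega
        have : 2 * ((dn k : ℕ) : ℝ) ≤ k := by exact_mod_cast this
        linarith
      have hprod := odd_prod_L (P := (m : ℝ) + 1) (x := (2 * (up k : ℕ) + 2) / 3)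
        (y := (2 * (dn k : ℕ) + 2) / 3) (c := (2 * k + 2) / 3) (by linarith) (by linarith)
        (by linarith) (by linarith) (by linarith) (F_nonneg _ _) (F_nonneg _ _) iu iv
      have hY := F_nonneg k (m + 1)
      have hm0 : (0 : ℝ) < (m : ℝ) + 1 := by positivity
      have hfirst : ((m : ℝ) + 1) * ((2 * m + 1) * (2 * F k m)) ≤
          ((m : ℝ) + 1) * ((2 * m + 1 - (2 * k + 2) / 3) * (F k (m + 1) + F k m)) := by
        have hc1 : (0 : ℝ) ≤ ((2 * k + 2) / 3) * ((2 * k + 2) / 3 - 1) := by
          have : (1 : ℝ) ≤ (2 * k + 2) / 3 := by linarith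
          nlinarith
        have h5 : (0 : ℝ) ≤ 2 * m + 1 + (2 * k + 2) / 3 := by positivity
        have h6 := mul_le_mul_of_nonneg_left i0 h5
        have h7 := mul_nonneg hc1 hY
        nlinarith
      have hfirst' := le_of_mul_le_mul_left hfirst hm0
      have hom := om_pos k
      have hprod' := mul_le_mul_of_nonneg_left hprod hom.le
      push_cast
      nlinarith
    · -- `n + 1 = 2 m + 2`
      rw [show 2 * m + 1 + 1 = 2 * (m + 1) by ring, F_odd hk, F_even hk]
      have i0 := ih m (by omega) k hk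
      have iu := ih m (by omega) (up k) hup
      have iv := ih m (by omega) (dn k) hdn
      have hU := F_nonneg (up k) (m + 1)
      have hV := F_nonneg (dn k) (m + 1)
      have a1 := mul_le_mul_of_nonneg_right iu hV
      have a2 := mul_le_mul_of_nonneg_right iv hU
      have hUV := mul_nonneg hU hV
      have hom := om_pos k
      have a3 : ((m : ℝ) + 1) * (F (up k) (m + 1) * F (dn k) m + F (dn k) (m + 1) * F (up k) m) ≤
          (2 * m + 2 - (2 * k + 2) / 3) * (F (up k) (m + 1) * F (dn k) (m + 1)) := by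
        have : (2 * m + 2 - (2 * (k : ℝ) + 2) / 3) = (m + 1 - (2 * (up k : ℕ) + 2) / 3) +
            (m + 1 - (2 * (dn k : ℕ) + 2) / 3) + 2 / 3 := by
          rw [← hud]; ring
        rw [this]
        nlinarith
      have a4 := mul_le_mul_of_nonneg_left a3 hom.le
      push_cast
      nlinarith

theorem pow_ge_aux {k : ℕ} (hk : 4 ≤ k) : 2 * (k : ℝ) ≤ 2 ^ (k - 1) := by
  induction k, hk using Nat.le_induction with
  | base => norm_num
  | succ k hk ih =>
    have h4 : (4 : ℝ) ≤ k := by exact_mod_cast hk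
    rw [show k + 1 - 1 = (k - 1) + 1 by omega, pow_succ]
    push_cast
    linarith

theorem pow_ge_aux' {k : ℕ} (hk : 5 ≤ k) : 3 * (k : ℝ) + 1 ≤ 2 ^ (k - 1) := by
  induction k, hk using Nat.le_induction with
  | base => norm_num
  | succ k hk ih =>
    have h4 : (5 : ℝ) ≤ k := by exact_mod_cast hk
    rw [show k + 1 - 1 = (k - 1) + 1 by omega, pow_succ]
    push_cast
    linarith

theorem odd_prod_U {P k u v U U' V V' : ℝ} (hk : u + v = k)
    (h1 : P * (2 * P - 1 - k) ≤ 2 * (2 * P - 1) * (P - u))
    (h2 : P * (2 * P - 1 - k) ≤ 2 * (2 * P - 1) * (P - v)) (hN : 0 ≤ 2 * P - 1)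
    (hU0 : 0 ≤ U') (hV0 : 0 ≤ V')
    (hU : (P - u) * U' ≤ P * U) (hV : (P - v) * V' ≤ P * V) :
    U' * V' * (2 * (2 * P - 1) * (P - u) * (P - v) - (2 * P - 1 - k) * (P * (2 * P - k))) ≤
      P ^ 2 * ((2 * P - 1) * (2 * (U * V)) - (2 * P - 1 - k) * (U' * V + V' * U)) := by
  have ha : 0 ≤ P * U - (P - u) * U' := by linarith
  have hb : 0 ≤ P * V - (P - v) * V' := by linarith
  have e1 := mul_nonneg (mul_nonneg hU0 hb) (sub_nonneg.2 h1)
  have e2 := mul_nonneg (mul_nonneg hV0 ha) (sub_nonneg.2 h2)
  have e3 := mul_nonneg hN (mul_nonneg ha hb)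
  subst hk
  nlinarith

/-- **(U)** `n ψ_k(n) ≤ k`. -/
theorem bound_U (n : ℕ) : ∀ k : ℕ, 1 ≤ k →
    ((n : ℝ) + 1 - k) * F k (n + 1) ≤ ((n : ℝ) + 1) * F k n := by
  induction n using Nat.strong_induction_on with
  | _ n ih =>
    intro k hk
    rcases Nat.lt_or_ge k 4 with hk4 | hk4
    · have : k = 1 ∨ k = 2 ∨ k = 3 := by omega
      rcases this with rfl | rfl | rfl
      · rw [F_one, F_one]; push_cast; nlinarith
      · rw [F_two, F_two]; push_cast; nlinarith
      · rw [F_three, F_three]; push_cast; nlinarith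
    have hk2 : 2 ≤ k := by omega
    have hkr : (4 : ℝ) ≤ k := by exact_mod_cast hk4
    have hup : 1 ≤ up k := by unfold up; omega
    have hdn : 1 ≤ dn k := by unfold dn; omega
    have hud : ((up k : ℕ) : ℝ) + (dn k : ℕ) = k := by exact_mod_cast up_add_dn k
    rcases Nat.even_or_odd' n with ⟨m, rfl | rfl⟩
    · -- `n + 1 = 2 m + 1`
      rcases Nat.lt_or_ge (2 * m + 1) k with h1 | h1
      · rw [F_eq_zero h1, F_eq_zero (show 2 * m < k by omega)]; simp
      rcases Nat.eq_or_lt_of_le h1 with h2 | h2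
      · rw [F_eq_zero (show 2 * m < k by omega)]
        have h3 : (k : ℝ) = 2 * m + 1 := by exact_mod_cast h2
        push_cast
        rw [h3]
        simp
      have hm1 : 1 ≤ m := by omega
      have hmr : (k : ℝ) + 1 ≤ 2 * m + 1 := by exact_mod_cast h2
      rw [F_odd hk2, F_even hk2]
      have i0 := ih m (by omega) k hk
      have iu := ih m (by omega) (up k) hup
      have iv := ih m (by omega) (dn k) hdn
      have hupr : ((up k : ℕ) : ℝ) ≤ (k + 1) / 2 := by
        have : 2 * up k ≤ k + 1 := by unfold up; omega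
        have : 2 * ((up k : ℕ) : ℝ) ≤ k + 1 := by exact_mod_cast this
        linarith
      have hdnr : ((dn k : ℕ) : ℝ) ≤ k / 2 := by
        have : 2 * dn k ≤ k := by unfold dn; omega
        have : 2 * ((dn k : ℕ) : ℝ) ≤ k := by exact_mod_cast this
        linarith
      have hU := F_nonneg (up k) (m + 1)
      have hV := F_nonneg (dn k) (m + 1)
      have hY := F_nonneg k (m + 1)
      have hm0 : (0 : ℝ) < (m : ℝ) + 1 := by positivity
      have hprod := odd_prod_U (P := (m : ℝ) + 1) (k := k) (u := (up k : ℕ)) (v := (dn k : ℕ)) hud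
        (by nlinarith) (by nlinarith) (by linarith) hU hV iu iv
      -- the numerator
      obtain ⟨num, hnum, hnum2⟩ : ∃ num : ℝ, (2 * (2 * ((m : ℝ) + 1) - 1) *
          ((m : ℝ) + 1 - (up k : ℕ)) * ((m : ℝ) + 1 - (dn k : ℕ)) -
          (2 * ((m : ℝ) + 1) - 1 - k) * (((m : ℝ) + 1) * (2 * ((m : ℝ) + 1) - k))) = num ∧
          0 ≤ num ∧ (k ≤ m + 1 →
            ((m : ℝ) + 1) * (k * (k - 1)) ≤ (2 ^ (k - 1) - 1) * num) := by
        rcases Nat.even_or_odd' k with ⟨s, hs | hs⟩
        · have hus : up k = s := by unfold up; omega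
          have hds : dn k = s := by unfold dn; omega
          have hks : (k : ℝ) = 2 * s := by exact_mod_cast hs
          refine ⟨(2 * ((m : ℝ) + 1) - k) * k / 2, ?_, ?_, ?_⟩
          · rw [hus, hds, hks]; ring
          · have : (0 : ℝ) ≤ 2 * ((m : ℝ) + 1) - k := by linarith
            positivity
          · intro hkm
            have hkm' : (k : ℝ) ≤ m + 1 := by exact_mod_cast hkm
            have hpow := pow_ge_aux hk4
            have h5 : (0 : ℝ) ≤ k := by linarith
            have h6 : ((m : ℝ) + 1) * k / 2 ≤ (2 * ((m : ℝ) + 1) - k) * k / 2 := by nlinarith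
            have h7 : (0 : ℝ) ≤ 2 ^ (k - 1) - 1 := by linarith
            have h8 := mul_le_mul_of_nonneg_left h6 h7
            have h9 : (2 * (k : ℝ) - 1) * (((m : ℝ) + 1) * k / 2) ≤
                (2 ^ (k - 1) - 1) * (((m : ℝ) + 1) * k / 2) :=
              mul_le_mul_of_nonneg_right (by linarith) (by positivity)
            nlinarith [mul_nonneg hm0.le h5]
        · have hus : up k = s + 1 := by unfold up; omega
          have hds : dn k = s := by unfold dn; omega
          have hks : (k : ℝ) = 2 * s + 1 := by exact_mod_cast hs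
          refine ⟨(k - 1) * (2 * ((m : ℝ) + 1) - k - 1) / 2, ?_, ?_, ?_⟩
          · rw [hus, hds, hks]; push_cast; ring
          · have h5 : (0 : ℝ) ≤ 2 * ((m : ℝ) + 1) - k - 1 := by linarith
            have h6 : (0 : ℝ) ≤ k - 1 := by linarith
            positivity
          · intro hkm
            have hk5 : 5 ≤ k := by omega
            have hk5r : (5 : ℝ) ≤ k := by exact_mod_cast hk5
            have hkm' : (k : ℝ) ≤ m + 1 := by exact_mod_cast hkm
            have hpow := pow_ge_aux' hk5
            have h6 : (k - 1) * (m : ℝ) / 2 ≤ (k - 1) * (2 * ((m : ℝ) + 1) - k - 1) / 2 := by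
              nlinarith
            have h7 : (0 : ℝ) ≤ 2 ^ (k - 1) - 1 := by linarith
            have h8 := mul_le_mul_of_nonneg_left h6 h7
            have h10 : (0 : ℝ) ≤ (k - 1) * (m : ℝ) / 2 := by
              have : (0 : ℝ) ≤ k - 1 := by linarith
              positivity
            have h9 : (3 * (k : ℝ)) * ((k - 1) * (m : ℝ) / 2) ≤
                (2 ^ (k - 1) - 1) * ((k - 1) * (m : ℝ) / 2) :=
              mul_le_mul_of_nonneg_right (by linarith) h10
            have h11 : (0 : ℝ) ≤ k * (k - 1) := by nlinarith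
            nlinarith [mul_nonneg h11 (show (0 : ℝ) ≤ (m : ℝ) - 2 by linarith)]
      rw [hnum] at hprod
      obtain ⟨hnum0, hnumk⟩ := hnum2
      have hom := om_pos k
      have hUV := mul_nonneg hU hV
      -- the comparison of the two errors
      have hcmp : ((m : ℝ) + 1) * (k * (k - 1) * F k (m + 1)) ≤
          om k * (F (up k) (m + 1) * F (dn k) (m + 1) * num) := by
        rcases Nat.lt_or_ge (m + 1) k with h5 | h5
        · rw [F_eq_zero h5, mul_zero, mul_zero]
          have := mul_nonneg hUV hnum0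
          positivity
        · have h6 := hnumk h5
          have h7 := C2_even hk (m + 1)
          rw [F_even hk2] at h7
          have h8 : (2 : ℝ) ^ k = 2 ^ (k - 1) * 2 := by
            rw [← pow_succ]; congr 1; omega
          rw [h8] at h7
          have h9 : (2 ^ (k - 1) - 1) * F k (m + 1) ≤
              om k * (F (up k) (m + 1) * F (dn k) (m + 1)) := by linarith
          have h10 := mul_le_mul_of_nonneg_right h9 hnum0
          have h11 := mul_le_mul_of_nonneg_right h6 hY
          nlinarith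
      have hfirst : ((m : ℝ) + 1) * ((2 * m + 1 - k) * (F k (m + 1) + F k m) -
          (2 * m + 1) * (2 * F k m)) ≤ k * (k - 1) * F k (m + 1) := by
        have h5 : (0 : ℝ) ≤ 2 * m + 1 + k := by positivity
        have h6 := mul_le_mul_of_nonneg_left i0 h5
        nlinarith
      have hfin : ((m : ℝ) + 1) ^ 2 * ((2 * m + 1 - k) * (F k (m + 1) + F k m +
          om k * (F (up k) (m + 1) * F (dn k) m + F (dn k) (m + 1) * F (up k) m)) -
          (2 * m + 1) * (2 * F k m + 2 * om k * (F (up k) m * F (dn k) m))) ≤ 0 := by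
        have h5 := mul_le_mul_of_nonneg_left hprod hom.le
        have h6 := mul_le_mul_of_nonneg_left hfirst hm0.le
        nlinarith
      have hfin2 : (2 * m + 1 - k) * (F k (m + 1) + F k m +
          om k * (F (up k) (m + 1) * F (dn k) m + F (dn k) (m + 1) * F (up k) m)) -
          (2 * m + 1) * (2 * F k m + 2 * om k * (F (up k) m * F (dn k) m)) ≤ 0 := by
        by_contra hcon
        push Not at hcon
        have := mul_pos (pow_pos hm0 2) hcon
        linarith
      push_cast
      linarith
    · -- `n + 1 = 2 m + 2`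
      rw [show 2 * m + 1 + 1 = 2 * (m + 1) by ring, F_odd hk2, F_even hk2]
      have i0 := ih m (by omega) k hk
      have iu := ih m (by omega) (up k) hup
      have iv := ih m (by omega) (dn k) hdn
      have hU := F_nonneg (up k) (m + 1)
      have hV := F_nonneg (dn k) (m + 1)
      have a1 := mul_le_mul_of_nonneg_right iu hV
      have a2 := mul_le_mul_of_nonneg_right iv hU
      have hUV := mul_nonneg hU hV
      have hom := om_pos k
      have a3 : (2 * m + 2 - (k : ℝ)) * (F (up k) (m + 1) * F (dn k) (m + 1)) ≤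
          ((m : ℝ) + 1) * (F (up k) (m + 1) * F (dn k) m + F (dn k) (m + 1) * F (up k) m) := by
        rw [← hud]
        nlinarith
      have a4 := mul_le_mul_of_nonneg_left a3 hom.le
      push_cast
      nlinarith

end Pool.Agent.H132R3
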