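import Pool.Agent.H132R3.EvenMono

set_option autoImplicit false

/-!
# The split inequality: `f_k(i) + f_k(j) + B_k(i,j) ≤ f_k(i+j)`
-/

namespace Pool.Agent.H132R3

theorem ratio_one {r t : ℕ} (ht : 1 ≤ t) (hr : 2 ≤ r) (h : 3 * t ≤ 2 * r + 2) (n : ℕ) :
    F r n * F t (n + 1) ≤ F r (n + 1) * F t n := by
  have hL := bound_L n r hr
  have hU := bound_U n t ht
  have h0 : (0 : ℝ) < (n : ℝ) + 1 := by positivity
  have hr0 := F_nonneg r (n + 1)
  have ht0 := F_nonneg t (n + 1)
  have hc : (t : ℝ) ≤ (2 * r + 2) / 3 := by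
    have : 3 * (t : ℝ) ≤ 2 * r + 2 := by exact_mod_cast h
    linarith
  refine le_of_mul_le_mul_left ?_ h0
  have a1 := mul_le_mul_of_nonneg_right hL ht0
  have a2 := mul_le_mul_of_nonneg_left hU hr0
  have a3 := mul_le_mul_of_nonneg_right hc (mul_nonneg hr0 ht0)
  nlinarith

theorem ratio_M {s : ℕ} (hs : 1 ≤ s) (n : ℕ) :
    F (s + 1) n * F s (n + 1) ≤ F (s + 1) (n + 1) * F s n := by
  rcases Nat.eq_or_lt_of_le hs with h1 | h1
  · subst h1
    exact ratio_one le_rfl le_rfl (by norm_num) n
  rcases Nat.lt_or_ge n s with hn | hn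
  · rw [F_eq_zero (show n < s + 1 by omega), zero_mul]
    exact mul_nonneg (F_nonneg _ _) (F_nonneg _ _)
  have hM := M_Q n s h1 hn
  have hnr : (0 : ℝ) < n := by
    have : 0 < n := by omega
    exact_mod_cast this
  have hsr : (0 : ℝ) < s := by
    have : 0 < s := by omega
    exact_mod_cast this
  have hq : Q (s + 1) n ≤ Q s n := by
    by_contra h
    push Not at h
    have h5 : (s : ℝ) * n * (Q s n - Q (s + 1) n) < 0 :=
      mul_neg_of_pos_of_neg (by positivity) (by linarith)
    have := Q_nonneg s n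
    linarith
  have p1 := F_pos (k := s) (n := n + 1) (by omega) (by omega)
  have p2 := F_pos (k := s + 1) (n := n + 1) (by omega) (by omega)
  have q1 := Q_mul (k := s) (n := n) (by omega) (by omega)
  have q2 := Q_mul (k := s + 1) (n := n) (by omega) (by omega)
  rw [← q1, ← q2]
  have := mul_le_mul_of_nonneg_right hq (mul_pos p1 p2).le
  linarith

theorem ratio_mono {r t : ℕ} (ht : 1 ≤ t) (htr : t ≤ r)
    (h1 : ∀ n, F r n * F t (n + 1) ≤ F r (n + 1) * F t n) {x y : ℕ} (hxy : x ≤ y) :
    F r x * F t y ≤ F r y * F t x := by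
  induction y, hxy using Nat.le_induction with
  | base => exact le_rfl
  | succ y hxy ih =>
    rcases Nat.lt_or_ge y t with h | h
    · rw [F_eq_zero (show x < r by omega), zero_mul]
      exact mul_nonneg (F_nonneg _ _) (F_nonneg _ _)
    · have hp := F_pos ht h
      refine le_of_mul_le_mul_left ?_ hp
      have a1 := mul_le_mul_of_nonneg_right ih (F_nonneg t (y + 1))
      have a2 := mul_le_mul_of_nonneg_right (h1 y) (F_nonneg t x)
      nlinarith

theorem ratio {r t : ℕ} (ht : 1 ≤ t) (hr : 2 ≤ r) (htr : t ≤ r) (h : 3 * t ≤ 2 * r + 2)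
    {x y : ℕ} (hxy : x ≤ y) : F r x * F t y ≤ F r y * F t x :=
  ratio_mono ht htr (ratio_one ht hr h) hxy

theorem ratioM {s : ℕ} (hs : 1 ≤ s) {x y : ℕ} (hxy : x ≤ y) :
    F (s + 1) x * F s y ≤ F (s + 1) y * F s x :=
  ratio_mono hs (Nat.le_succ s) (ratio_M hs) hxy

/-- the linear part of the gain -/
theorem D_nonneg {Pa Pa' Pb Pb' wa wa' wb wb' za za' zb zb' : ℝ}
    (h1 : wa' ≤ wb) (h2 : za' ≤ zb) (h3 : wa ≤ wb') (h4 : za ≤ zb')
    (r1 : Pa * zb' ≤ Pb' * za) (r2 : Pa * wb' ≤ Pb' * wa)
    (r3 : Pa' * zb ≤ Pb * za') (r4 : Pa' * wb ≤ Pb * wa') :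
    (Pa + Pa') * (wb * zb' + zb * wb') + (Pb + Pb') * (wa * za' + za * wa') ≤
      (Pa + Pb) * (wa' * zb' + za' * wb') + (Pa' + Pb') * (wa * zb + za * wb) := by
  have e1 := mul_nonneg (sub_nonneg.2 h1) (sub_nonneg.2 r1)
  have e2 := mul_nonneg (sub_nonneg.2 h2) (sub_nonneg.2 r2)
  have e3 := mul_nonneg (sub_nonneg.2 h3) (sub_nonneg.2 r3)
  have e4 := mul_nonneg (sub_nonneg.2 h4) (sub_nonneg.2 r4)
  nlinarith

/-- copies in a tree with two even blocks -/
noncomputable def C (k x y : ℕ) : ℝ := F k x + F k y + B k x y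

theorem swap {k a a' b b' : ℕ} (hk : 4 ≤ k) (h1 : a ≤ b') (h2 : a' ≤ b) :
    B k a a' + B k b b' + om k * (C (up k) a a' * C (dn k) b b' + C (dn k) a a' * C (up k) b b') ≤
    B k a b + B k a' b' +
      om k * (C (up k) a b * C (dn k) a' b' + C (dn k) a b * C (up k) a' b') := by
  obtain ⟨s, r, hr, rfl⟩ : ∃ s r, r < 4 ∧ k = 4 * s + r :=
    ⟨k / 4, k % 4, Nat.mod_lt _ (by norm_num), by omega⟩
  have hs : 1 ≤ s := by omega
  have m1 : ∀ j, F j a ≤ F j b' := fun j => F_mono j h1
  have m2 : ∀ j, F j a' ≤ F j b := fun j => F_mono j h2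
  interval_cases r
  · -- `k = 4 s`
    have u1 : up (4 * s + 0) = 2 * s := by unfold up; omega
    have d1 : dn (4 * s + 0) = 2 * s := by unfold dn; omega
    have o1 : om (4 * s + 0) = 1 / 2 := by unfold om; rw [if_pos (by omega)]
    have u2 : up (2 * s) = s := by unfold up; omega
    have d2 : dn (2 * s) = s := by unfold dn; omega
    have o2 : om (2 * s) = 1 / 2 := by unfold om; rw [if_pos (by omega)]
    unfold B C B
    rw [u1, d1, o1, u2, d2, o2]
    have D := D_nonneg (m2 s) (m2 s) (m1 s) (m1 s)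
      (ratio (r := 2 * s) (t := s) hs (by omega) (by omega) (by omega) h1)
      (ratio (r := 2 * s) (t := s) hs (by omega) (by omega) (by omega) h1)
      (ratio (r := 2 * s) (t := s) hs (by omega) (by omega) (by omega) h2)
      (ratio (r := 2 * s) (t := s) hs (by omega) (by omega) (by omega) h2)
    nlinarith
  · -- `k = 4 s + 1`
    have u1 : up (4 * s + 1) = 2 * s + 1 := by unfold up; omega
    have d1 : dn (4 * s + 1) = 2 * s := by unfold dn; omega
    have o1 : om (4 * s + 1) = 1 := by unfold om; rw [if_neg (by omega)]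
    have u2 : up (2 * s) = s := by unfold up; omega
    have d2 : dn (2 * s) = s := by unfold dn; omega
    have o2 : om (2 * s) = 1 / 2 := by unfold om; rw [if_pos (by omega)]
    have u3 : up (2 * s + 1) = s + 1 := by unfold up; omega
    have d3 : dn (2 * s + 1) = s := by unfold dn; omega
    have o3 : om (2 * s + 1) = 1 := by unfold om; rw [if_neg (by omega)]
    unfold B C B
    rw [u1, d1, o1, u2, d2, o2, u3, d3, o3]
    have D1 := D_nonneg (m2 s) (m2 s) (m1 s) (m1 s)
      (ratio (r := 2 * s + 1) (t := s) hs (by omega) (by omega) (by omega) h1)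
      (ratio (r := 2 * s + 1) (t := s) hs (by omega) (by omega) (by omega) h1)
      (ratio (r := 2 * s + 1) (t := s) hs (by omega) (by omega) (by omega) h2)
      (ratio (r := 2 * s + 1) (t := s) hs (by omega) (by omega) (by omega) h2)
    have D2 := D_nonneg (m2 (s + 1)) (m2 s) (m1 (s + 1)) (m1 s)
      (ratio (r := 2 * s) (t := s) (by omega) (by omega) (by omega) (by omega) h1)
      (ratio (r := 2 * s) (t := s + 1) (by omega) (by omega) (by omega) (by omega) h1)
      (ratio (r := 2 * s) (t := s) (by omega) (by omega) (by omega) (by omega) h2)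
      (ratio (r := 2 * s) (t := s + 1) (by omega) (by omega) (by omega) (by omega) h2)
    nlinarith
  · -- `k = 4 s + 2`
    have u1 : up (4 * s + 2) = 2 * s + 1 := by unfold up; omega
    have d1 : dn (4 * s + 2) = 2 * s + 1 := by unfold dn; omega
    have o1 : om (4 * s + 2) = 1 / 2 := by unfold om; rw [if_pos (by omega)]
    have u3 : up (2 * s + 1) = s + 1 := by unfold up; omega
    have d3 : dn (2 * s + 1) = s := by unfold dn; omega
    have o3 : om (2 * s + 1) = 1 := by unfold om; rw [if_neg (by omega)]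
    unfold B C B
    rw [u1, d1, o1, u3, d3, o3]
    have D := D_nonneg (m2 (s + 1)) (m2 s) (m1 (s + 1)) (m1 s)
      (ratio (r := 2 * s + 1) (t := s) (by omega) (by omega) (by omega) (by omega) h1)
      (ratio (r := 2 * s + 1) (t := s + 1) (by omega) (by omega) (by omega) (by omega) h1)
      (ratio (r := 2 * s + 1) (t := s) (by omega) (by omega) (by omega) (by omega) h2)
      (ratio (r := 2 * s + 1) (t := s + 1) (by omega) (by omega) (by omega) (by omega) h2)
    have q1 := sub_nonneg.2 (ratioM hs h1)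
    have q2 := sub_nonneg.2 (ratioM hs h2)
    have q3 := mul_nonneg q1 q2
    nlinarith
  · -- `k = 4 s + 3`
    have u1 : up (4 * s + 3) = 2 * s + 2 := by unfold up; omega
    have d1 : dn (4 * s + 3) = 2 * s + 1 := by unfold dn; omega
    have o1 : om (4 * s + 3) = 1 := by unfold om; rw [if_neg (by omega)]
    have u2 : up (2 * s + 2) = s + 1 := by unfold up; omega
    have d2 : dn (2 * s + 2) = s + 1 := by unfold dn; omega
    have o2 : om (2 * s + 2) = 1 / 2 := by unfold om; rw [if_pos (by omega)]
    have u3 : up (2 * s + 1) = s + 1 := by unfold up; omega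
    have d3 : dn (2 * s + 1) = s := by unfold dn; omega
    have o3 : om (2 * s + 1) = 1 := by unfold om; rw [if_neg (by omega)]
    unfold B C B
    rw [u1, d1, o1, u2, d2, o2, u3, d3, o3]
    have D1 := D_nonneg (m2 (s + 1)) (m2 s) (m1 (s + 1)) (m1 s)
      (ratio (r := 2 * s + 2) (t := s) (by omega) (by omega) (by omega) (by omega) h1)
      (ratio (r := 2 * s + 2) (t := s + 1) (by omega) (by omega) (by omega) (by omega) h1)
      (ratio (r := 2 * s + 2) (t := s) (by omega) (by omega) (by omega) (by omega) h2)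
      (ratio (r := 2 * s + 2) (t := s + 1) (by omega) (by omega) (by omega) (by omega) h2)
    have D2 := D_nonneg (m2 (s + 1)) (m2 (s + 1)) (m1 (s + 1)) (m1 (s + 1))
      (ratio (r := 2 * s + 1) (t := s + 1) (by omega) (by omega) (by omega) (by omega) h1)
      (ratio (r := 2 * s + 1) (t := s + 1) (by omega) (by omega) (by omega) (by omega) h1)
      (ratio (r := 2 * s + 1) (t := s + 1) (by omega) (by omega) (by omega) (by omega) h2)
      (ratio (r := 2 * s + 1) (t := s + 1) (by omega) (by omega) (by omega) (by omega) h2)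
    nlinarith

theorem B_comm (k x y : ℕ) : B k x y = B k y x := by unfold B; ring

theorem C_comm (k x y : ℕ) : C k x y = C k y x := by unfold C; rw [B_comm]; ring

theorem F_eq_C {k : ℕ} (hk : 2 ≤ k) (n : ℕ) : F k n = C k ((n + 1) / 2) (n / 2) := F_rec hk n

theorem split_aux (n : ℕ) : ∀ k i j : ℕ, 2 ≤ k → i ≤ j → i + j = n →
    F k i + F k j + B k i j ≤ F k n := by
  induction n using Nat.strong_induction_on with
  | _ n ih =>
    intro k i j hk hij hn
    have ih' : ∀ m < n, ∀ k i j : ℕ, 2 ≤ k → i + j = m → C k i j ≤ F k m := by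
      intro m hm k i j hk hij
      rcases le_total i j with h | h
      · exact ih m hm k i j hk h hij
      · rw [C_comm]
        exact ih m hm k j i hk h (by omega)
    by_cases hk2 : k = 2
    · subst hk2
      have hu : up 2 = 1 := rfl
      have hd : dn 2 = 1 := rfl
      have ho : om 2 = 1 / 2 := by simp [om]
      unfold B
      rw [hu, hd, ho, F_two, F_two, F_two, F_one, F_one, ← hn]
      push_cast
      apply le_of_eq
      ring
    by_cases hk3 : k = 3
    · subst hk3
      have hu : up 3 = 2 := rfl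
      have hd : dn 3 = 1 := rfl
      have ho : om 3 = 1 := by simp [om]
      unfold B
      rw [hu, hd, ho, F_three, F_three, F_three, F_two, F_two, F_one, F_one, ← hn]
      push_cast
      apply le_of_eq
      ring
    have hk4 : 4 ≤ k := by omega
    rcases Nat.eq_zero_or_pos i with hi | hi
    · subst hi
      have : j = n := by omega
      subst this
      unfold B
      rw [F_zero, F_zero, F_zero]
      apply le_of_eq
      ring
    have hup : 2 ≤ up k := by unfold up; omega
    have hdn : 2 ≤ dn k := by unfold dn; omega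
    have hsw := swap (k := k) (a := (i + 1) / 2) (a' := i / 2) (b := j / 2) (b' := (j + 1) / 2)
      hk4 (by omega) (by omega)
    have e1 : F k i = C k ((i + 1) / 2) (i / 2) := F_eq_C hk i
    have e2 : F k j = C k (j / 2) ((j + 1) / 2) := by rw [C_comm]; exact F_eq_C hk j
    have e3 : F (up k) i = C (up k) ((i + 1) / 2) (i / 2) := F_eq_C hup i
    have e4 : F (up k) j = C (up k) (j / 2) ((j + 1) / 2) := by rw [C_comm]; exact F_eq_C hup j
    have e5 : F (dn k) i = C (dn k) ((i + 1) / 2) (i / 2) := F_eq_C hdn i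
    have e6 : F (dn k) j = C (dn k) (j / 2) ((j + 1) / 2) := by rw [C_comm]; exact F_eq_C hdn j
    have hCnn : ∀ k x y, 0 ≤ C k x y := by
      intro k x y
      unfold C B
      have := F_nonneg
      have h1 := mul_nonneg (this (up k) x) (this (dn k) y)
      have h2 := mul_nonneg (this (dn k) x) (this (up k) y)
      have h3 := mul_nonneg (om_pos k).le (add_nonneg h1 h2)
      have h4 := this k x
      have h5 := this k y
      linarith
    -- sizes of the new halves
    set x := (i + 1) / 2 + j / 2 with hx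
    set y := i / 2 + (j + 1) / 2 with hy
    have hxy : (x = (n + 1) / 2 ∧ y = n / 2) ∨ (x = n / 2 ∧ y = (n + 1) / 2) := by omega
    have hFn : F k n = F k x + F k y + B k x y := by
      rcases hxy with ⟨hx', hy'⟩ | ⟨hx', hy'⟩
      · rw [hx', hy']; exact F_rec hk n
      · rw [hx', hy', B_comm, add_comm (F k (n / 2))]; exact F_rec hk n
    have hxn : x < n := by omega
    have hyn : y < n := by omega
    have a1 := ih' x hxn k _ _ hk hx.symm
    have a2 := ih' y hyn k _ _ hk hy.symm
    have a3 := ih' x hxn (up k) _ _ hup hx.symm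
    have a4 := ih' y hyn (up k) _ _ hup hy.symm
    have a5 := ih' x hxn (dn k) _ _ hdn hx.symm
    have a6 := ih' y hyn (dn k) _ _ hdn hy.symm
    have b1 := mul_le_mul a3 a6 (hCnn _ _ _) (F_nonneg _ _)
    have b2 := mul_le_mul a5 a4 (hCnn _ _ _) (F_nonneg _ _)
    have b3 := mul_le_mul_of_nonneg_left (add_le_add b1 b2) (om_pos k).le
    have hBij : B k i j = om k * (C (up k) ((i + 1) / 2) (i / 2) * C (dn k) (j / 2) ((j + 1) / 2) +
        C (dn k) ((i + 1) / 2) (i / 2) * C (up k) (j / 2) ((j + 1) / 2)) := by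
      unfold B
      rw [e3, e4, e5, e6]
    rw [hFn, hBij, e1, e2]
    unfold C at a1 a2 ⊢
    unfold C at hsw b3
    unfold B at *
    linarith

/-- **The split inequality.** -/
theorem split {k i j : ℕ} (hk : 2 ≤ k) : F k i + F k j + B k i j ≤ F k (i + j) := by
  rcases le_total i j with h | h
  · exact split_aux (i + j) k i j hk h rfl
  · rw [B_comm, add_comm (F k i), add_comm i]
    exact split_aux (j + i) k j i hk h rfl

/-- The split inequality for natural numbers, `k` even. -/
theorem split_even {s i j : ℕ} (hs : 1 ≤ s) :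
    f (2 * s) i + f (2 * s) j + f s i * f s j ≤ f (2 * s) (i + j) := by
  have h := split (k := 2 * s) (i := i) (j := j) (by omega)
  have u : up (2 * s) = s := by unfold up; omega
  have d : dn (2 * s) = s := by unfold dn; omega
  have o : om (2 * s) = 1 / 2 := by unfold om; rw [if_pos (by omega)]
  unfold B at h
  rw [u, d, o] at h
  unfold F at h
  have h2 : ((f (2 * s) i + f (2 * s) j + f s i * f s j : ℕ) : ℝ) ≤ f (2 * s) (i + j) := by
    push_cast
    linarith
  exact_mod_cast h2

/-- The split inequality for natural numbers, `k` odd. -/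
theorem split_odd {s i j : ℕ} (hs : 1 ≤ s) :
    f (2 * s + 1) i + f (2 * s + 1) j + (f (s + 1) i * f s j + f s i * f (s + 1) j) ≤
      f (2 * s + 1) (i + j) := by
  have h := split (k := 2 * s + 1) (i := i) (j := j) (by omega)
  have u : up (2 * s + 1) = s + 1 := by unfold up; omega
  have d : dn (2 * s + 1) = s := by unfold dn; omega
  have o : om (2 * s + 1) = 1 := by unfold om; rw [if_neg (by omega)]
  unfold B at h
  rw [u, d, o] at h
  unfold F at h
  have h2 : ((f (2 * s + 1) i + f (2 * s + 1) j +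
      (f (s + 1) i * f s j + f s i * f (s + 1) j) : ℕ) : ℝ) ≤ f (2 * s + 1) (i + j) := by
    push_cast
    linarith
  exact_mod_cast h2

end Pool.Agent.H132R3
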