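import Pool.Agent.H132R3.EvenSplit

set_option autoImplicit false

/-!
# Rooted binary trees, their families of clusters, and induced subtrees
-/

namespace Pool.Agent.H132R3

/-- Binary trees with labelled leaves. -/
inductive BT (α : Type) : Type
  | leaf : α → BT α
  | node : BT α → BT α → BT α

namespace BT

variable {α β : Type} [DecidableEq α] [DecidableEq β]

/-- the set of the leaves -/
def lv : BT α → Finset α
  | .leaf a => {a}
  | .node l r => l.lv ∪ r.lv

/-- the clusters -/
def fam : BT α → Finset (Finset α)
  | .leaf a => {{a}}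
  | .node l r => insert (l.lv ∪ r.lv) (l.fam ∪ r.fam)

/-- labels are distinct -/
def wf : BT α → Prop
  | .leaf _ => True
  | .node l r => Disjoint l.lv r.lv ∧ l.wf ∧ r.wf

/-- the two branches at every vertex differ in size by at most one -/
def even : BT α → Prop
  | .leaf _ => True
  | .node l r => (l.lv.card ≤ r.lv.card + 1 ∧ r.lv.card ≤ l.lv.card + 1) ∧ l.even ∧ r.even

/-- the induced subtree -/
def restrict : BT α → Finset α → Option (BT α)
  | .leaf a, L => if a ∈ L then some (.leaf a) else none
  | .node l r, L => match l.restrict L, r.restrict L with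
    | none, y => y
    | some a, none => some a
    | some a, some b => some (.node a b)

theorem lv_nonempty (t : BT α) : t.lv.Nonempty := by
  induction t with
  | leaf a => exact Finset.singleton_nonempty a
  | node l r ihl _ => exact ihl.mono Finset.subset_union_left

theorem lv_mem_fam (t : BT α) : t.lv ∈ t.fam := by
  cases t with
  | leaf a => exact Finset.mem_singleton_self _
  | node l r => exact Finset.mem_insert_self _ _

theorem of_mem_fam {t : BT α} : ∀ {A : Finset α}, A ∈ t.fam → A.Nonempty ∧ A ⊆ t.lv := by
  induction t with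
  | leaf a =>
    intro A hA
    have : A = {a} := Finset.mem_singleton.1 hA
    subst this
    exact ⟨Finset.singleton_nonempty a, Finset.Subset.refl _⟩
  | node l r ihl ihr =>
    intro A hA
    rcases Finset.mem_insert.1 hA with h | h
    · subst h
      exact ⟨(lv_nonempty l).mono Finset.subset_union_left, Finset.Subset.refl _⟩
    · rcases Finset.mem_union.1 h with h | h
      · exact ⟨(ihl h).1, (ihl h).2.trans Finset.subset_union_left⟩
      · exact ⟨(ihr h).1, (ihr h).2.trans Finset.subset_union_right⟩

theorem restrict_spec (t : BT α) (L : Finset α) (ht : t.wf) :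
    (Disjoint t.lv L ∧ t.restrict L = none) ∨
    ∃ s, t.restrict L = some s ∧ s.wf ∧ s.lv = t.lv ∩ L ∧
      ∀ B, B ∈ s.fam ↔ B.Nonempty ∧ ∃ A ∈ t.fam, B = A ∩ L := by
  induction t with
  | leaf a =>
    by_cases ha : a ∈ L
    · right
      refine ⟨.leaf a, by simp [restrict, ha], trivial, ?_, ?_⟩
      · simp [lv, ha]
      · intro B
        simp only [fam, Finset.mem_singleton, exists_eq_left, Finset.singleton_inter_of_mem ha]
        constructor
        · rintro rfl
          exact ⟨Finset.singleton_nonempty a, rfl⟩
        · exact fun h => h.2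
    · left
      exact ⟨by simpa [lv] using ha, by simp [restrict, ha]⟩
  | node l r ihl ihr =>
    obtain ⟨hd, hl, hr⟩ := ht
    rcases ihl hl with ⟨dl, rl⟩ | ⟨a, rl, wa, la, fa⟩
    · rcases ihr hr with ⟨dr, rr⟩ | ⟨b, rr, wb, lb, fb⟩
      · left
        refine ⟨?_, by simp [restrict, rl, rr]⟩
        exact Finset.disjoint_union_left.2 ⟨dl, dr⟩
      · right
        have hl0 : l.lv ∩ L = ∅ := Finset.disjoint_iff_inter_eq_empty.1 dl
        refine ⟨b, by simp [restrict, rl, rr], wb, ?_, ?_⟩
        · rw [lb, lv, Finset.union_inter_distrib_right, hl0, Finset.empty_union]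
        · intro B
          rw [fb]
          constructor
          · rintro ⟨h1, A, hA, h2⟩
            exact ⟨h1, A, Finset.mem_insert_of_mem (Finset.mem_union_right _ hA), h2⟩
          · rintro ⟨h1, A, hA, h2⟩
            rcases Finset.mem_insert.1 hA with h | h
            · refine ⟨h1, r.lv, lv_mem_fam r, ?_⟩
              rw [h2, h, Finset.union_inter_distrib_right, hl0, Finset.empty_union]
            · rcases Finset.mem_union.1 h with h | h
              · exfalso
                have h3 : A ∩ L ⊆ l.lv ∩ L :=
                  Finset.inter_subset_inter_right (of_mem_fam h).2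
                rw [hl0, ← h2] at h3
                obtain ⟨x, hx⟩ := h1
                exact absurd (h3 hx) (Finset.notMem_empty x)
              · exact ⟨h1, A, h, h2⟩
    · rcases ihr hr with ⟨dr, rr⟩ | ⟨b, rr, wb, lb, fb⟩
      · right
        have hr0 : r.lv ∩ L = ∅ := Finset.disjoint_iff_inter_eq_empty.1 dr
        refine ⟨a, by simp [restrict, rl, rr], wa, ?_, ?_⟩
        · rw [la, lv, Finset.union_inter_distrib_right, hr0, Finset.union_empty]
        · intro B
          rw [fa]
          constructor
          · rintro ⟨h1, A, hA, h2⟩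
            exact ⟨h1, A, Finset.mem_insert_of_mem (Finset.mem_union_left _ hA), h2⟩
          · rintro ⟨h1, A, hA, h2⟩
            rcases Finset.mem_insert.1 hA with h | h
            · refine ⟨h1, l.lv, lv_mem_fam l, ?_⟩
              rw [h2, h, Finset.union_inter_distrib_right, hr0, Finset.union_empty]
            · rcases Finset.mem_union.1 h with h | h
              · exact ⟨h1, A, h, h2⟩
              · exfalso
                have h3 : A ∩ L ⊆ r.lv ∩ L :=
                  Finset.inter_subset_inter_right (of_mem_fam h).2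
                rw [hr0, ← h2] at h3
                obtain ⟨x, hx⟩ := h1
                exact absurd (h3 hx) (Finset.notMem_empty x)
      · right
        refine ⟨.node a b, by simp [restrict, rl, rr], ⟨?_, wa, wb⟩, ?_, ?_⟩
        · rw [la, lb]
          exact hd.mono Finset.inter_subset_left Finset.inter_subset_left
        · rw [lv, lv, la, lb, Finset.union_inter_distrib_right]
        · intro B
          rw [fam, fam, Finset.mem_insert, Finset.mem_union, fa, fb, la, lb,
            ← Finset.union_inter_distrib_right]
          constructor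
          · rintro (h | ⟨h1, A, hA, h2⟩ | ⟨h1, A, hA, h2⟩)
            · refine ⟨?_, _, Finset.mem_insert_self _ _, h⟩
              rw [h]
              have := lv_nonempty a
              rw [la] at this
              exact this.mono (Finset.inter_subset_inter_right Finset.subset_union_left)
            · exact ⟨h1, A, Finset.mem_insert_of_mem (Finset.mem_union_left _ hA), h2⟩
            · exact ⟨h1, A, Finset.mem_insert_of_mem (Finset.mem_union_right _ hA), h2⟩
          · rintro ⟨h1, A, hA, h2⟩
            rcases Finset.mem_insert.1 hA with h | h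
            · left; rw [h2, h]
            · rcases Finset.mem_union.1 h with h | h
              · exact Or.inr (Or.inl ⟨h1, A, h, h2⟩)
              · exact Or.inr (Or.inr ⟨h1, A, h, h2⟩)

theorem restrict_congr (t : BT α) {L L' : Finset α} (h : t.lv ∩ L = t.lv ∩ L') :
    t.restrict L = t.restrict L' := by
  induction t with
  | leaf a =>
    have : a ∈ L ↔ a ∈ L' := by
      have h1 := Finset.ext_iff.1 h a
      simpa [lv] using h1
    simp [restrict, this]
  | node l r ihl ihr =>
    have hl : l.lv ∩ L = l.lv ∩ L' := by
      have : l.lv ∩ (l.lv ∪ r.lv) = l.lv := Finset.inter_eq_left.2 Finset.subset_union_left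
      rw [← this, Finset.inter_assoc, Finset.inter_assoc]
      exact congrArg _ h
    have hr : r.lv ∩ L = r.lv ∩ L' := by
      have : r.lv ∩ (l.lv ∪ r.lv) = r.lv := Finset.inter_eq_left.2 Finset.subset_union_right
      rw [← this, Finset.inter_assoc, Finset.inter_assoc]
      exact congrArg _ h
    simp [restrict, ihl hl, ihr hr]

/-- Every binary hierarchy is the family of the clusters of a tree. -/
theorem exists_tree {T : Finset (Finset α)} (hne : ∀ A ∈ T, A.Nonempty)
    (hlam : ∀ A ∈ T, ∀ B ∈ T, A ⊆ B ∨ B ⊆ A ∨ Disjoint A B)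
    (hbin : ∀ A ∈ T, 2 ≤ A.card → ∃ B ∈ T, ∃ D ∈ T, Disjoint B D ∧ B ∪ D = A) (N : ℕ) :
    ∀ X ∈ T, X.card = N → ∃ t : BT α, t.wf ∧ t.lv = X ∧ ∀ A, A ∈ t.fam ↔ A ∈ T ∧ A ⊆ X := by
  induction N using Nat.strong_induction_on with
  | _ N ih =>
    intro X hX hN
    rcases Nat.lt_or_ge X.card 2 with h2 | h2
    · have h0 := Finset.card_pos.2 (hne X hX)
      obtain ⟨a, rfl⟩ := Finset.card_eq_one.1 (show X.card = 1 by omega)
      refine ⟨.leaf a, trivial, rfl, fun A => ?_⟩
      simp only [fam, Finset.mem_singleton]
      constructor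
      · rintro rfl
        exact ⟨hX, Finset.Subset.refl _⟩
      · rintro ⟨h1, h3⟩
        rcases Finset.subset_singleton_iff.1 h3 with h4 | h4
        · exact absurd h4 (hne A h1).ne_empty
        · exact h4
    · obtain ⟨B, hB, D, hD, hBD, hU⟩ := hbin X hX h2
      have cB := Finset.card_pos.2 (hne B hB)
      have cD := Finset.card_pos.2 (hne D hD)
      have cX : X.card = B.card + D.card := by rw [← hU, Finset.card_union_of_disjoint hBD]
      obtain ⟨tB, wB, lB, fB⟩ := ih B.card (by omega) B hB rfl
      obtain ⟨tD, wD, lD, fD⟩ := ih D.card (by omega) D hD rfl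
      refine ⟨.node tB tD, ⟨by rw [lB, lD]; exact hBD, wB, wD⟩, by rw [lv, lB, lD, hU], ?_⟩
      intro A
      rw [fam, Finset.mem_insert, Finset.mem_union, fB, fD, lB, lD, hU]
      constructor
      · rintro (rfl | ⟨h1, h3⟩ | ⟨h1, h3⟩)
        · exact ⟨hX, Finset.Subset.refl _⟩
        · exact ⟨h1, h3.trans (hU ▸ Finset.subset_union_left)⟩
        · exact ⟨h1, h3.trans (hU ▸ Finset.subset_union_right)⟩
      · rintro ⟨h1, h3⟩
        rw [← hU] at h3 ⊢
        have sub_of_disj : ∀ {P R : Finset α}, A ⊆ P ∪ R → Disjoint A P → A ⊆ R := by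
          intro P R h4 h5 x hx
          rcases Finset.mem_union.1 (h4 hx) with h6 | h6
          · exact absurd h6 (Finset.disjoint_left.1 h5 hx)
          · exact h6
        rcases hlam A h1 B hB with h4 | h4 | h4
        · exact Or.inr (Or.inl ⟨h1, h4⟩)
        · rcases hlam A h1 D hD with h5 | h5 | h5
          · exact Or.inr (Or.inr ⟨h1, h5⟩)
          · left
            exact Finset.Subset.antisymm h3 (Finset.union_subset h4 h5)
          · right; left
            exact ⟨h1, sub_of_disj (by rwa [Finset.union_comm] at h3) h5⟩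
        · exact Or.inr (Or.inr ⟨h1, sub_of_disj h3 h4⟩)

/-- the evenness condition, in terms of clusters -/
def EvenFam (G : Finset (Finset α)) : Prop :=
  ∀ A ∈ G, ∀ B ∈ G, B ⊂ A → (∀ D ∈ G, B ⊆ D → D ⊆ A → D = B ∨ D = A) →
    A.card ≤ 2 * B.card + 1 ∧ 2 * B.card ≤ A.card + 1

theorem even_of_evenFam {t : BT α} (ht : t.wf) (h : EvenFam t.fam) : t.even := by
  induction t with
  | leaf a => trivial
  | node l r ihl ihr =>
    obtain ⟨hd, hl, hr⟩ := ht
    have hnl : ∀ x, x ∈ l.lv → x ∈ r.lv → False := fun x h1 h2 => Finset.disjoint_left.1 hd h1 h2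
    obtain ⟨xl, hxl⟩ := lv_nonempty l
    obtain ⟨xr, hxr⟩ := lv_nonempty r
    have hcard : (node l r).lv.card = l.lv.card + r.lv.card := Finset.card_union_of_disjoint hd
    refine ⟨?_, ihl hl ?_, ihr hr ?_⟩
    · have h1 := h (l.lv ∪ r.lv) (Finset.mem_insert_self _ _) l.lv
        (Finset.mem_insert_of_mem (Finset.mem_union_left _ (lv_mem_fam l)))
        ⟨Finset.subset_union_left, fun hc => hnl xr (hc (Finset.mem_union_right _ hxr)) hxr⟩ ?_
      · have h2 : (l.lv ∪ r.lv).card = l.lv.card + r.lv.card := hcard
        omega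
      · intro D hD h3 h4
        rcases Finset.mem_insert.1 hD with h5 | h5
        · exact Or.inr h5
        · rcases Finset.mem_union.1 h5 with h6 | h6
          · exact Or.inl (Finset.Subset.antisymm (of_mem_fam h6).2 h3)
          · exact absurd ((of_mem_fam h6).2 (h3 hxl)) (fun h7 => hnl xl hxl h7)
    · intro A hA B hB hBA hmax
      refine h A (Finset.mem_insert_of_mem (Finset.mem_union_left _ hA)) B
        (Finset.mem_insert_of_mem (Finset.mem_union_left _ hB)) hBA ?_
      intro D hD h3 h4
      have hAl := (of_mem_fam hA).2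
      rcases Finset.mem_insert.1 hD with h5 | h5
      · exfalso
        subst h5
        exact hnl xr (hAl (h4 (Finset.mem_union_right _ hxr))) hxr
      · rcases Finset.mem_union.1 h5 with h6 | h6
        · exact hmax D h6 h3 h4
        · exfalso
          obtain ⟨x, hx⟩ := (of_mem_fam h6).1
          exact hnl x (hAl (h4 hx)) ((of_mem_fam h6).2 hx)
    · intro A hA B hB hBA hmax
      refine h A (Finset.mem_insert_of_mem (Finset.mem_union_right _ hA)) B
        (Finset.mem_insert_of_mem (Finset.mem_union_right _ hB)) hBA ?_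
      intro D hD h3 h4
      have hAr := (of_mem_fam hA).2
      rcases Finset.mem_insert.1 hD with h5 | h5
      · exfalso
        subst h5
        exact hnl xl hxl (hAr (h4 (Finset.mem_union_left _ hxl)))
      · rcases Finset.mem_union.1 h5 with h6 | h6
        · exfalso
          obtain ⟨x, hx⟩ := (of_mem_fam h6).1
          exact hnl x ((of_mem_fam h6).2 hx) (hAr (h4 hx))
        · exact hmax D h6 h3 h4

/-- Isomorphism of labelled trees, via their clusters. -/
def Iso (s : BT α) (s' : BT β) : Prop :=
  ∃ f : α → β, Set.InjOn f s.lv ∧ s.lv.image f = s'.lv ∧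
    ∀ B, B ⊆ s.lv → (B ∈ s.fam ↔ B.image f ∈ s'.fam)

theorem iso_node {l r : BT α} {l' r' : BT β} (h : (node l r).wf) (h' : (node l' r').wf)
    (h1 : Iso l l') (h2 : Iso r r') : Iso (node l r) (node l' r') := by
  obtain ⟨f1, i1, e1, c1⟩ := h1
  obtain ⟨f2, i2, e2, c2⟩ := h2
  have hd := h.1
  have hd' := h'.1
  have hnl : ∀ x, x ∈ r.lv → x ∉ l.lv := fun x h1 h2 => Finset.disjoint_left.1 hd h2 h1
  set f : α → β := fun x => if x ∈ l.lv then f1 x else f2 x with hf
  have hfl : ∀ x ∈ l.lv, f x = f1 x := fun x hx => by simp [hf, hx]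
  have hfr : ∀ x ∈ r.lv, f x = f2 x := fun x hx => by simp [hf, hnl x hx]
  have himl : ∀ B, B ⊆ l.lv → B.image f = B.image f1 := fun B hB =>
    Finset.image_congr fun x hx => hfl x (hB hx)
  have himr : ∀ B, B ⊆ r.lv → B.image f = B.image f2 := fun B hB =>
    Finset.image_congr fun x hx => hfr x (hB hx)
  have hml : ∀ x ∈ l.lv, f x ∈ l'.lv := fun x hx => by
    rw [hfl x hx, ← e1]; exact Finset.mem_image_of_mem _ hx
  have hmr : ∀ x ∈ r.lv, f x ∈ r'.lv := fun x hx => by
    rw [hfr x hx, ← e2]; exact Finset.mem_image_of_mem _ hx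
  have hinj : Set.InjOn f (node l r).lv := by
    intro x hx y hy hxy
    have hx' : x ∈ l.lv ∪ r.lv := hx
    have hy' : y ∈ l.lv ∪ r.lv := hy
    rcases Finset.mem_union.1 hx' with hx1 | hx1 <;> rcases Finset.mem_union.1 hy' with hy1 | hy1
    · rw [hfl x hx1, hfl y hy1] at hxy
      exact i1 hx1 hy1 hxy
    · exact absurd (hmr y hy1) (fun h => Finset.disjoint_left.1 hd' (hml x hx1) (hxy ▸ h))
    · exact absurd (hml y hy1) (fun h => Finset.disjoint_left.1 hd' (hxy ▸ h) (hmr x hx1))
    · rw [hfr x hx1, hfr y hy1] at hxy
      exact i2 hx1 hy1 hxy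
  have himg : (node l r).lv.image f = (node l' r').lv := by
    show (l.lv ∪ r.lv).image f = l'.lv ∪ r'.lv
    rw [Finset.image_union, himl _ (Finset.Subset.refl _), himr _ (Finset.Subset.refl _), e1, e2]
  refine ⟨f, hinj, himg, ?_⟩
  intro B hB
  have hB' : B ⊆ l.lv ∪ r.lv := hB
  constructor
  · intro hBf
    rcases Finset.mem_insert.1 hBf with h3 | h3
    · rw [h3]
      have : (l.lv ∪ r.lv).image f = l'.lv ∪ r'.lv := himg
      rw [this]
      exact Finset.mem_insert_self _ _
    · rcases Finset.mem_union.1 h3 with h4 | h4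
      · have h5 := (of_mem_fam h4).2
        rw [himl B h5]
        exact Finset.mem_insert_of_mem (Finset.mem_union_left _ ((c1 B h5).1 h4))
      · have h5 := (of_mem_fam h4).2
        rw [himr B h5]
        exact Finset.mem_insert_of_mem (Finset.mem_union_right _ ((c2 B h5).1 h4))
  · intro hBf
    rcases Finset.mem_insert.1 hBf with h3 | h3
    · have h4 : B = l.lv ∪ r.lv := by
        refine Finset.Subset.antisymm hB' ?_
        intro x hx
        have h5 : f x ∈ B.image f := by
          rw [h3]
          rw [← show (l.lv ∪ r.lv).image f = l'.lv ∪ r'.lv from himg]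
          exact Finset.mem_image_of_mem _ hx
        obtain ⟨y, hy, hxy⟩ := Finset.mem_image.1 h5
        have : y = x := hinj (hB' hy) hx hxy
        exact this ▸ hy
      rw [h4]
      exact Finset.mem_insert_self _ _
    · rcases Finset.mem_union.1 h3 with h4 | h4
      · have h5 : B ⊆ l.lv := by
          intro x hx
          rcases Finset.mem_union.1 (hB' hx) with h6 | h6
          · exact h6
          · exfalso
            exact Finset.disjoint_left.1 hd'
              ((of_mem_fam h4).2 (Finset.mem_image_of_mem f hx)) (hmr x h6)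
        rw [himl B h5] at h4
        exact Finset.mem_insert_of_mem (Finset.mem_union_left _ ((c1 B h5).2 h4))
      · have h5 : B ⊆ r.lv := by
          intro x hx
          rcases Finset.mem_union.1 (hB' hx) with h6 | h6
          · exfalso
            exact Finset.disjoint_left.1 hd' (hml x h6)
              ((of_mem_fam h4).2 (Finset.mem_image_of_mem f hx))
          · exact h6
        rw [himr B h5] at h4
        exact Finset.mem_insert_of_mem (Finset.mem_union_right _ ((c2 B h5).2 h4))

theorem iso_swap {s : BT α} {l' r' : BT β} (h : Iso s (node r' l')) : Iso s (node l' r') := by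
  obtain ⟨f, h1, h2, h3⟩ := h
  have e1 : (node r' l').lv = (node l' r').lv := Finset.union_comm _ _
  have e2 : (node r' l').fam = (node l' r').fam := by
    show insert (r'.lv ∪ l'.lv) (r'.fam ∪ l'.fam) = insert (l'.lv ∪ r'.lv) (l'.fam ∪ r'.fam)
    rw [Finset.union_comm r'.lv, Finset.union_comm r'.fam]
  exact ⟨f, h1, by rw [h2, e1], fun B hB => by rw [h3 B hB, e2]⟩

theorem card_lv_node {l r : BT α} (h : (node l r).wf) :
    (node l r).lv.card = l.lv.card + r.lv.card := Finset.card_union_of_disjoint h.1

theorem iso_of_even : ∀ (s : BT α) (s' : BT β), s.wf → s'.wf → s.even → s'.even →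
    s.lv.card = s'.lv.card → Iso s s' := by
  intro s
  induction s with
  | leaf a =>
    intro s' _ hw' _ _ hc
    cases s' with
    | leaf b =>
      refine ⟨fun _ => b, ?_, ?_, ?_⟩
      · intro x hx y hy _
        have hx' : x = a := Finset.mem_singleton.1 hx
        have hy' : y = a := Finset.mem_singleton.1 hy
        rw [hx', hy']
      · simp [lv]
      · intro B hB
        rcases Finset.subset_singleton_iff.1 (show B ⊆ {a} from hB) with h | h
        · subst h
          simp [fam]
        · subst h
          simp [fam]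
    | node l' r' =>
      rw [card_lv_node hw'] at hc
      have h1 := Finset.card_pos.2 (lv_nonempty l')
      have h2 := Finset.card_pos.2 (lv_nonempty r')
      have h3 : (leaf a).lv.card = 1 := Finset.card_singleton a
      omega
  | node l r ihl ihr =>
    intro s' hw hw' he he' hc
    cases s' with
    | leaf b =>
      rw [card_lv_node hw] at hc
      have h1 := Finset.card_pos.2 (lv_nonempty l)
      have h2 := Finset.card_pos.2 (lv_nonempty r)
      have h3 : (leaf b).lv.card = 1 := Finset.card_singleton b
      omega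
    | node l' r' =>
      rw [card_lv_node hw, card_lv_node hw'] at hc
      obtain ⟨⟨b1, b2⟩, hel, her⟩ := he
      obtain ⟨⟨b1', b2'⟩, hel', her'⟩ := he'
      by_cases hll : l.lv.card = l'.lv.card
      · exact iso_node hw hw' (ihl l' hw.2.1 hw'.2.1 hel hel' hll)
          (ihr r' hw.2.2 hw'.2.2 her her' (by omega))
      · refine iso_swap (iso_node hw ⟨hw'.1.symm, hw'.2.2, hw'.2.1⟩
          (ihl r' hw.2.1 hw'.2.2 hel her' (by omega))
          (ihr l' hw.2.2 hw'.2.1 her hel' (by omega)))

end BT

end Pool.Agent.H132R3
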