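import Mathlib

set_option autoImplicit false

open Cardinal Set

namespace Pool.Agent.H132R3.SplitAdd

/-- `𝒰` is an open cover of the set of reals `X`: its members are (relatively) open subsets of
`X`, its union is `X`, and `X` is not one of its members. -/
def OpenCover (X : Set ℝ) (𝒰 : Set (Set ℝ)) : Prop :=
  (∀ U ∈ 𝒰, ∃ V : Set ℝ, IsOpen V ∧ U = V ∩ X) ∧ ⋃₀ 𝒰 = X ∧ X ∉ 𝒰

/-- `𝒰` is an open large cover of `X`: every point of `X` is in infinitely many members. -/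
def Large (X : Set ℝ) (𝒰 : Set (Set ℝ)) : Prop :=
  OpenCover X 𝒰 ∧ ∀ x ∈ X, {U : Set ℝ | U ∈ 𝒰 ∧ x ∈ U}.Infinite

/-- `𝒰` is an open `ω`-cover of `X`: every finite subset of `X` is contained in a member. -/
def Omega (X : Set ℝ) (𝒰 : Set (Set ℝ)) : Prop :=
  OpenCover X 𝒰 ∧ ∀ F : Set ℝ, F.Finite → F ⊆ X → ∃ U ∈ 𝒰, F ⊆ U

/-- `X` satisfies `Split(Ω, Λ)`: every open `ω`-cover is the union of two disjoint subfamilies,
each of which contains an open large cover. -/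
def SplitOL (X : Set ℝ) : Prop :=
  ∀ 𝒰 : Set (Set ℝ), Omega X 𝒰 → ∃ 𝒱 𝒲 : Set (Set ℝ), 𝒱 ∪ 𝒲 = 𝒰 ∧ Disjoint 𝒱 𝒲 ∧
    (∃ 𝒱' ⊆ 𝒱, Large X 𝒱') ∧ ∃ 𝒲' ⊆ 𝒲, Large X 𝒲'

/-- The additivity number of `Split(Ω, Λ)`. -/
noncomputable def addSplit : Cardinal.{0} :=
  sInf {κ | ∃ 𝓕 : Set (Set ℝ), #𝓕 = κ ∧ (∀ X ∈ 𝓕, SplitOL X) ∧ ¬ SplitOL (⋃₀ 𝓕)}

/-- `B` is a base of a nonprincipal ultrafilter on `ℕ`. -/
def IsUltraBase (B : Set (Set ℕ)) : Prop :=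
  ∃ p : Ultrafilter ℕ, (∀ n, ({n} : Set ℕ) ∉ p) ∧ (∀ A ∈ B, A ∈ p) ∧ ∀ A ∈ p, ∃ C ∈ B, C ⊆ A

/-- The ultrafilter number `𝔲`: the least cardinality of a base of a nonprincipal ultrafilter
on `ℕ`. -/
noncomputable def ultraNumber : Cardinal.{0} :=
  sInf {κ | ∃ B : Set (Set ℕ), IsUltraBase B ∧ #B = κ}

/-! ### Basic facts about `ω`-covers -/

theorem omega_infinite {X : Set ℝ} {𝒰 : Set (Set ℝ)} (h : Omega X 𝒰) {F : Set ℝ}
    (hF : F.Finite) (hFX : F ⊆ X) : {U : Set ℝ | U ∈ 𝒰 ∧ F ⊆ U}.Infinite := by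
  intro hfin
  have hy : ∀ U ∈ {U : Set ℝ | U ∈ 𝒰 ∧ F ⊆ U}, ∃ y ∈ X, y ∉ U := by
    rintro U ⟨hU, -⟩
    by_contra hcon
    push Not at hcon
    have hUX : U ⊆ X := by
      obtain ⟨V, -, rfl⟩ := h.1.1 U hU
      exact inter_subset_right
    exact h.1.2.2 ((hUX.antisymm hcon) ▸ hU)
  choose! y hy1 hy2 using hy
  obtain ⟨U, hU, hFU⟩ := h.2 (F ∪ y '' {U : Set ℝ | U ∈ 𝒰 ∧ F ⊆ U}) (hF.union (hfin.image y)) (by
    rintro x (hx | ⟨U, hU, rfl⟩)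
    · exact hFX hx
    · exact hy1 U hU)
  have hUm : U ∈ {U : Set ℝ | U ∈ 𝒰 ∧ F ⊆ U} := ⟨hU, fun x hx => hFU (Or.inl hx)⟩
  exact hy2 U hUm (hFU (Or.inr ⟨U, hUm, rfl⟩))

theorem openCover_sub {X : Set ℝ} {𝒰 𝒰' : Set (Set ℝ)} (h : OpenCover X 𝒰) (hs : 𝒰' ⊆ 𝒰)
    (hc : ∀ x ∈ X, ∃ U ∈ 𝒰', x ∈ U) : OpenCover X 𝒰' := by
  refine ⟨fun U hU => h.1 U (hs hU), ?_, fun hX => h.2.2 (hs hX)⟩
  apply Set.Subset.antisymm
  · rintro x ⟨U, hU, hx⟩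
    rw [← h.2.1]
    exact ⟨U, hs hU, hx⟩
  · intro x hx
    obtain ⟨U, hU, hxU⟩ := hc x hx
    exact ⟨U, hU, hxU⟩

theorem exists_countable_omega {X : Set ℝ} {𝒰 : Set (Set ℝ)} (h : Omega X 𝒰) :
    ∃ 𝒰' ⊆ 𝒰, 𝒰'.Countable ∧ Omega X 𝒰' := by
  classical
  set b := TopologicalSpace.countableBasis ℝ with hb
  have hbc : b.Countable := TopologicalSpace.countable_countableBasis ℝ
  set T : Set (Set (Set ℝ)) := {t | Set.Finite t ∧ t ⊆ b} with hT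
  have hTc : T.Countable := Set.countable_ofPred_finite_subset hbc
  have hch : ∀ t : Set (Set ℝ), ∃ U : Set ℝ, (∃ W ∈ 𝒰, (⋃₀ t) ∩ X ⊆ W) →
      (U ∈ 𝒰 ∧ (⋃₀ t) ∩ X ⊆ U) := by
    intro t
    by_cases hW : ∃ W ∈ 𝒰, (⋃₀ t) ∩ X ⊆ W
    · obtain ⟨W, hW1, hW2⟩ := hW
      exact ⟨W, fun _ => ⟨hW1, hW2⟩⟩
    · exact ⟨∅, fun hh => absurd hh hW⟩
  choose g hg using hch
  set 𝒰' : Set (Set ℝ) := g '' {t | t ∈ T ∧ ∃ W ∈ 𝒰, (⋃₀ t) ∩ X ⊆ W} with hU'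
  have hsub : 𝒰' ⊆ 𝒰 := by
    rintro U ⟨t, ⟨-, ht⟩, rfl⟩
    exact (hg t ht).1
  have hom : ∀ F : Set ℝ, F.Finite → F ⊆ X → ∃ U ∈ 𝒰', F ⊆ U := by
    intro F hF hFX
    obtain ⟨U, hU, hFU⟩ := h.2 F hF hFX
    obtain ⟨V, hV, hUV⟩ := h.1.1 U hU
    have hx : ∀ x ∈ F, ∃ v ∈ b, x ∈ v ∧ v ⊆ V := by
      intro x hx
      have hxV : x ∈ V := by
        have := hFU hx
        rw [hUV] at this
        exact this.1
      obtain ⟨v, hv, hxv, hvV⟩ :=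
        (TopologicalSpace.isBasis_countableBasis ℝ).exists_subset_of_mem_open hxV hV
      exact ⟨v, hv, hxv, hvV⟩
    choose! v hv1 hv2 hv3 using hx
    have ht : (v '' F) ∈ T := ⟨hF.image v, by rintro _ ⟨x, hx, rfl⟩; exact hv1 x hx⟩
    have ht2 : ∃ W ∈ 𝒰, (⋃₀ (v '' F)) ∩ X ⊆ W := by
      refine ⟨U, hU, ?_⟩
      rintro y ⟨⟨_, ⟨x, hx, rfl⟩, hy⟩, hyX⟩
      rw [hUV]
      exact ⟨hv3 x hx hy, hyX⟩
    refine ⟨g (v '' F), ⟨_, ⟨ht, ht2⟩, rfl⟩, ?_⟩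
    intro x hx
    exact (hg _ ht2).2 ⟨⟨v x, ⟨x, hx, rfl⟩, hv2 x hx⟩, hFX hx⟩
  refine ⟨𝒰', hsub, (hTc.mono fun t ht => ht.1).image g, openCover_sub h.1 hsub ?_, hom⟩
  intro x hx
  obtain ⟨U, hU, hxU⟩ := hom {x} (Set.finite_singleton x) (by simpa using hx)
  exact ⟨U, hU, hxU rfl⟩

/-! ### Sets of size less than `𝔲` -/

theorem ultraNumber_le {B : Set (Set ℕ)} (hB : IsUltraBase B) : ultraNumber ≤ #B :=
  csInf_le' ⟨B, hB, rfl⟩

theorem small_of_enum {X : Set ℝ} (hX : X.Infinite) (e : ℕ → Set ℝ)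
    (hom : ∀ F : Finset ℝ, (F : Set ℝ) ⊆ X → ∀ k, ∃ n, k ≤ n ∧ (F : Set ℝ) ⊆ e n)
    (hns : ∀ S : Set ℕ, ∃ x ∈ X, {n | n ∈ S ∧ x ∈ e n}.Finite ∨ {n | n ∉ S ∧ x ∈ e n}.Finite) :
    ultraNumber ≤ #X := by
  classical
  let f : Filter ℕ :=
    { sets := {S | ∃ F : Finset X, ∃ k : ℕ, ∀ n, k ≤ n → (∀ x ∈ F, (x : ℝ) ∈ e n) → n ∈ S}
      univ_sets := ⟨∅, 0, fun _ _ _ => trivial⟩
      sets_of_superset := by
        rintro S T ⟨F, k, h⟩ hST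
        exact ⟨F, k, fun n hn hF => hST (h n hn hF)⟩
      inter_sets := by
        rintro S T ⟨F, k, h⟩ ⟨F', k', h'⟩
        refine ⟨F ∪ F', max k k', fun n hn hF => ⟨h n (le_trans (le_max_left _ _) hn) ?_,
          h' n (le_trans (le_max_right _ _) hn) ?_⟩⟩
        · exact fun x hx => hF x (Finset.mem_union_left _ hx)
        · exact fun x hx => hF x (Finset.mem_union_right _ hx) }
  have hf : ∀ S : Set ℕ, S ∈ f ↔
      ∃ F : Finset X, ∃ k : ℕ, ∀ n, k ≤ n → (∀ x ∈ F, (x : ℝ) ∈ e n) → n ∈ S := fun S => Iff.rfl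
  have hne : ∀ S ∈ f, S.Nonempty := by
    intro S hS
    obtain ⟨F, k, h⟩ := (hf S).1 hS
    obtain ⟨n, hkn, hn⟩ := hom (F.image (fun x : X => (x : ℝ))) (by
      intro y hy
      simp only [Finset.coe_image, Set.mem_image] at hy
      obtain ⟨x, -, rfl⟩ := hy
      exact x.2) k
    refine ⟨n, h n hkn ?_⟩
    intro x hx
    exact hn (by simp only [Finset.coe_image, Set.mem_image]; exact ⟨x, hx, rfl⟩)
  have hult : ∀ S : Set ℕ, Sᶜ ∉ f ↔ S ∈ f := by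
    intro S
    constructor
    · intro hS
      obtain ⟨x, hx, h | h⟩ := hns S
      · exfalso
        apply hS
        obtain ⟨k, hk⟩ := h.bddAbove
        refine (hf _).2 ⟨{⟨x, hx⟩}, k + 1, fun n hn hF hnS => ?_⟩
        have := hk ⟨hnS, hF ⟨x, hx⟩ (Finset.mem_singleton_self _)⟩
        omega
      · obtain ⟨k, hk⟩ := h.bddAbove
        refine (hf _).2 ⟨{⟨x, hx⟩}, k + 1, fun n hn hF => ?_⟩
        by_contra hnS
        have := hk ⟨hnS, hF ⟨x, hx⟩ (Finset.mem_singleton_self _)⟩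
        omega
    · intro hS hSc
      obtain ⟨n, hn⟩ := hne _ (f.inter_sets hS hSc)
      exact hn.2 hn.1
  let p : Ultrafilter ℕ := Ultrafilter.ofComplNotMemIff f hult
  have hp : ∀ S : Set ℕ, S ∈ p ↔ S ∈ f := fun S => Iff.rfl
  let B : Set (Set ℕ) := Set.range fun q : Finset X × ℕ =>
    {n : ℕ | q.2 ≤ n ∧ ∀ x ∈ q.1, (x : ℝ) ∈ e n}
  have hB : IsUltraBase B := by
    refine ⟨p, ?_, ?_, ?_⟩
    · intro n hn
      obtain ⟨m, hm⟩ := hne _ (f.inter_sets ((hp _).1 hn)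
        ((hf {m | n + 1 ≤ m}).2 ⟨∅, n + 1, fun m hm _ => hm⟩))
      have h1 : m = n := hm.1
      have h2 : n + 1 ≤ m := hm.2
      omega
    · rintro _ ⟨⟨F, k⟩, rfl⟩
      exact (hp _).2 ((hf _).2 ⟨F, k, fun n hn hF => ⟨hn, hF⟩⟩)
    · intro A hA
      obtain ⟨F, k, h⟩ := (hf A).1 ((hp A).1 hA)
      exact ⟨_, ⟨⟨F, k⟩, rfl⟩, fun n hn => h n hn.1 hn.2⟩
  have : Infinite X := hX.to_subtype
  calc ultraNumber ≤ #B := ultraNumber_le hB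
    _ ≤ #(Finset X × ℕ) := mk_range_le
    _ = #X := by
      rw [mk_prod, mk_finset_of_infinite, lift_id, lift_id, mk_nat]
      exact mul_eq_left (aleph0_le_mk X) (aleph0_le_mk X) aleph0_ne_zero

theorem split_of_lt {X : Set ℝ} (hX : #X < ultraNumber) : SplitOL X := by
  classical
  intro 𝒰 h𝒰
  obtain ⟨𝒰', hsub, hcount, hom⟩ := exists_countable_omega h𝒰
  -- `X` is infinite
  have hXinf : X.Infinite := by
    intro hfin
    obtain ⟨U, hU, hXU⟩ := h𝒰.2 X hfin subset_rfl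
    have hUX : U ⊆ X := by
      obtain ⟨V, -, rfl⟩ := h𝒰.1.1 U hU
      exact inter_subset_right
    exact h𝒰.1.2.2 ((hUX.antisymm hXU) ▸ hU)
  have hinf : 𝒰'.Infinite := by
    have := omega_infinite hom Set.finite_empty (Set.empty_subset X)
    exact this.mono fun U hU => hU.1
  have : Infinite 𝒰' := hinf.to_subtype
  have : Countable 𝒰' := hcount.to_subtype
  obtain ⟨e⟩ : Nonempty (ℕ ≃ 𝒰') := by
    have := Cardinal.mk_eq_aleph0 𝒰'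
    exact Cardinal.eq.1 (by rw [this, mk_nat])
  by_contra hcon
  refine absurd hX (not_lt.2 (small_of_enum hXinf (fun n => (e n : Set ℝ)) ?_ ?_))
  · intro F hFX k
    have h1 := omega_infinite hom F.finite_toSet hFX
    have h2 : {n : ℕ | (F : Set ℝ) ⊆ (e n : Set ℝ)}.Infinite := by
      intro hfin
      apply h1
      refine (hfin.image fun n => (e n : Set ℝ)).subset ?_
      rintro U ⟨hU, hFU⟩
      refine ⟨e.symm ⟨U, hU⟩, ?_, ?_⟩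
      · simpa using hFU
      · simp
    obtain ⟨n, hn, hkn⟩ := h2.exists_gt k
    exact ⟨n, hkn.le, hn⟩
  · intro S
    by_contra hS
    push Not at hS
    apply hcon
    have key : ∀ S' : Set ℕ, (∀ x ∈ X, {n | n ∈ S' ∧ x ∈ (e n : Set ℝ)}.Infinite) →
        Large X ((fun n => (e n : Set ℝ)) '' S') := by
      intro S' hS'
      have hl : ∀ x ∈ X, {U : Set ℝ | U ∈ ((fun n => (e n : Set ℝ)) '' S') ∧ x ∈ U}.Infinite := by
        intro x hx hfin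
        apply hS' x hx
        have hinj : Function.Injective (fun n => (e n : Set ℝ)) :=
          Subtype.val_injective.comp e.injective
        refine (hfin.preimage (hinj.injOn)).subset ?_
        rintro n ⟨hn, hxn⟩
        exact ⟨⟨n, hn, rfl⟩, hxn⟩
      refine ⟨openCover_sub hom.1 ?_ ?_, hl⟩
      · rintro _ ⟨n, -, rfl⟩
        exact (e n).2
      · intro x hx
        obtain ⟨U, hU⟩ := (hl x hx).nonempty
        exact ⟨U, hU.1, hU.2⟩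
    refine ⟨((fun n => (e n : Set ℝ)) '' S), 𝒰 \ ((fun n => (e n : Set ℝ)) '' S), ?_, ?_, ?_, ?_⟩
    · rw [Set.union_sdiff_self]
      apply Set.union_eq_self_of_subset_left
      rintro _ ⟨n, -, rfl⟩
      exact hsub (e n).2
    · exact Set.disjoint_sdiff_right
    · exact ⟨_, subset_rfl, key S fun x hx => (hS x hx).1⟩
    · refine ⟨(fun n => (e n : Set ℝ)) '' Sᶜ, ?_, key Sᶜ fun x hx => (hS x hx).2⟩
      rintro _ ⟨n, hn, rfl⟩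
      refine ⟨hsub (e n).2, ?_⟩
      rintro ⟨m, hm, hmn⟩
      have : m = n := e.injective (Subtype.ext hmn)
      exact hn (this ▸ hm)

/-! ### A set of size `𝔲` -/

/-- A copy of the power set of `ℕ` inside the Cantor set. -/
noncomputable def emb (A : Set ℕ) : ℝ :=
  open Classical in (cantorSetHomeomorphNatToBool.symm fun n => decide (n ∈ A) : cantorSet)

theorem emb_injective : Function.Injective emb := by
  classical
  intro A B h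
  have h1 := cantorSetHomeomorphNatToBool.symm.injective (Subtype.ext h)
  ext n
  have := congrFun h1 n
  simpa using this

theorem exists_open (n : ℕ) : ∃ V : Set ℝ, IsOpen V ∧ ∀ A : Set ℕ, emb A ∈ V ↔ n ∈ A := by
  classical
  have h1 : IsOpen {y : cantorSet | cantorSetHomeomorphNatToBool y n = true} := by
    have hc : Continuous fun y : cantorSet => cantorSetHomeomorphNatToBool y n :=
      (continuous_apply n).comp cantorSetHomeomorphNatToBool.continuous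
    exact (isOpen_discrete ({true} : Set Bool)).preimage hc
  obtain ⟨V, hV, hVeq⟩ := isOpen_induced_iff.1 h1
  refine ⟨V, hV, fun A => ?_⟩
  have h2 : emb A ∈ V ↔ (cantorSetHomeomorphNatToBool.symm fun n => decide (n ∈ A)) ∈
      (Subtype.val ⁻¹' V : Set cantorSet) := Iff.rfl
  rw [h2, hVeq]
  simp

theorem not_split {B : Set (Set ℕ)} (hB : IsUltraBase B) : ¬ SplitOL (emb '' B) := by
  classical
  obtain ⟨p, hp1, hp2, hp3⟩ := hB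
  intro hs
  let W : ℕ → Set ℝ := fun n => {y | ∃ A ∈ B, n ∈ A ∧ emb A = y}
  have hW : ∀ n, ∀ A ∈ B, emb A ∈ W n ↔ n ∈ A := by
    intro n A hA
    constructor
    · rintro ⟨A', -, hn, hAA⟩
      rwa [← emb_injective hAA]
    · exact fun hn => ⟨A, hA, hn, rfl⟩
  have hom : Omega (emb '' B) (Set.range W) := by
    have hF : ∀ F : Set ℝ, F.Finite → F ⊆ emb '' B → ∃ U ∈ Set.range W, F ⊆ U := by
      intro F hF hFX
      have h1 : (⋂ A ∈ (emb ⁻¹' F ∩ B), A) ∈ p := by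
        have hfin : (emb ⁻¹' F ∩ B).Finite :=
          (hF.preimage emb_injective.injOn).subset inter_subset_left
        exact (Filter.biInter_mem hfin).2 fun A hA => hp2 A hA.2
      obtain ⟨n, hn⟩ := p.nonempty_of_mem h1
      refine ⟨W n, ⟨n, rfl⟩, fun x hx => ?_⟩
      obtain ⟨A, hA, rfl⟩ := hFX hx
      refine (hW n A hA).2 ?_
      simp only [Set.mem_iInter] at hn
      exact hn A ⟨hx, hA⟩
    refine ⟨⟨?_, ?_, ?_⟩, hF⟩
    · rintro _ ⟨n, rfl⟩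
      obtain ⟨V, hV, hVA⟩ := exists_open n
      refine ⟨V, hV, ?_⟩
      ext y
      constructor
      · rintro ⟨A, hA, hn, rfl⟩
        exact ⟨(hVA A).2 hn, A, hA, rfl⟩
      · rintro ⟨hy, A, hA, rfl⟩
        exact ⟨A, hA, (hVA A).1 hy, rfl⟩
    · apply Set.Subset.antisymm
      · rintro y ⟨_, ⟨n, rfl⟩, A, hA, -, rfl⟩
        exact ⟨A, hA, rfl⟩
      · rintro y hy
        obtain ⟨U, hU, hyU⟩ := hF {y} (Set.finite_singleton y) (by simpa using hy)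
        exact ⟨U, hU, hyU rfl⟩
    · rintro ⟨n, hn⟩
      have h1 : ({n} : Set ℕ)ᶜ ∈ p := by
        rcases Ultrafilter.mem_or_compl_mem p {n} with h | h
        · exact absurd h (hp1 n)
        · exact h
      obtain ⟨C, hC, hCn⟩ := hp3 _ h1
      have h2 : emb C ∈ W n := by rw [hn]; exact ⟨C, hC, rfl⟩
      exact hCn ((hW n C hC).1 h2) rfl
  obtain ⟨𝒱, 𝒲, hu, hd, ⟨𝒱', hV, hVl⟩, 𝒲', hW', hWl⟩ := hs _ hom
  have key : ∀ 𝒜 𝒜' : Set (Set ℝ), 𝒜' ⊆ 𝒜 → 𝒜 ⊆ Set.range W → Large (emb '' B) 𝒜' →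
      {n | W n ∈ 𝒜}ᶜ ∉ p := by
    intro 𝒜 𝒜' h1 h1' h2 h3
    obtain ⟨C, hC, hCn⟩ := hp3 _ h3
    have h4 := (h2.2 (emb C) ⟨C, hC, rfl⟩).nonempty
    obtain ⟨U, hU, hCU⟩ := h4
    obtain ⟨n, rfl⟩ := h1' (h1 hU)
    exact hCn ((hW n C hC).1 hCU) (h1 hU)
  have h1 : {n | W n ∈ 𝒱} ∈ p := by
    rcases Ultrafilter.mem_or_compl_mem p {n | W n ∈ 𝒱} with h | h
    · exact h
    · exact absurd h (key 𝒱 𝒱' hV (hu ▸ Set.subset_union_left) hVl)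
  have h2 : {n | W n ∈ 𝒲} ∈ p := by
    rcases Ultrafilter.mem_or_compl_mem p {n | W n ∈ 𝒲} with h | h
    · exact h
    · exact absurd h (key 𝒲 𝒲' hW' (hu ▸ Set.subset_union_right) hWl)
  obtain ⟨n, hn1, hn2⟩ := p.nonempty_of_mem (Filter.inter_mem h1 h2)
  exact Set.disjoint_left.1 hd hn1 hn2

theorem exists_base : ∃ B : Set (Set ℕ), IsUltraBase B ∧ #B = ultraNumber := by
  have hne : {κ | ∃ B : Set (Set ℕ), IsUltraBase B ∧ #B = κ}.Nonempty := by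
    refine ⟨_, {A | A ∈ Filter.hyperfilter ℕ}, ⟨Filter.hyperfilter ℕ, ?_, fun A hA => hA,
      fun A hA => ⟨A, hA, subset_rfl⟩⟩, rfl⟩
    intro n
    exact (Set.finite_singleton n).notMem_hyperfilter
  exact csInf_mem hne

theorem aleph0_le_ultraNumber : ℵ₀ ≤ ultraNumber := by
  obtain ⟨B, ⟨p, hp1, hp2, hp3⟩, hB⟩ := exists_base
  rw [← hB]
  by_contra hlt
  have hfin : B.Finite := Cardinal.lt_aleph0_iff_set_finite.1 (not_le.1 hlt)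
  have h1 : (⋂ A ∈ B, A) ∈ p := (Filter.biInter_mem hfin).2 fun A hA => hp2 A hA
  obtain ⟨n, hn⟩ := p.nonempty_of_mem h1
  have h2 : ({n} : Set ℕ)ᶜ ∈ p := by
    rcases Ultrafilter.mem_or_compl_mem p {n} with h | h
    · exact absurd h (hp1 n)
    · exact h
  obtain ⟨C, hC, hCn⟩ := hp3 _ h2
  simp only [Set.mem_iInter] at hn
  exact hCn (hn C hC) rfl

/-! ### Countable unions -/

/-- every finite subset of `X` is contained in a member of `𝒱` -/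
def Om (X : Set ℝ) (𝒱 : Set (Set ℝ)) : Prop := ∀ F : Set ℝ, F.Finite → F ⊆ X → ∃ U ∈ 𝒱, F ⊆ U

/-- every point of `Y` is in infinitely many members of `𝒱` -/
def Lg (Y : Set ℝ) (𝒱 : Set (Set ℝ)) : Prop := ∀ x ∈ Y, {U : Set ℝ | U ∈ 𝒱 ∧ x ∈ U}.Infinite

theorem om_union {X : Set ℝ} {𝒱 𝒜 ℬ : Set (Set ℝ)} (h : Om X 𝒱) (hs : 𝒱 ⊆ 𝒜 ∪ ℬ) :
    Om X 𝒜 ∨ Om X ℬ := by
  by_contra hcon
  push Not at hcon
  obtain ⟨h1, h2⟩ := hcon
  unfold Om at h1 h2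
  push Not at h1 h2
  obtain ⟨F, hF, hFX, hF2⟩ := h1
  obtain ⟨G, hG, hGX, hG2⟩ := h2
  obtain ⟨U, hU, hFU⟩ := h (F ∪ G) (hF.union hG) (Set.union_subset hFX hGX)
  rcases hs hU with hU | hU
  · exact hF2 U hU (Set.subset_union_left.trans hFU)
  · exact hG2 U hU (Set.subset_union_right.trans hFU)

/-- the step: split off a subfamily that is large for `Y` -/
theorem split_off {X Y : Set ℝ} (hYX : Y ⊆ X) (hY : SplitOL Y) {𝒰 𝒱 : Set (Set ℝ)}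
    (h𝒰 : OpenCover X 𝒰) (hs : 𝒱 ⊆ 𝒰) (h𝒱 : Om X 𝒱) :
    ∃ 𝒱₁ 𝒱₂ : Set (Set ℝ), 𝒱₁ ⊆ 𝒱 ∧ 𝒱₂ ⊆ 𝒱 ∧ Disjoint 𝒱₁ 𝒱₂ ∧ Om X 𝒱₁ ∧ Lg Y 𝒱₂ := by
  classical
  set D : Set (Set ℝ) := {U | U ∈ 𝒱 ∧ Y ⊆ U} with hD
  rcases D.finite_or_infinite with hfin | hinf
  · -- remove the finitely many members containing `Y`
    have h1 : Om X (𝒱 \ D) := by
      have h2 : Om X D ∨ Om X (𝒱 \ D) := by
        apply om_union h𝒱
        intro U hU
        by_cases hUD : U ∈ D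
        · exact Or.inl hUD
        · exact Or.inr ⟨hU, hUD⟩
      rcases h2 with h2 | h2
      · exfalso
        have hy : ∀ U ∈ D, ∃ y ∈ X, y ∉ U := by
          rintro U ⟨hU, -⟩
          by_contra hcon
          push Not at hcon
          have hUX : U ⊆ X := by
            obtain ⟨V, -, rfl⟩ := h𝒰.1 U (hs hU)
            exact inter_subset_right
          exact h𝒰.2.2 ((hUX.antisymm hcon) ▸ hs hU)
        choose! y hy1 hy2 using hy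
        obtain ⟨U, hU, hFU⟩ := h2 (y '' D) (hfin.image y) (by
          rintro x ⟨U, hU, rfl⟩
          exact hy1 U hU)
        exact hy2 U hU (hFU ⟨U, hU, rfl⟩)
      · exact h2
    set 𝒯 : Set (Set ℝ) := (fun U => U ∩ Y) '' (𝒱 \ D) with h𝒯
    have hT : Omega Y 𝒯 := by
      refine ⟨⟨?_, ?_, ?_⟩, ?_⟩
      · rintro _ ⟨U, ⟨hU, -⟩, rfl⟩
        obtain ⟨V, hV, rfl⟩ := h𝒰.1 U (hs hU)
        refine ⟨V, hV, ?_⟩
        show V ∩ X ∩ Y = V ∩ Y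
        rw [Set.inter_assoc, Set.inter_eq_self_of_subset_right hYX]
      · apply Set.Subset.antisymm
        · rintro x ⟨_, ⟨U, -, rfl⟩, hx⟩
          exact hx.2
        · intro x hx
          obtain ⟨U, hU, hxU⟩ := h1 {x} (Set.finite_singleton x) (by simpa using hYX hx)
          exact ⟨U ∩ Y, ⟨U, hU, rfl⟩, hxU rfl, hx⟩
      · rintro ⟨U, ⟨hU, hUD⟩, hUY⟩
        exact hUD ⟨hU, by rw [← hUY]; exact Set.inter_subset_left⟩
      · intro F hF hFY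
        obtain ⟨U, hU, hFU⟩ := h1 F hF (hFY.trans hYX)
        exact ⟨U ∩ Y, ⟨U, hU, rfl⟩, Set.subset_inter hFU hFY⟩
    obtain ⟨𝒜, ℬ, hu, hd, ⟨𝒜', hA, hAl⟩, ℬ', hB, hBl⟩ := hY 𝒯 hT
    have key : ∀ 𝒞 𝒞' : Set (Set ℝ), 𝒞' ⊆ 𝒞 → 𝒞 ⊆ 𝒯 → Large Y 𝒞' →
        Lg Y {U | U ∈ 𝒱 \ D ∧ U ∩ Y ∈ 𝒞} := by
      intro 𝒞 𝒞' h3 h4 h5 x hx hfin2
      apply h5.2 x hx
      refine (hfin2.image fun U => U ∩ Y).subset ?_
      rintro T ⟨hT, hxT⟩
      obtain ⟨U, hU, rfl⟩ := h4 (h3 hT)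
      exact ⟨U, ⟨⟨hU, h3 hT⟩, hxT.1⟩, rfl⟩
    have hdis : Disjoint {U | U ∈ 𝒱 \ D ∧ U ∩ Y ∈ 𝒜} {U | U ∈ 𝒱 \ D ∧ U ∩ Y ∈ ℬ} := by
      rw [Set.disjoint_left]
      rintro U ⟨-, h3⟩ ⟨-, h4⟩
      exact Set.disjoint_left.1 hd h3 h4
    have hor : Om X {U | U ∈ 𝒱 \ D ∧ U ∩ Y ∈ 𝒜} ∨ Om X {U | U ∈ 𝒱 \ D ∧ U ∩ Y ∈ ℬ} := by
      apply om_union h1
      intro U hU
      have : U ∩ Y ∈ 𝒜 ∪ ℬ := by rw [hu]; exact ⟨U, hU, rfl⟩
      rcases this with h3 | h3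
      · exact Or.inl ⟨hU, h3⟩
      · exact Or.inr ⟨hU, h3⟩
    rcases hor with h3 | h3
    · exact ⟨_, _, fun U hU => hU.1.1, fun U hU => hU.1.1, hdis, h3,
        key ℬ ℬ' hB (hu ▸ Set.subset_union_right) hBl⟩
    · exact ⟨_, _, fun U hU => hU.1.1, fun U hU => hU.1.1, hdis.symm, h3,
        key 𝒜 𝒜' hA (hu ▸ Set.subset_union_left) hAl⟩
  · -- infinitely many members contain `Y`
    obtain ⟨D₁, hD₁, hi1, hi2⟩ : ∃ D₁ ⊆ D, D₁.Infinite ∧ (D \ D₁).Infinite := by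
      have : Infinite D := hinf.to_subtype
      let g := Infinite.natEmbedding D
      refine ⟨Set.range fun n : ℕ => (g (2 * n) : Set ℝ), ?_, ?_, ?_⟩
      · rintro _ ⟨n, rfl⟩
        exact (g (2 * n)).2
      · apply Set.infinite_range_of_injective
        intro a b hab
        have := g.injective (Subtype.ext hab)
        omega
      · have hsub : Set.range (fun n : ℕ => (g (2 * n + 1) : Set ℝ)) ⊆
            D \ Set.range fun n : ℕ => (g (2 * n) : Set ℝ) := by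
          rintro _ ⟨n, rfl⟩
          refine ⟨(g (2 * n + 1)).2, ?_⟩
          rintro ⟨m, hm⟩
          have := g.injective (Subtype.ext hm)
          omega
        refine Set.Infinite.mono hsub (Set.infinite_range_of_injective ?_)
        intro a b hab
        have := g.injective (Subtype.ext hab)
        omega
    have hlg : ∀ E ⊆ D, E.Infinite → Lg Y E := by
      intro E hE hEi x hx
      refine hEi.mono fun U hU => ⟨hU, (hE hU).2 hx⟩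
    have hor : Om X D₁ ∨ Om X (𝒱 \ D₁) := by
      apply om_union h𝒱
      intro U hU
      by_cases hUD : U ∈ D₁
      · exact Or.inl hUD
      · exact Or.inr ⟨hU, hUD⟩
    rcases hor with h3 | h3
    · exact ⟨D₁, D \ D₁, fun U hU => (hD₁ hU).1, fun U hU => hU.1.1, Set.disjoint_sdiff_right, h3,
        hlg _ Set.sdiff_subset hi2⟩
    · exact ⟨𝒱 \ D₁, D₁, Set.sdiff_subset, fun U hU => (hD₁ hU).1, Set.disjoint_sdiff_left, h3,
        hlg _ hD₁ hi1⟩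

/-- the double step -/
theorem split_off_two {X Y : Set ℝ} (hYX : Y ⊆ X) (hY : SplitOL Y) {𝒰 𝒱 : Set (Set ℝ)}
    (h𝒰 : OpenCover X 𝒰) (hs : 𝒱 ⊆ 𝒰) (h𝒱 : Om X 𝒱) :
    ∃ 𝒢 𝒬 ℛ : Set (Set ℝ), 𝒢 ⊆ 𝒱 ∧ 𝒬 ⊆ 𝒱 ∧ ℛ ⊆ 𝒱 ∧ Disjoint 𝒢 𝒬 ∧ Disjoint 𝒢 ℛ ∧
      Disjoint 𝒬 ℛ ∧ Lg Y 𝒢 ∧ Lg Y 𝒬 ∧ Om X ℛ := by
  obtain ⟨𝒱₁, 𝒱₂, h1, h2, h3, h4, h5⟩ := split_off hYX hY h𝒰 hs h𝒱
  obtain ⟨𝒲₁, 𝒲₂, k1, k2, k3, k4, k5⟩ := split_off hYX hY h𝒰 (h1.trans hs) h4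
  exact ⟨𝒱₂, 𝒲₂, 𝒲₁, h2, k2.trans h1, k1.trans h1, (h3.mono_left k2).symm, (h3.mono_left k1).symm,
    k3.symm, h5, k5, k4⟩

theorem split_iUnion (X : ℕ → Set ℝ) (hX : ∀ n, SplitOL (X n)) : SplitOL (⋃ n, X n) := by
  classical
  intro 𝒰 h𝒰
  let OM : Type := {𝒱 : Set (Set ℝ) // 𝒱 ⊆ 𝒰 ∧ Om (⋃ n, X n) 𝒱}
  have step : ∀ (n : ℕ) (𝒱 : OM), ∃ (𝒢 𝒬 : Set (Set ℝ)) (ℛ : OM), 𝒢 ⊆ 𝒱.1 ∧ 𝒬 ⊆ 𝒱.1 ∧
      ℛ.1 ⊆ 𝒱.1 ∧ Disjoint 𝒢 𝒬 ∧ Disjoint 𝒢 ℛ.1 ∧ Disjoint 𝒬 ℛ.1 ∧ Lg (X n) 𝒢 ∧ Lg (X n) 𝒬 := by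
    intro n 𝒱
    obtain ⟨𝒢, 𝒬, ℛ, h1, h2, h3, h4, h5, h6, h7, h8, h9⟩ :=
      split_off_two (Set.subset_iUnion X n) (hX n) h𝒰.1 𝒱.2.1 𝒱.2.2
    exact ⟨𝒢, 𝒬, ⟨ℛ, h3.trans 𝒱.2.1, h9⟩, h1, h2, h3, h4, h5, h6, h7, h8⟩
  choose P Q R h1 h2 h3 h4 h5 h6 h7 h8 using step
  let V : ℕ → OM := fun n => Nat.rec (⟨𝒰, subset_rfl, h𝒰.2⟩ : OM) (fun n v => R n v) n
  have hV : ∀ n, V (n + 1) = R n (V n) := fun n => rfl
  have hmono : ∀ m n, m ≤ n → (V n).1 ⊆ (V m).1 := by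
    intro m n hmn
    induction n, hmn using Nat.le_induction with
    | base => exact subset_rfl
    | succ n _ ih => rw [hV]; exact (h3 n (V n)).trans ih
  have hPU : ∀ n, P n (V n) ⊆ 𝒰 := fun n => (h1 n (V n)).trans (V n).2.1
  have hQU : ∀ n, Q n (V n) ⊆ 𝒰 := fun n => (h2 n (V n)).trans (V n).2.1
  have hPQ : ∀ m n, Disjoint (P m (V m)) (Q n (V n)) := by
    intro m n
    rcases lt_trichotomy m n with h | h | h
    · have : Q n (V n) ⊆ (R m (V m)).1 := (h2 n (V n)).trans (hmono (m + 1) n h)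
      exact (h5 m (V m)).mono_right this
    · subst h
      exact h4 m (V m)
    · have : P m (V m) ⊆ (R n (V n)).1 := (h1 m (V m)).trans (hmono (n + 1) m h)
      exact ((h6 n (V n)).mono_right this).symm
  have hlarge : ∀ (E : ℕ → Set (Set ℝ)), (∀ n, E n ⊆ 𝒰) → (∀ n, Lg (X n) (E n)) →
      Large (⋃ n, X n) (⋃ n, E n) := by
    intro E hE hEl
    have hl : ∀ x ∈ ⋃ n, X n, {U : Set ℝ | U ∈ (⋃ n, E n) ∧ x ∈ U}.Infinite := by
      intro x hx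
      obtain ⟨n, hn⟩ := Set.mem_iUnion.1 hx
      exact (hEl n x hn).mono fun U hU => ⟨Set.mem_iUnion.2 ⟨n, hU.1⟩, hU.2⟩
    refine ⟨openCover_sub h𝒰.1 (Set.iUnion_subset hE) ?_, hl⟩
    intro x hx
    obtain ⟨U, hU⟩ := (hl x hx).nonempty
    exact ⟨U, hU.1, hU.2⟩
  refine ⟨⋃ n, P n (V n), 𝒰 \ ⋃ n, P n (V n), ?_, Set.disjoint_sdiff_right,
    ⟨_, subset_rfl, hlarge _ hPU fun n => h7 n (V n)⟩,
    ⋃ n, Q n (V n), ?_, hlarge _ hQU fun n => h8 n (V n)⟩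
  · rw [Set.union_sdiff_self]
    exact Set.union_eq_self_of_subset_left (Set.iUnion_subset hPU)
  · intro U hU
    obtain ⟨n, hn⟩ := Set.mem_iUnion.1 hU
    refine ⟨hQU n hn, fun hUP => ?_⟩
    obtain ⟨m, hm⟩ := Set.mem_iUnion.1 hUP
    exact Set.disjoint_left.1 (hPQ m n) hm hn

/-! ### The additivity number -/

theorem exists_family : ∃ 𝓕 : Set (Set ℝ), #𝓕 ≤ ultraNumber.ord.cof ∧ (∀ X ∈ 𝓕, SplitOL X) ∧
    ¬ SplitOL (⋃₀ 𝓕) := by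
  classical
  obtain ⟨B, hB, hBc⟩ := exists_base
  have hT : #(ultraNumber.ord.ToType) = ultraNumber := mk_ord_toType _
  obtain ⟨e⟩ : Nonempty (B ≃ ultraNumber.ord.ToType) := Cardinal.eq.1 (by rw [hT, hBc])
  obtain ⟨s, hs, hsc⟩ := Order.exists_cof_eq (ultraNumber.ord.ToType)
  rw [Ordinal.cof_toType] at hsc
  let Y : s → Set ℝ := fun t => emb '' {A | ∃ h : A ∈ B, e ⟨A, h⟩ ≤ t.1}
  have hY : ∀ t, SplitOL (Y t) := by
    intro t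
    apply split_of_lt
    have h1 : #(Y t) ≤ #{A | ∃ h : A ∈ B, e ⟨A, h⟩ ≤ t.1} := mk_image_le
    have h2 : #{A | ∃ h : A ∈ B, e ⟨A, h⟩ ≤ t.1} ≤ #(Set.Iic t.1) := by
      refine Cardinal.mk_le_of_injective (f := fun A => ⟨e ⟨A.1, A.2.choose⟩, A.2.choose_spec⟩) ?_
      intro A A' hAA
      have := e.injective (congrArg Subtype.val hAA)
      exact Subtype.ext (by simpa using this)
    have h3 : #(Set.Iio t.1) < ultraNumber := by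
      have := mk_Iio_lt (α := ultraNumber.ord.ToType) t.1 (by rw [hT, Ordinal.type_toType])
      rwa [hT] at this
    have h4 : #(Set.Iic t.1) ≤ #(Set.Iio t.1) + 1 := by
      rw [← Set.Iio_insert]
      exact mk_insert_le
    refine lt_of_le_of_lt (h1.trans (h2.trans h4)) ?_
    exact add_lt_of_lt aleph0_le_ultraNumber h3 (lt_of_lt_of_le one_lt_aleph0 aleph0_le_ultraNumber)
  have hU : ⋃₀ (Set.range Y) = emb '' B := by
    rw [Set.sUnion_range]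
    apply Set.Subset.antisymm
    · rintro y hy
      obtain ⟨t, A, ⟨hA, -⟩, rfl⟩ := Set.mem_iUnion.1 hy
      exact ⟨A, hA, rfl⟩
    · rintro _ ⟨A, hA, rfl⟩
      obtain ⟨t, ht, htA⟩ := hs (e ⟨A, hA⟩)
      exact Set.mem_iUnion.2 ⟨⟨t, ht⟩, A, ⟨hA, htA⟩, rfl⟩
  refine ⟨Set.range Y, mk_range_le.trans hsc.le, ?_, ?_⟩
  · rintro _ ⟨t, rfl⟩
    exact hY t
  · rw [hU]
    exact not_split hB

theorem add_le_cof : addSplit ≤ ultraNumber.ord.cof := by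
  obtain ⟨𝓕, h1, h2, h3⟩ := exists_family
  have h4 : addSplit ≤ #𝓕 := csInf_le' ⟨𝓕, rfl, h2, h3⟩
  exact h4.trans h1

theorem split_empty : SplitOL ∅ := by
  intro 𝒰 h𝒰
  exfalso
  obtain ⟨U, hU, -⟩ := h𝒰.2 ∅ Set.finite_empty subset_rfl
  have hUe : U = ∅ := by
    obtain ⟨V, -, rfl⟩ := h𝒰.1.1 U hU
    exact Set.inter_empty V
  exact h𝒰.1.2.2 (hUe ▸ hU)

theorem aleph1_le_add : ℵ₁ ≤ addSplit := by
  obtain ⟨𝓕₀, -, h₀, h₀'⟩ := exists_family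
  refine le_csInf ⟨_, 𝓕₀, rfl, h₀, h₀'⟩ ?_
  rintro κ ⟨𝓕, rfl, h2, h3⟩
  by_contra hlt
  have hc : 𝓕.Countable := by
    rw [← Cardinal.le_aleph0_iff_set_countable]
    rw [not_le, ← succ_aleph0, Order.lt_succ_iff] at hlt
    exact hlt
  rcases 𝓕.eq_empty_or_nonempty with h | h
  · subst h
    exact h3 (by simpa using split_empty)
  · obtain ⟨X, rfl⟩ := hc.exists_eq_range h
    apply h3
    rw [Set.sUnion_range]
    exact split_iUnion X fun n => h2 _ ⟨n, rfl⟩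

theorem exists_not_split : ∃ X : Set ℝ, #X = ultraNumber ∧ ¬ SplitOL X := by
  obtain ⟨B, hB, hBc⟩ := exists_base
  exact ⟨emb '' B, by rw [mk_image_eq emb_injective, hBc], not_split hB⟩

end Pool.Agent.H132R3.SplitAdd
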